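import Mathlib

set_option autoImplicit false

/-!
# Job KP-16: permutations avoiding two cells in every row and column (about 120 lines)

`avoid_four`: `|R| = 4`; the rows are `R`, the columns are `C = π(R)`, `|C| = 4`. For a row `x ∈ R` let
`N x = {c ∈ C | (x, c) ∉ B}`, `|N x| ≥ 2`, and every column `c` is in `N x` for at least 2 of the four rows (because
at most two cells of the column are in `B`). Hall's condition for `S ⊆ R`: `|S| ≤ 2`: `|N(S)| ≥ 2 ≥ |S|` (for
`S ≠ ∅`); `|S| ≥ 3`: every column `c ∈ C` is allowed in at least two rows and at most one row is not in `S`, so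
`N(S) = C`. So (`Finset.all_card_le_biUnion_card_iff_exists_injective`, or
`Finset.all_card_le_biUnion_card_iff_existsInjective'`) there is an injective `f : R → C` with `(x, f x) ∉ B`; it is a
bijection `R ≃ C`, and together with `π` outside `R` it gives a permutation `σ` (extend: define `σ x = f x` on `R`,
`π x` outside; it is injective since `π` maps the complement of `R` onto the complement of `C`).

`count_avoid`: induction on `y`, for all `π`. `y = 0` is `avoid_four` (`2! = 2 ≤ 2 * 1`). Step from `y` to `y + 1`: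
`|R| = y + 5`. Let `x₀ ∈ R`, `C = π(R)`, `|C| = y + 5`; at least `y + 3` columns `c ∈ C` satisfy `(x₀, c) ∉ B`. For
such a `c` let `π_c = π * swap x₀ (π⁻¹ c)`: it agrees with `π` outside `R` (`x₀, π⁻¹ c ∈ R`) and `π_c x₀ = c`. Let
`R' = R.erase x₀`. The permutations counted for `(π_c, R')` are counted for `(π, R)` (they are `π_c` outside `R'`, in
particular `σ x₀ = c`, `(x₀, c) ∉ B`) and they are different for different `c`. So the number for
`(π, R)` is at least `(y + 3)` times the bound `(y + 2)! / 2`, and `(y + 3) * (y + 2)! = (y + 3)!`.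
-/

namespace Pool.Agent.H58.KP

open Finset Equiv
open scoped Nat

variable {n : ℕ}

theorem card_row_avoid (B : Finset (Fin n × Fin n))
    (hrow : ∀ a, (univ.filter (fun b => (a, b) ∈ B)).card ≤ 2)
    (C : Finset (Fin n)) (a : Fin n) : C.card ≤ (C.filter (fun c => (a, c) ∉ B)).card + 2 := by
  have h1 := Finset.card_filter_add_card_filter_not (s := C) (fun c => (a, c) ∈ B)
  have h2 : (C.filter (fun c => (a, c) ∈ B)).card ≤ 2 := by
    refine le_trans (card_le_card ?_) (hrow a)
    intro c hc
    rw [mem_filter] at hc ⊢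
    exact ⟨mem_univ _, hc.2⟩
  omega

theorem avoid_four (B : Finset (Fin n × Fin n))
    (hrow : ∀ a, (univ.filter (fun b => (a, b) ∈ B)).card ≤ 2)
    (hcol : ∀ b, (univ.filter (fun a => (a, b) ∈ B)).card ≤ 2)
    (π : Perm (Fin n)) (R : Finset (Fin n)) (hR : R.card = 4) :
    ∃ σ : Perm (Fin n), (∀ x, x ∉ R → σ x = π x) ∧ ∀ x ∈ R, (x, σ x) ∉ B := by
  classical
  have hC : (R.image π).card = 4 := by rw [card_image_of_injective _ π.injective, hR]
  obtain ⟨f, hf, hft⟩ := (Finset.all_card_le_biUnion_card_iff_exists_injective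
    (fun x : R => (R.image π).filter (fun c => ((x : Fin n), c) ∉ B))).1 (by
    intro s
    rcases s.eq_empty_or_nonempty with rfl | ⟨x, hx⟩
    · simp
    · by_cases hs : s.card ≤ 2
      · have h1 := card_row_avoid B hrow (R.image π) (x : Fin n)
        have h2 : ((R.image π).filter (fun c => ((x : Fin n), c) ∉ B)).card ≤
            (s.biUnion (fun x : R => (R.image π).filter (fun c => ((x : Fin n), c) ∉ B))).card :=
          card_le_card (subset_biUnion_of_mem
            (fun x : R => (R.image π).filter (fun c => ((x : Fin n), c) ∉ B)) hx)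
        omega
      · have h1 : R.image π ⊆
            s.biUnion (fun x : R => (R.image π).filter (fun c => ((x : Fin n), c) ∉ B)) := by
          intro c hc
          by_contra hcon
          have h2 : ∀ x ∈ s, ((x : Fin n), c) ∈ B := by
            intro x hx
            by_contra hxB
            exact hcon (mem_biUnion.2 ⟨x, hx, mem_filter.2 ⟨hc, hxB⟩⟩)
          have h3 : (s.map (Function.Embedding.subtype _)).card ≤ 2 := by
            refine le_trans (card_le_card ?_) (hcol c)
            intro a ha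
            rw [mem_map] at ha
            obtain ⟨x, hx, rfl⟩ := ha
            exact mem_filter.2 ⟨mem_univ _, h2 x hx⟩
          rw [card_map] at h3
          exact hs h3
        have h2 := card_le_card h1
        have h3 : s.card ≤ Fintype.card R := card_le_univ s
        rw [Fintype.card_coe, hR] at h3
        omega)
  have hmem : ∀ x : R, f x ∈ R.image π ∧ ((x : Fin n), f x) ∉ B := fun x => by
    have := hft x
    rwa [mem_filter] at this
  let g : Fin n → Fin n := fun x => if h : x ∈ R then f ⟨x, h⟩ else π x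
  have hg1 : ∀ x (h : x ∈ R), g x = f ⟨x, h⟩ := fun x h => dif_pos h
  have hg2 : ∀ x, x ∉ R → g x = π x := fun x h => dif_neg h
  have hinj : Function.Injective g := by
    intro x y hxy
    by_cases hx : x ∈ R <;> by_cases hy : y ∈ R
    · rw [hg1 x hx, hg1 y hy] at hxy
      exact congrArg Subtype.val (hf hxy)
    · rw [hg1 x hx, hg2 y hy] at hxy
      have h1 := (hmem ⟨x, hx⟩).1
      rw [hxy, mem_image] at h1
      obtain ⟨z, hz, hzy⟩ := h1
      exact absurd (π.injective hzy ▸ hz) hy
    · rw [hg2 x hx, hg1 y hy] at hxy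
      have h1 := (hmem ⟨y, hy⟩).1
      rw [← hxy, mem_image] at h1
      obtain ⟨z, hz, hzx⟩ := h1
      exact absurd (π.injective hzx ▸ hz) hx
    · rw [hg2 x hx, hg2 y hy] at hxy
      exact π.injective hxy
  refine ⟨Equiv.ofBijective g (Finite.injective_iff_bijective.1 hinj), ?_, ?_⟩
  · intro x hx
    exact hg2 x hx
  · intro x hx
    change (x, g x) ∉ B
    rw [hg1 x hx]
    exact (hmem ⟨x, hx⟩).2

theorem count_avoid (B : Finset (Fin n × Fin n))
    (hrow : ∀ a, (univ.filter (fun b => (a, b) ∈ B)).card ≤ 2)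
    (hcol : ∀ b, (univ.filter (fun a => (a, b) ∈ B)).card ≤ 2) :
    ∀ (y : ℕ) (π : Perm (Fin n)) (R : Finset (Fin n)), R.card = y + 4 →
      (y + 2)! ≤ 2 * (univ.filter (fun σ : Perm (Fin n) =>
        (∀ x, x ∉ R → σ x = π x) ∧ ∀ x ∈ R, (x, σ x) ∉ B)).card := by
  classical
  intro y
  induction y with
  | zero =>
    intro π R hR
    obtain ⟨σ, hσ⟩ := avoid_four B hrow hcol π R hR
    have h1 : 0 < (univ.filter (fun σ : Perm (Fin n) =>
        (∀ x, x ∉ R → σ x = π x) ∧ ∀ x ∈ R, (x, σ x) ∉ B)).card :=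
      card_pos.2 ⟨σ, mem_filter.2 ⟨mem_univ _, hσ⟩⟩
    have h2 : (0 + 2)! = 2 := rfl
    rw [h2]
    omega
  | succ y ih =>
    intro π R hR
    obtain ⟨x₀, hx₀⟩ : R.Nonempty := card_pos.1 (by omega)
    have hC := card_row_avoid B hrow (R.image π) x₀
    rw [card_image_of_injective _ π.injective, hR] at hC
    let F : Fin n → Finset (Perm (Fin n)) := fun c => univ.filter (fun σ : Perm (Fin n) =>
      (∀ x, x ∉ R.erase x₀ → σ x = (π * swap x₀ (π.symm c)) x) ∧
        ∀ x ∈ R.erase x₀, (x, σ x) ∉ B)
    have hval : ∀ c, ∀ σ ∈ F c, σ x₀ = c := by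
      intro c σ hσ
      have h1 := (mem_filter.1 hσ).2.1 x₀ (by simp)
      rw [h1]
      simp
    have hF : ∀ c, (y + 2)! ≤ 2 * (F c).card := fun c =>
      ih (π * swap x₀ (π.symm c)) (R.erase x₀) (by rw [card_erase_of_mem hx₀, hR]; rfl)
    have hsub : ((R.image π).filter (fun c => (x₀, c) ∉ B)).biUnion F ⊆
        univ.filter (fun σ : Perm (Fin n) =>
          (∀ x, x ∉ R → σ x = π x) ∧ ∀ x ∈ R, (x, σ x) ∉ B) := by
      intro σ hσ
      rw [mem_biUnion] at hσ
      obtain ⟨c, hc, hσc⟩ := hσ
      rw [mem_filter, mem_image] at hc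
      obtain ⟨⟨z, hz, rfl⟩, hcB⟩ := hc
      have h1 := hval _ σ hσc
      have h2 := (mem_filter.1 hσc).2
      refine mem_filter.2 ⟨mem_univ _, ?_, ?_⟩
      · intro x hx
        rw [h2.1 x (fun h => hx (mem_of_mem_erase h))]
        have hxx : x ≠ x₀ := fun h => hx (h ▸ hx₀)
        have hxz : x ≠ z := fun h => hx (h ▸ hz)
        rw [Perm.mul_apply, Equiv.symm_apply_apply, swap_apply_of_ne_of_ne hxx hxz]
      · intro x hx
        by_cases hxx : x = x₀
        · rw [hxx, h1]
          exact hcB
        · exact h2.2 x (mem_erase.2 ⟨hxx, hx⟩)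
    have hdisj : ∀ c ∈ (R.image π).filter (fun c => (x₀, c) ∉ B),
        ∀ d ∈ (R.image π).filter (fun c => (x₀, c) ∉ B), c ≠ d → Disjoint (F c) (F d) := by
      intro c _ d _ hcd
      rw [disjoint_left]
      intro σ hσc hσd
      exact hcd ((hval c σ hσc).symm.trans (hval d σ hσd))
    have h1 := card_le_card hsub
    rw [card_biUnion hdisj] at h1
    have h2 : ((R.image π).filter (fun c => (x₀, c) ∉ B)).card * (y + 2)! ≤
        ∑ c ∈ (R.image π).filter (fun c => (x₀, c) ∉ B), 2 * (F c).card := by
      rw [← smul_eq_mul]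
      exact card_nsmul_le_sum _ _ _ fun c _ => hF c
    rw [← mul_sum] at h2
    have h3 : (y + 1 + 2)! = (y + 3) * (y + 2)! := rfl
    rw [h3]
    calc (y + 3) * (y + 2)! ≤ ((R.image π).filter (fun c => (x₀, c) ∉ B)).card * (y + 2)! :=
          Nat.mul_le_mul_right _ (by omega)
      _ ≤ _ := h2
      _ ≤ _ := Nat.mul_le_mul_left 2 h1

end Pool.Agent.H58.KP
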