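import Pool.Agent.H58.KP.Basic

set_option autoImplicit false

/-!
# Job KP-2: permutations that differ from a given one in `d` points of a set (about 50 lines)

`card_miss_le`: the set is covered by the sets `{σ | ∀ x ∈ X \ D, σ x = π x}`, `D ∈ X.powersetCard d`. By
`σ ↦ π⁻¹ * σ` such a set is in bijection with the permutations that fix all points of `X \ D`, so it has
`(n - |X| + d)!` elements: `Pool.Agent.H71.KInt.card_fix_outside (Y : Finset (Fin n)) :
(univ.filter (fun ρ : Perm (Fin n) => ∀ x, x ∉ Y → ρ x = x)).card = (Y.card)!` with `Y` the complement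
of `X \ D` (an inequality is enough, use `card_le_card_of_injOn`). Then
`card_biUnion_le_card_mul` and `card_powersetCard`. If `d > |X|` the set is empty (and the `powersetCard` is
empty as well).
-/

namespace Pool.Agent.H58.KP

open Finset Equiv
open Pool.Agent.H71.KInt
open scoped Nat

variable {n : ℕ}

/-- The number of the permutations that differ from `π` in exactly `d` points of `X`. -/
theorem card_miss_le (π : Perm (Fin n)) (X : Finset (Fin n)) (d : ℕ) :
    (univ.filter (fun σ : Perm (Fin n) => (X.filter (fun x => σ x ≠ π x)).card = d)).card ≤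
      X.card.choose d * (n - X.card + d)! := by
  classical
  have hsub : univ.filter (fun σ : Perm (Fin n) => (X.filter (fun x => σ x ≠ π x)).card = d) ⊆
      (X.powersetCard d).biUnion
        (fun D => univ.filter (fun σ : Perm (Fin n) => ∀ x ∈ X \ D, σ x = π x)) := by
    intro σ hσ
    rw [mem_filter] at hσ
    rw [mem_biUnion]
    refine ⟨X.filter (fun x => σ x ≠ π x), ?_, ?_⟩
    · rw [mem_powersetCard]
      exact ⟨filter_subset _ _, hσ.2⟩
    · rw [mem_filter]
      refine ⟨mem_univ _, ?_⟩
      intro x hx
      rw [mem_sdiff, mem_filter] at hx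
      by_contra h
      exact hx.2 ⟨hx.1, h⟩
  have hone : ∀ D ∈ X.powersetCard d,
      (univ.filter (fun σ : Perm (Fin n) => ∀ x ∈ X \ D, σ x = π x)).card ≤ (n - X.card + d)! := by
    intro D hD
    rw [mem_powersetCard] at hD
    have h1 : (univ.filter (fun σ : Perm (Fin n) => ∀ x ∈ X \ D, σ x = π x)).card ≤
        (univ.filter (fun ρ : Perm (Fin n) => ∀ x, x ∉ (X \ D)ᶜ → ρ x = x)).card := by
      apply card_le_card_of_injOn (fun σ => π⁻¹ * σ)
      · intro σ hσ
        simp only [coe_filter, mem_univ, true_and, Set.mem_ofPred_eq] at hσ ⊢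
        intro x hx
        rw [mem_compl, not_not] at hx
        rw [Perm.mul_apply, hσ x hx]
        exact π.symm_apply_apply x
      · intro σ _ τ _ h
        exact mul_left_cancel h
    have h2 := card_fix_outside (X \ D)ᶜ
    rw [h2] at h1
    have h3 : ((X \ D)ᶜ).card = n - X.card + d := by
      rw [card_compl, card_sdiff_of_subset hD.1, hD.2, Fintype.card_fin]
      have h4 : X.card ≤ n := by
        have := card_le_univ X
        rwa [Fintype.card_fin] at this
      have h5 : d ≤ X.card := by
        rw [← hD.2]
        exact card_le_card hD.1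
      omega
    rw [h3] at h1
    exact h1
  calc _ ≤ _ := card_le_card hsub
    _ ≤ (X.powersetCard d).card * (n - X.card + d)! := card_biUnion_le_card_mul _ _ _ hone
    _ = _ := by rw [card_powersetCard]

end Pool.Agent.H58.KP
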