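import Pool.Agent.H58.KP.Match
import Pool.Agent.H58.KP.Miss

set_option autoImplicit false

/-!
# Job KP-3: balls around a matching (about 120 lines)

Notation `t y d = (n - y).choose d * (y + d)!`.

`t_step`: if `1 ≤ d`, `y + 2 * d < n` then `2 * t y (d - 1) ≤ t y d` (in fact
`t y (d-1) / t y d = d / ((n - y - d + 1) (y + d)) ≤ 1 / (n - y - d + 1) ≤ 1 / 2`). In Lean write `d = e + 1`:
`(n - y).choose (e + 1) * (e + 1) = (n - y).choose e * (n - y - e)` (`Nat.choose_succ_right_eq`) and
`(y + e + 1)! = (y + e + 1) * (y + e)!`; `n - y - e ≥ 2` and `y + e + 1 ≥ e + 1` give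
`(e + 1) * t y (e + 1) = (n - y).choose e * (n - y - e) * (y + e + 1) * (y + e)! ≥
2 (e + 1) * t y e`.

`t_sum`: hence `∑ d ∈ range (D + 1), t y d ≤ 2 * t y D` if `y + 2 * D < n` (induction on `D`).

`ball_match`: let `L` be a matching and `M < n`. Let `π` be a permutation with `L ⊆ gr π` (`match_extend`) and
`X = L.image Prod.fst` the set of the rows, `|X| = |L|` (injective on `L` since `L` is a matching), `y = n - |L|`
(`|L| ≤ n`). For `σ` let `d = |{x ∈ X | σ x ≠ π x}|`; then `|gr σ ∩ L| + d = |L|` (the cells of `L` are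
`(x, π x)`, `x ∈ X`), so by `card_dl` `|dl L σ| = n - |L| + 2 d = y + 2 d`. If `y > M` we are in the first case.
Otherwise put `D = (M - y) / 2`: then `y + 2 D ≤ M ≤ y + 2 D + 1`, and `{σ | |dl L σ| ≤ M}` is
contained in the union over `d ≤ D` of the sets of `card_miss_le`, so its size is at most
`∑ d ∈ range (D + 1), |L|.choose d * (n - |L| + d)! = ∑ d ∈ range (D + 1), t y d ≤ 2 * t y D`.
-/

namespace Pool.Agent.H58.KP

open Finset Equiv
open Pool.Agent.H71.KInt
open scoped Nat

variable {n : ℕ}

theorem t_step {y e : ℕ} (h : y + 2 * (e + 1) < n) :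
    2 * ((n - y).choose e * (y + e)!) ≤ (n - y).choose (e + 1) * (y + (e + 1))! := by
  have h1 : (n - y).choose (e + 1) * (e + 1) = (n - y).choose e * (n - y - e) :=
    Nat.choose_succ_right_eq (n - y) e
  have h2 : (y + (e + 1))! = (y + e + 1) * (y + e)! := by
    rw [← Nat.add_assoc, Nat.factorial_succ]
  have h3 : 2 ≤ n - y - e := by omega
  have h4 : e + 1 ≤ y + e + 1 := by omega
  refine Nat.le_of_mul_le_mul_left (c := e + 1) ?_ (Nat.succ_pos e)
  calc (e + 1) * (2 * ((n - y).choose e * (y + e)!))
      = (n - y).choose e * 2 * (e + 1) * (y + e)! := by ring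
    _ ≤ (n - y).choose e * (n - y - e) * (y + e + 1) * (y + e)! := by gcongr
    _ = (n - y).choose (e + 1) * (e + 1) * (y + e + 1) * (y + e)! := by rw [h1]
    _ = (e + 1) * ((n - y).choose (e + 1) * ((y + e + 1) * (y + e)!)) := by ring
    _ = (e + 1) * ((n - y).choose (e + 1) * (y + (e + 1))!) := by rw [h2]

theorem t_sum {y D : ℕ} (h : y + 2 * D < n) :
    ∑ d ∈ range (D + 1), (n - y).choose d * (y + d)! ≤ 2 * ((n - y).choose D * (y + D)!) := by
  induction D with
  | zero =>
    rw [sum_range_one]
    omega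
  | succ D ih =>
    rw [sum_range_succ]
    have h1 := ih (by omega)
    have h2 := t_step (n := n) (y := y) (e := D) h
    omega

/-- The number of the cells of a matching in the graph of `σ`. -/
theorem card_gr_inter_match {L : Finset (Fin n × Fin n)} {π : Perm (Fin n)} (hπ : L ⊆ gr π)
    (σ : Perm (Fin n)) :
    (gr σ ∩ L).card + ((L.image Prod.fst).filter (fun x => σ x ≠ π x)).card =
      (L.image Prod.fst).card := by
  have h1 : gr σ ∩ L =
      ((L.image Prod.fst).filter (fun x => σ x = π x)).image (fun x => (x, π x)) := by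
    ext ⟨a, b⟩
    simp only [mem_inter, mem_gr, mem_image, mem_filter, Prod.mk.injEq]
    constructor
    · rintro ⟨h, h'⟩
      have h2 := mem_gr.1 (hπ h')
      simp only at h2
      exact ⟨a, ⟨⟨(a, b), h', rfl⟩, h.trans h2.symm⟩, rfl, h2⟩
    · rintro ⟨x, ⟨⟨⟨c, d⟩, h', rfl⟩, h⟩, rfl, rfl⟩
      have h2 := mem_gr.1 (hπ h')
      simp only at h2 h ⊢
      refine ⟨h, ?_⟩
      rw [h2]
      exact h'
  rw [h1, card_image_of_injective]
  · exact card_filter_add_card_filter_not _
  · intro a b h
    exact congrArg Prod.fst h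

/-- The size of the ball of radius `M` around a matching. -/
theorem ball_match (L : Finset (Fin n × Fin n)) (hL : IsMatch L) (M : ℕ) (hM : M < n) :
    (∀ σ : Perm (Fin n), M < (dl L σ).card) ∨
    ∃ y d : ℕ, y + 2 * d ≤ M ∧ M ≤ y + 2 * d + 1 ∧
      (univ.filter (fun σ : Perm (Fin n) => (dl L σ).card ≤ M)).card ≤
        2 * ((n - y).choose d * (y + d)!) := by
  obtain ⟨π, hπ⟩ := match_extend L hL
  set X := L.image Prod.fst with hX
  have hXL : X.card = L.card := by
    rw [hX]
    refine card_image_of_injOn ?_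
    intro p hp q hq h
    exact hL p hp q hq (Or.inl h)
  have hXn : X.card ≤ n := by
    have := card_le_univ X
    rwa [Fintype.card_fin] at this
  have hdl : ∀ σ : Perm (Fin n), (dl L σ).card =
      (n - X.card) + 2 * (X.filter (fun x => σ x ≠ π x)).card := by
    intro σ
    have h1 := card_dl L σ
    have h2 := card_gr_inter_match hπ σ
    rw [← hX] at h2
    omega
  rcases Nat.lt_or_ge M (n - X.card) with hc | hc
  · left
    intro σ
    rw [hdl σ]
    omega
  · right
    refine ⟨n - X.card, (M - (n - X.card)) / 2, by omega, by omega, ?_⟩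
    have h1 : (univ.filter (fun σ : Perm (Fin n) => (dl L σ).card ≤ M)) ⊆
        (range ((M - (n - X.card)) / 2 + 1)).biUnion (fun d => univ.filter
          (fun σ : Perm (Fin n) => (X.filter (fun x => σ x ≠ π x)).card = d)) := by
      intro σ hσ
      rw [mem_filter] at hσ
      have h2 := hσ.2
      rw [hdl σ] at h2
      rw [mem_biUnion]
      refine ⟨(X.filter (fun x => σ x ≠ π x)).card, ?_, ?_⟩
      · rw [mem_range]
        omega
      · rw [mem_filter]
        exact ⟨mem_univ _, rfl⟩
    refine (card_le_card h1).trans (card_biUnion_le.trans ?_)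
    refine le_trans (sum_le_sum fun d _ => card_miss_le π X d) ?_
    have h2 : n - (n - X.card) = X.card := by omega
    have h3 := t_sum (n := n) (y := n - X.card) (D := (M - (n - X.card)) / 2) (by omega)
    rw [h2] at h3
    rw [h2]
    exact h3

end Pool.Agent.H58.KP
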