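import Pool.Agent.H71.KInt.Translate
import Pool.Agent.H71.KInt.Pair

set_option autoImplicit false

/-!
# Graph coordinates

`gr σ` is the graph of `σ` in the set of the cells `Fin n × Fin n`, and `dl L σ = gr σ Δ L`. Two
permutations with `pdist σ τ ≤ m` satisfy `|dl L σ| + |dl L τ| ≤ 2 m + 2 |dl L σ ∩ dl L τ|`.
-/

namespace Pool.Agent.H58.KP

open Finset Equiv
open Pool.Agent.H71.KInt

variable {n : ℕ}

/-- The graph of a permutation. -/
def gr (σ : Perm (Fin n)) : Finset (Fin n × Fin n) := univ.filter (fun p => σ p.1 = p.2)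

/-- The difference of the graph of `σ` and the set `L` of cells. -/
def dl (L : Finset (Fin n × Fin n)) (σ : Perm (Fin n)) : Finset (Fin n × Fin n) :=
  symmDiff (gr σ) L

/-- `L` is a matching: no two cells in a row or in a column. -/
def IsMatch (L : Finset (Fin n × Fin n)) : Prop :=
  ∀ p ∈ L, ∀ q ∈ L, (p.1 = q.1 ∨ p.2 = q.2) → p = q

theorem mem_gr {σ : Perm (Fin n)} {p : Fin n × Fin n} : p ∈ gr σ ↔ σ p.1 = p.2 := by
  simp [gr]

theorem gr_eq_image (σ : Perm (Fin n)) : gr σ = univ.image (fun x => (x, σ x)) := by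
  ext ⟨a, b⟩
  simp only [mem_gr, mem_image, mem_univ, true_and, Prod.mk.injEq]
  constructor
  · intro h; exact ⟨a, rfl, h⟩
  · rintro ⟨x, rfl, h⟩; exact h

theorem card_gr (σ : Perm (Fin n)) : (gr σ).card = n := by
  rw [gr_eq_image, card_image_of_injective, card_univ, Fintype.card_fin]
  intro a b h
  exact congrArg Prod.fst h

theorem gr_isMatch (σ : Perm (Fin n)) : IsMatch (gr σ) := by
  rintro ⟨a, b⟩ hp ⟨c, d⟩ hq h
  rw [mem_gr] at hp hq
  simp only at hp hq h
  subst hp hq
  rcases h with h | h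
  · rw [h]
  · rw [σ.injective h]

theorem card_symmDiff_add {α : Type*} [DecidableEq α] (s t : Finset α) :
    (symmDiff s t).card + 2 * (s ∩ t).card = s.card + t.card := by
  have h1 : symmDiff s t = (s \ t) ∪ (t \ s) := rfl
  have h2 : Disjoint (s \ t) (t \ s) := by
    rw [disjoint_left]
    intro x hx hy
    rw [mem_sdiff] at hx hy
    exact hx.2 hy.1
  rw [h1, card_union_of_disjoint h2]
  have h3 := card_sdiff_add_card_inter s t
  have h4 := card_sdiff_add_card_inter t s
  rw [inter_comm t s] at h4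
  omega

theorem card_dl (L : Finset (Fin n × Fin n)) (σ : Perm (Fin n)) :
    (dl L σ).card + 2 * (gr σ ∩ L).card = n + L.card := by
  have := card_symmDiff_add (gr σ) L
  rw [card_gr] at this
  exact this

theorem symmDiff_dl (L : Finset (Fin n × Fin n)) (σ τ : Perm (Fin n)) :
    symmDiff (dl L σ) (dl L τ) = symmDiff (gr σ) (gr τ) := by
  unfold dl
  rw [symmDiff_comm (gr τ) L, symmDiff_assoc, symmDiff_symmDiff_cancel_left]

theorem card_gr_inter (σ τ : Perm (Fin n)) : (gr σ ∩ gr τ).card + pdist σ τ = n := by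
  have h1 : gr σ ∩ gr τ = (univ.filter (fun x => σ x = τ x)).image (fun x => (x, σ x)) := by
    ext ⟨a, b⟩
    simp only [mem_inter, mem_gr, mem_image, mem_filter, mem_univ, true_and, Prod.mk.injEq]
    constructor
    · rintro ⟨h, h'⟩; exact ⟨a, h.trans h'.symm, rfl, h⟩
    · rintro ⟨x, h, rfl, rfl⟩; exact ⟨rfl, h.symm⟩
  rw [h1, card_image_of_injective, agree_add_pdist]
  intro a b h
  exact congrArg Prod.fst h

theorem card_symmDiff_dl (L : Finset (Fin n × Fin n)) (σ τ : Perm (Fin n)) :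
    (symmDiff (dl L σ) (dl L τ)).card = 2 * pdist σ τ := by
  rw [symmDiff_dl]
  have h1 := card_symmDiff_add (gr σ) (gr τ)
  rw [card_gr, card_gr] at h1
  have h2 := card_gr_inter σ τ
  omega

/-- The basic inequality. -/
theorem dl_add_dl {m : ℕ} (L : Finset (Fin n × Fin n)) {σ τ : Perm (Fin n)} (h : pdist σ τ ≤ m) :
    (dl L σ).card + (dl L τ).card ≤ 2 * m + 2 * (dl L σ ∩ dl L τ).card := by
  have h1 := card_symmDiff_add (dl L σ) (dl L τ)
  rw [card_symmDiff_dl] at h1
  omega

theorem dl_symmDiff (L F : Finset (Fin n × Fin n)) (σ : Perm (Fin n)) :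
    dl (symmDiff L F) σ = symmDiff (dl L σ) F := by
  unfold dl
  rw [symmDiff_assoc]

/-- Changing the centre by a subset of `dl L σ`. -/
theorem card_dl_symmDiff {L F : Finset (Fin n × Fin n)} {σ : Perm (Fin n)} (h : F ⊆ dl L σ) :
    (dl (symmDiff L F) σ).card + F.card = (dl L σ).card := by
  rw [dl_symmDiff]
  have h1 := card_symmDiff_add (dl L σ) F
  rw [inter_eq_right.2 h] at h1
  omega

/-- Parity. -/
theorem card_dl_mod (L : Finset (Fin n × Fin n)) (σ : Perm (Fin n)) :
    (dl L σ).card % 2 = (n + L.card) % 2 := by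
  have := card_dl L σ
  omega

end Pool.Agent.H58.KP
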