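import Pool.Agent.H58.KP.Improve

set_option autoImplicit false

/-!
# Job KP-20: a good centre (about 60 lines)

`good_centre`. Let `s` be the least natural number for which there is `L` with `|dl L τ| ≤ m + s` for all
`τ ∈ A`; `s ≤ m` because of `L = gr τ₀`, `τ₀ ∈ A` (`dl (gr τ₀) τ = symmDiff (gr τ) (gr τ₀)` has
`2 * pdist τ τ₀ ≤ 2 m` elements: `card_symmDiff_dl ∅` or `card_symmDiff_add` with `card_gr_inter`). If `s = 0` done.
Otherwise `improve` gives `L'`; by the minimality of `s` some `τ ∈ A` has `|dl L' τ| ≥ m + s`, hence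
`m + s ≤ m + 2 s / 5 + 8 θ ^ 12`, `s ≤ (40 / 3) θ ^ 12`.
-/

namespace Pool.Agent.H58.KP

open Finset Equiv
open Pool.Agent.H71.KInt

variable {n : ℕ}

theorem good_centre {m : ℕ} {θ : ℝ} (hθ : 11 ^ 6 ≤ θ) (hm : θ ^ 16 = (m : ℝ))
    (A : Finset (Perm (Fin n))) (hne : A.Nonempty) (hA : ∀ σ ∈ A, ∀ τ ∈ A, pdist σ τ ≤ m)
    (hvol : ∀ (L : Finset (Fin n × Fin n)) (a : ℕ), a ≤ m →
      m ^ a * (univ.filter (fun σ : Perm (Fin n) => (dl L σ).card + a ≤ m)).card ≤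
        6 * 11 ^ a * A.card) :
    ∃ (L : Finset (Fin n × Fin n)) (s : ℕ), s ≤ m ∧ (∀ τ ∈ A, (dl L τ).card ≤ m + s) ∧
      (s : ℝ) ≤ 14 * θ ^ 12 := by
  classical
  have hθ0 : (0 : ℝ) < θ := lt_of_lt_of_le (by norm_num) hθ
  have hPm : ∃ L : Finset (Fin n × Fin n), ∀ τ ∈ A, (dl L τ).card ≤ m + m := by
    obtain ⟨τ₀, hτ₀⟩ := hne
    refine ⟨gr τ₀, fun τ hτ => ?_⟩
    have h1 := card_symmDiff_add (gr τ) (gr τ₀)
    have h2 := card_gr_inter τ τ₀
    have h3 := hA τ hτ τ₀ hτ₀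
    rw [card_gr, card_gr] at h1
    have h4 : (dl (gr τ₀) τ).card = (symmDiff (gr τ) (gr τ₀)).card := rfl
    omega
  have hex : ∃ s, ∃ L : Finset (Fin n × Fin n), ∀ τ ∈ A, (dl L τ).card ≤ m + s := ⟨m, hPm⟩
  obtain ⟨L, hL⟩ := Nat.find_spec hex
  have hsm : Nat.find hex ≤ m := Nat.find_min' hex hPm
  refine ⟨L, Nat.find hex, hsm, hL, ?_⟩
  by_cases h0 : Nat.find hex = 0
  · rw [h0]
    simp only [Nat.cast_zero]
    positivity
  · obtain ⟨L', hL'⟩ := improve hθ hm A hne hA hvol L hsm hL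
    have h1 := Nat.find_min hex (show Nat.find hex - 1 < Nat.find hex by omega)
    push Not at h1
    obtain ⟨τ, hτ, h2⟩ := h1 L'
    have h3 := hL' τ hτ
    have h4 : m + Nat.find hex ≤ (dl L' τ).card := by omega
    have h5 : ((m + Nat.find hex : ℕ) : ℝ) ≤ ((dl L' τ).card : ℝ) := by exact_mod_cast h4
    push_cast at h5
    have h6 : 0 < θ ^ 12 := by positivity
    linarith

end Pool.Agent.H58.KP
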