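import Mathlib

set_option autoImplicit false

/-!
# Job KP-10: three numerical lemmas (about 80 lines)

Everywhere `11 ^ 6 ≤ θ`, so `6 ^ 6 = 46656 ≤ θ` and `12 ^ 6 ≤ (11 ^ 6) ^ 2 ≤ θ ^ 2`.

`num_centre1`: raise the hypothesis to the 6th power:
`θ ^ (96 (f - s)) ≤ 6 ^ 6 * (11 ^ 6) ^ (f - s) * θ ^ (24 f) ≤ θ ^ (1 + (f - s) + 24 f)`. As `θ > 1`
(`pow_le_pow_iff_right₀`), `96 (f - s) ≤ 1 + (f - s) + 24 f`, which is `71 f ≤ 95 s + 1`.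

`num_centre2`: it suffices to compare the 6th powers (`pow_le_pow_left₀`/`lt_of_pow_lt_pow_left₀`), and
`12 ^ 6 * (11 ^ 6) ^ (a + 1) * θ ^ (24 f) ≤ θ ^ (2 + (a + 1) + 24 f)` with `a = 2 s / 5`, so it suffices that
`2 + (a + 1) + 24 f ≤ 96 (a + 1)`, i.e. `24 f + 2 ≤ 95 (a + 1)`: by `omega` from `71 f ≤ 95 s + 1` and
`5 (a + 1) ≥ 2 s + 1`: `24 f ≤ 24 (95 s + 1) / 71 ≤ 33 s + 1` and `95 (a + 1) ≥ 38 s + 19`.

`num_kernel`: 6th powers: `θ ^ (96 v) ≤ 6 ^ 6 * (11 ^ 6) ^ v * θ ^ 480 * θ ^ (84 (v + s)) ≤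
θ ^ (1 + v + 480 + 84 (v + s))`, so `96 v ≤ 481 + 85 v + 84 s`.
-/

namespace Pool.Agent.H58.KP

private theorem one_lt_of {θ : ℝ} (hθ : 11 ^ 6 ≤ θ) : 1 < θ := lt_of_lt_of_le (by norm_num) hθ

private theorem six_le {θ : ℝ} (hθ : 11 ^ 6 ≤ θ) : (6 : ℝ) ^ 6 ≤ θ :=
  le_trans (by norm_num) hθ

private theorem eleven_pow {θ : ℝ} (hθ : 11 ^ 6 ≤ θ) (m : ℕ) : ((11 : ℝ) ^ m) ^ 6 ≤ θ ^ m := by
  rw [← pow_mul, mul_comm, pow_mul]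
  exact pow_le_pow_left₀ (by norm_num) hθ m

theorem num_centre1 {θ : ℝ} (hθ : 11 ^ 6 ≤ θ) {f s : ℕ} (hfs : s ≤ f)
    (h : θ ^ (16 * (f - s)) ≤ 6 * 11 ^ (f - s) * θ ^ (4 * f)) : 71 * f ≤ 95 * s + 1 := by
  have h1 := one_lt_of hθ
  have h0 : 0 < θ := by linarith
  have h2 : (θ ^ (16 * (f - s))) ^ 6 ≤ (6 * 11 ^ (f - s) * θ ^ (4 * f)) ^ 6 :=
    pow_le_pow_left₀ (by positivity) h 6
  have h3 : (6 * 11 ^ (f - s) * θ ^ (4 * f)) ^ 6 ≤ θ ^ (1 + (f - s) + 24 * f) := by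
    rw [mul_pow, mul_pow, pow_add, pow_add, pow_one]
    have e : (θ ^ (4 * f)) ^ 6 = θ ^ (24 * f) := by rw [← pow_mul]; congr 1; ring
    rw [e]
    exact mul_le_mul_of_nonneg_right (mul_le_mul (six_le hθ) (eleven_pow hθ _)
      (by positivity) h0.le) (by positivity)
  have h4 : (θ ^ (16 * (f - s))) ^ 6 = θ ^ (96 * (f - s)) := by
    rw [← pow_mul]; congr 1; ring
  rw [h4] at h2
  have h5 := (pow_le_pow_iff_right₀ h1).mp (le_trans h2 h3)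
  omega

theorem num_centre2 {θ : ℝ} (hθ : 11 ^ 6 ≤ θ) {f s : ℕ} (h : 71 * f ≤ 95 * s + 1) :
    12 * 11 ^ (2 * s / 5 + 1) * θ ^ (4 * f) ≤ θ ^ (16 * (2 * s / 5 + 1)) := by
  have h1 := one_lt_of hθ
  have h0 : 0 < θ := by linarith
  have ha : 2 + (2 * s / 5 + 1) + 24 * f ≤ 96 * (2 * s / 5 + 1) := by omega
  generalize 2 * s / 5 + 1 = a at ha ⊢
  refine le_of_pow_le_pow_left₀ (n := 6) (by norm_num) (by positivity) ?_
  have h4 : (θ ^ (16 * a)) ^ 6 = θ ^ (96 * a) := by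
    rw [← pow_mul]; congr 1; ring
  rw [h4]
  refine le_trans ?_ ((pow_le_pow_iff_right₀ h1).mpr ha)
  rw [mul_pow, mul_pow, pow_add, pow_add]
  have e : (θ ^ (4 * f)) ^ 6 = θ ^ (24 * f) := by rw [← pow_mul]; congr 1; ring
  rw [e]
  have h12 : (12 : ℝ) ^ 6 ≤ θ ^ 2 := by
    have : ((11 : ℝ) ^ 6) ^ 2 ≤ θ ^ 2 := pow_le_pow_left₀ (by norm_num) hθ 2
    refine le_trans ?_ this
    norm_num
  exact mul_le_mul_of_nonneg_right (mul_le_mul h12 (eleven_pow hθ _)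
      (by positivity) (by positivity)) (by positivity)

theorem num_kernel {θ : ℝ} (hθ : 11 ^ 6 ≤ θ) {v s : ℕ}
    (h : θ ^ (16 * v) ≤ 6 * 11 ^ v * θ ^ 80 * θ ^ (14 * (v + s))) : 11 * v ≤ 84 * s + 481 := by
  have h1 := one_lt_of hθ
  have h0 : 0 < θ := by linarith
  have h2 : (θ ^ (16 * v)) ^ 6 ≤ (6 * 11 ^ v * θ ^ 80 * θ ^ (14 * (v + s))) ^ 6 :=
    pow_le_pow_left₀ (by positivity) h 6
  have h3 : (6 * 11 ^ v * θ ^ 80 * θ ^ (14 * (v + s))) ^ 6 ≤ θ ^ (1 + v + 480 + 84 * (v + s)) := by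
    rw [mul_pow, mul_pow, mul_pow, pow_add, pow_add, pow_add, pow_one]
    have e : (θ ^ (14 * (v + s))) ^ 6 = θ ^ (84 * (v + s)) := by rw [← pow_mul]; congr 1; ring
    have e2 : (θ ^ 80) ^ 6 = θ ^ 480 := by rw [← pow_mul]
    rw [e, e2]
    exact mul_le_mul_of_nonneg_right (mul_le_mul_of_nonneg_right (mul_le_mul (six_le hθ)
      (eleven_pow hθ _) (by positivity) h0.le) (by positivity)) (by positivity)
  have h4 : (θ ^ (16 * v)) ^ 6 = θ ^ (96 * v) := by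
    rw [← pow_mul]; congr 1; ring
  rw [h4] at h2
  have h5 := (pow_le_pow_iff_right₀ h1).mp (le_trans h2 h3)
  omega

end Pool.Agent.H58.KP
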