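import Pool.Agent.H58.KP.TwoRound

set_option autoImplicit false

/-!
# Job KP-19: two spread families have disjoint members (about 50 lines)

`disjoint_members`: apply `two_round` to both families. The number of the `S ⊆ X` that contain no `G j` is at most
`2 ^ N / 4`, the number of the `S ⊆ X` such that `X \ S` contains no `G' j'` is at most `2 ^ N / 4` (bijection
`S ↦ X \ S`), so there is an `S ⊆ X` of neither kind: `G j ⊆ S`, `G' j' ⊆ X \ S`.
-/

namespace Pool.Agent.H58.KP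

open Finset

theorem disjoint_members {ι α : Type*} [DecidableEq ι] [DecidableEq α] (J J' : Finset ι)
    (G G' : ι → Finset α) (X : Finset α) (hG : ∀ j ∈ J, G j ⊆ X) (hG' : ∀ j ∈ J', G' j ⊆ X)
    (M M1 : ℕ) (hM : ∀ j ∈ J, (G j).card ≤ M) (hM' : ∀ j ∈ J', (G' j).card ≤ M)
    (Λ Λ' κ : ℝ) (hκ : 0 < κ)
    (hspread : ∀ Z : Finset α, κ ^ Z.card * ((J.filter (fun j => Z ⊆ G j)).card : ℝ) ≤ Λ)
    (hspread' : ∀ Z : Finset α, κ ^ Z.card * ((J'.filter (fun j => Z ⊆ G' j)).card : ℝ) ≤ Λ')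
    (hJ : J.Nonempty) (hΛ : Λ ≤ 2 * (J.card : ℝ)) (hJ' : J'.Nonempty)
    (hΛ' : Λ' ≤ 2 * (J'.card : ℝ))
    (h1 : ∑ t ∈ Icc (M1 + 1) M, (M.choose t : ℝ) * (3 / κ) ^ t ≤ 1 / 16)
    (h2 : ∑ t ∈ Icc 1 M1, (M1.choose t : ℝ) * (2 / κ) ^ t ≤ 1 / 16) :
    ∃ j ∈ J, ∃ j' ∈ J', Disjoint (G j) (G' j') := by
  classical
  have hA := two_round J G X hG M M1 hM Λ κ hκ hspread hJ hΛ h1 h2
  have hB := two_round J' G' X hG' M M1 hM' Λ' κ hκ hspread' hJ' hΛ' h1 h2
  set A := X.powerset.filter (fun S => ∀ j ∈ J, ¬ G j ⊆ S) with hAdef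
  set B := X.powerset.filter (fun S => ∀ j ∈ J', ¬ G' j ⊆ S) with hBdef
  -- the complements of the members of `B`
  let B' := B.image (fun S => X \ S)
  have hB' : B'.card ≤ B.card := card_image_le
  have hcard : (A ∪ B').card < X.powerset.card := by
    have h3 : (A ∪ B').card ≤ A.card + B'.card := card_union_le _ _
    have h4 : X.powerset.card = 2 ^ X.card := card_powerset X
    have h5 : 0 < 2 ^ X.card := by positivity
    omega
  obtain ⟨S, hS, hS'⟩ := exists_mem_notMem_of_card_lt_card hcard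
  rw [mem_powerset] at hS
  rw [mem_union, not_or] at hS'
  obtain ⟨hSA, hSB⟩ := hS'
  have e1 : ∃ j ∈ J, G j ⊆ S := by
    by_contra hcon
    push Not at hcon
    exact hSA (mem_filter.2 ⟨mem_powerset.2 hS, hcon⟩)
  have e2 : ∃ j ∈ J', G' j ⊆ X \ S := by
    by_contra hcon
    push Not at hcon
    refine hSB (mem_image.2 ⟨X \ S, mem_filter.2 ⟨mem_powerset.2 sdiff_subset, hcon⟩, ?_⟩)
    exact Finset.sdiff_sdiff_eq_self hS
  obtain ⟨j, hj, hjS⟩ := e1
  obtain ⟨j', hj', hjS'⟩ := e2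
  exact ⟨j, hj, j', hj', disjoint_of_subset_left hjS
    (disjoint_of_subset_right hjS' disjoint_sdiff)⟩

end Pool.Agent.H58.KP
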