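import Mathlib

set_option autoImplicit false

/-!
# Job KP-9: the numerical conditions of the two rounds (about 90 lines)

`θ ≥ 11 ^ 6`, `m = θ ^ 16`, `M = 2 m`, `κ = θ ^ 14`, `M1 = ⌊36 θ ^ 2⌋₊`.

`sum_round1`: for `t ≥ M1 + 1` we have `t > 36 θ ^ 2` and
`M.choose t ≤ M ^ t / t! ` (`Nat.choose_le_pow_div`), `t! ≥ (t / 3) ^ t` (e.g. from
`exp t ≥ t ^ t / t!` (`Real.pow_div_factorial_le_exp`) and `exp 1 ≤ 3`), so
`M.choose t * (3 / κ) ^ t ≤ (3 M / t) ^ t * (3 / κ) ^ t = (18 θ ^ 2 / t) ^ t ≤ (1 / 2) ^ t`, and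
`∑ t ∈ Icc (M1 + 1) M, (1 / 2) ^ t ≤ 2 * (1 / 2) ^ (M1 + 1) ≤ 1 / 16` since `M1 ≥ 4`.

`sum_round2`: `M1.choose t ≤ M1 ^ t` (`Nat.choose_le_pow`), so the term is at most `(2 M1 / κ) ^ t ≤ x ^ t` with
`x = 72 θ ^ 2 / θ ^ 14 = 72 / θ ^ 12 ≤ 1 / 32`, and `∑ t ∈ Icc 1 M1, x ^ t ≤ x / (1 - x) ≤ 2 x ≤ 1 / 16`.
-/

namespace Pool.Agent.H58.KP

open Finset

theorem roundNum_geom {x : ℝ} (h0 : 0 ≤ x) (h1 : x ≤ 1 / 2) (a b : ℕ) :
    ∑ t ∈ Icc a b, x ^ t ≤ 2 * x ^ a := by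
  have h2 : ∑ t ∈ Icc a b, x ^ t ≤ ∑ t ∈ Ico a (b + 1), x ^ t := by
    apply Finset.sum_le_sum_of_subset_of_nonneg
    · intro t ht
      rw [mem_Icc] at ht
      rw [mem_Ico]
      omega
    · intro t _ _
      positivity
  have h3 := geom_sum_Ico_le_of_lt_one (m := a) (n := b + 1) h0 (by linarith : x < 1)
  have h4 : x ^ a / (1 - x) ≤ 2 * x ^ a := by
    rw [div_le_iff₀ (by linarith)]
    have : 0 ≤ x ^ a := by positivity
    nlinarith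
  linarith

theorem sum_round1 (θ : ℝ) (hθ : 11 ^ 6 ≤ θ) (m : ℕ) (hm : θ ^ 16 = (m : ℝ)) :
    ∑ t ∈ Icc (⌊36 * θ ^ 2⌋₊ + 1) (2 * m), ((2 * m).choose t : ℝ) * (3 / θ ^ 14) ^ t ≤ 1 / 16 := by
  have hθ1 : 1 ≤ θ := by
    have : (1 : ℝ) ≤ 11 ^ 6 := by norm_num
    linarith
  have hθ0 : 0 < θ := by linarith
  have hterm : ∀ t ∈ Icc (⌊36 * θ ^ 2⌋₊ + 1) (2 * m),
      ((2 * m).choose t : ℝ) * (3 / θ ^ 14) ^ t ≤ (1 / 2) ^ t := by
    intro t ht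
    rw [mem_Icc] at ht
    have ht1 : 36 * θ ^ 2 < t := by
      have h1 : 36 * θ ^ 2 < (⌊36 * θ ^ 2⌋₊ : ℝ) + 1 := Nat.lt_floor_add_one _
      have h2 : ((⌊36 * θ ^ 2⌋₊ : ℝ) + 1) ≤ t := by exact_mod_cast ht.1
      linarith
    have ht0 : (0 : ℝ) < t := by
      have : 0 < 36 * θ ^ 2 := by positivity
      linarith
    have hc : ((2 * m).choose t : ℝ) ≤ ((2 * m : ℕ) : ℝ) ^ t / (t.factorial : ℝ) :=
      Nat.choose_le_pow_div t (2 * m)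
    have hf : (t : ℝ) ^ t / (t.factorial : ℝ) ≤ 3 ^ t := by
      have h1 := Real.pow_div_factorial_le_exp (t : ℝ) ht0.le t
      have h2 : Real.exp (t : ℝ) ≤ 3 ^ t := by
        have h3 : Real.exp (t : ℝ) = (Real.exp 1) ^ t := by
          rw [← Real.exp_nat_mul, mul_one]
        rw [h3]
        exact pow_le_pow_left₀ (Real.exp_pos 1).le (by linarith [Real.exp_one_lt_d9]) t
      exact h1.trans h2
    have hfpos : (0 : ℝ) < (t.factorial : ℝ) := by exact_mod_cast Nat.factorial_pos t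
    have htt : (0 : ℝ) < (t : ℝ) ^ t := by positivity
    have hf2 : 1 / (t.factorial : ℝ) ≤ 3 ^ t / (t : ℝ) ^ t := by
      rw [le_div_iff₀ htt]
      calc 1 / (t.factorial : ℝ) * (t : ℝ) ^ t = (t : ℝ) ^ t / (t.factorial : ℝ) := by ring
        _ ≤ 3 ^ t := hf
    have hM : ((2 * m : ℕ) : ℝ) = 2 * θ ^ 16 := by
      push_cast
      rw [hm]
    calc ((2 * m).choose t : ℝ) * (3 / θ ^ 14) ^ t
        ≤ (((2 * m : ℕ) : ℝ) ^ t / (t.factorial : ℝ)) * (3 / θ ^ 14) ^ t := by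
          apply mul_le_mul_of_nonneg_right hc
          positivity
      _ = (2 * θ ^ 16) ^ t * (1 / (t.factorial : ℝ)) * (3 / θ ^ 14) ^ t := by
          rw [hM]
          ring
      _ ≤ (2 * θ ^ 16) ^ t * (3 ^ t / (t : ℝ) ^ t) * (3 / θ ^ 14) ^ t := by
          apply mul_le_mul_of_nonneg_right _ (by positivity)
          apply mul_le_mul_of_nonneg_left hf2 (by positivity)
      _ = (18 * θ ^ 2 / t) ^ t := by
          rw [← div_pow, ← mul_pow, ← mul_pow]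
          congr 1
          field_simp
          ring
      _ ≤ (1 / 2) ^ t := by
          apply pow_le_pow_left₀ (by positivity)
          rw [div_le_iff₀ ht0]
          linarith
  have h4 : 5 ≤ ⌊36 * θ ^ 2⌋₊ + 1 := by
    have : 4 ≤ ⌊36 * θ ^ 2⌋₊ := by
      apply Nat.le_floor
      push_cast
      nlinarith
    omega
  calc _ ≤ ∑ t ∈ Icc (⌊36 * θ ^ 2⌋₊ + 1) (2 * m), ((1 : ℝ) / 2) ^ t := Finset.sum_le_sum hterm
    _ ≤ 2 * (1 / 2) ^ (⌊36 * θ ^ 2⌋₊ + 1) := roundNum_geom (by norm_num) (by norm_num) _ _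
    _ ≤ 2 * (1 / 2) ^ 5 := by
        apply mul_le_mul_of_nonneg_left _ (by norm_num)
        exact pow_le_pow_of_le_one (by norm_num) (by norm_num) h4
    _ = 1 / 16 := by norm_num

theorem sum_round2 (θ : ℝ) (hθ : 11 ^ 6 ≤ θ) :
    ∑ t ∈ Icc 1 ⌊36 * θ ^ 2⌋₊, ((⌊36 * θ ^ 2⌋₊.choose t : ℕ) : ℝ) * (2 / θ ^ 14) ^ t ≤ 1 / 16 := by
  have hθ1 : 1 ≤ θ := by
    have : (1 : ℝ) ≤ 11 ^ 6 := by norm_num
    linarith
  have hθ0 : 0 < θ := by linarith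
  have hM : ((⌊36 * θ ^ 2⌋₊ : ℕ) : ℝ) ≤ 36 * θ ^ 2 := Nat.floor_le (by positivity)
  have hx : 72 / θ ^ 12 ≤ 1 / 32 := by
    have h12 : (2304 : ℝ) ≤ θ ^ 12 := by
      calc (2304 : ℝ) ≤ (11 ^ 6) ^ 1 := by norm_num
        _ ≤ θ ^ 1 := by simpa using hθ
        _ ≤ θ ^ 12 := pow_le_pow_right₀ hθ1 (by norm_num)
    rw [div_le_div_iff₀ (by positivity) (by norm_num)]
    linarith
  have hterm : ∀ t ∈ Icc 1 ⌊36 * θ ^ 2⌋₊,
      ((⌊36 * θ ^ 2⌋₊.choose t : ℕ) : ℝ) * (2 / θ ^ 14) ^ t ≤ (72 / θ ^ 12) ^ t := by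
    intro t _
    have hc : ((⌊36 * θ ^ 2⌋₊.choose t : ℕ) : ℝ) ≤ ((⌊36 * θ ^ 2⌋₊ : ℕ) : ℝ) ^ t := by
      exact_mod_cast Nat.choose_le_pow _ _
    calc ((⌊36 * θ ^ 2⌋₊.choose t : ℕ) : ℝ) * (2 / θ ^ 14) ^ t
        ≤ (36 * θ ^ 2) ^ t * (2 / θ ^ 14) ^ t := by
          apply mul_le_mul_of_nonneg_right _ (by positivity)
          exact hc.trans (pow_le_pow_left₀ (by positivity) hM t)
      _ = (72 / θ ^ 12) ^ t := by
          rw [← mul_pow]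
          congr 1
          field_simp
          ring
  calc _ ≤ ∑ t ∈ Icc 1 ⌊36 * θ ^ 2⌋₊, (72 / θ ^ 12) ^ t := Finset.sum_le_sum hterm
    _ ≤ 2 * (72 / θ ^ 12) ^ 1 := roundNum_geom (by positivity) (by linarith) _ _
    _ ≤ 2 * (1 / 32) := by
        rw [pow_one]
        linarith
    _ = 1 / 16 := by norm_num

end Pool.Agent.H58.KP
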