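import Pool.Agent.H58.KP.Basic
import Pool.Agent.H58.KP.DisjMem
import Pool.Agent.H58.KP.RoundNum

set_option autoImplicit false

/-!
# Job KP-13: kernels of spread families are compatible (about 120 lines)

`thin`: the `σ ∈ 𝒢` with `dl L σ` not disjoint from `F' \ F` number at most
`∑ x ∈ F' \ F, |{σ ∈ 𝒢 | {x} ⊆ dl L σ}| ≤ |F'| * |𝒢| / θ ^ 14 ≤ |𝒢| / 8` (`hsp` with `Z = {x}`), so at least
half of `𝒢` remains.

`compat`: let `J = {σ ∈ 𝒢 | Disjoint (dl L σ) (F' \ F)}`, `J' = {τ ∈ 𝒢' | Disjoint (dl L τ) (F \ F')}`,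
`G σ = dl L σ \ F`, `G' τ = dl L τ \ F'`, `X = univ`, `M = 2 m`, `κ = θ ^ 14`, `M1 = ⌊36 θ ^ 2⌋₊`,
`Λ = |𝒢| ≤ 2 |J|`, `Λ' = |𝒢'| ≤ 2 |J'|`. The spread condition: if `Z` meets `F` then no `G σ` contains `Z` and the
left side is `0 ≤ Λ`; otherwise `{σ ∈ J | Z ⊆ G σ} ⊆ {σ ∈ 𝒢 | Z ⊆ dl L σ}` and `hsp` applies. By
`disjoint_members` (with `sum_round1`, `sum_round2`) there are `σ ∈ J`, `τ ∈ J'` with
`dl L σ \ F` and `dl L τ \ F'` disjoint. A cell of `dl L σ ∩ dl L τ` which is not in `F ∩ F'` would be in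
`(dl L σ \ F) ∩ (dl L τ \ F')`, or in `F' \ F` (and in `dl L σ`), or in `F \ F'` (and in `dl L τ`): impossible. So
`dl L σ ∩ dl L τ ⊆ F ∩ F'` and `dl_add_dl` gives `u + u' ≤ 2 m + 2 |F ∩ F'|`.
-/

namespace Pool.Agent.H58.KP

open Finset Equiv
open Pool.Agent.H71.KInt

variable {n : ℕ}

theorem thin {θ : ℝ} (hθ : 11 ^ 6 ≤ θ) (L F F' : Finset (Fin n × Fin n))
    (𝒢 : Finset (Perm (Fin n)))
    (hsp : ∀ Z : Finset (Fin n × Fin n), Disjoint Z F →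
      (θ ^ 14) ^ Z.card * ((𝒢.filter (fun σ => Z ⊆ dl L σ)).card : ℝ) ≤ (𝒢.card : ℝ))
    (hf' : 8 * (F'.card : ℝ) ≤ θ ^ 14) :
    (𝒢.card : ℝ) ≤ 2 * ((𝒢.filter (fun σ => Disjoint (dl L σ) (F' \ F))).card : ℝ) := by
  have h0 : 0 < θ := lt_of_lt_of_le (by norm_num) hθ
  have h14 : 0 < θ ^ 14 := by positivity
  set B := 𝒢.filter (fun σ => ¬ Disjoint (dl L σ) (F' \ F)) with hB
  have hsplit : ((𝒢.filter (fun σ => Disjoint (dl L σ) (F' \ F))).card : ℝ) + (B.card : ℝ) =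
      (𝒢.card : ℝ) := by
    have := Finset.card_filter_add_card_filter_not (s := 𝒢)
      (fun σ => Disjoint (dl L σ) (F' \ F))
    exact_mod_cast this
  have hsub : B ⊆ (F' \ F).biUnion (fun x => 𝒢.filter (fun σ => {x} ⊆ dl L σ)) := by
    intro σ hσ
    rw [hB, mem_filter] at hσ
    obtain ⟨x, hx1, hx2⟩ := Finset.not_disjoint_iff.mp hσ.2
    rw [mem_biUnion]
    exact ⟨x, hx2, mem_filter.mpr ⟨hσ.1, Finset.singleton_subset_iff.mpr hx1⟩⟩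
  have hcard : (B.card : ℝ) ≤ ∑ x ∈ F' \ F, ((𝒢.filter (fun σ => {x} ⊆ dl L σ)).card : ℝ) := by
    have := le_trans (card_le_card hsub) card_biUnion_le
    exact_mod_cast this
  have hterm : ∀ x ∈ F' \ F, θ ^ 14 * ((𝒢.filter (fun σ => {x} ⊆ dl L σ)).card : ℝ) ≤
      (𝒢.card : ℝ) := by
    intro x hx
    have := hsp {x} (Finset.disjoint_singleton_left.mpr (mem_sdiff.mp hx).2)
    rw [card_singleton, pow_one] at this
    exact this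
  have h1 : θ ^ 14 * (B.card : ℝ) ≤ (F'.card : ℝ) * (𝒢.card : ℝ) := by
    calc θ ^ 14 * (B.card : ℝ) ≤ θ ^ 14 *
          ∑ x ∈ F' \ F, ((𝒢.filter (fun σ => {x} ⊆ dl L σ)).card : ℝ) :=
          mul_le_mul_of_nonneg_left hcard h14.le
      _ = ∑ x ∈ F' \ F, θ ^ 14 * ((𝒢.filter (fun σ => {x} ⊆ dl L σ)).card : ℝ) := by
          rw [mul_sum]
      _ ≤ ∑ x ∈ F' \ F, (𝒢.card : ℝ) := sum_le_sum hterm
      _ = ((F' \ F).card : ℝ) * (𝒢.card : ℝ) := by rw [sum_const, nsmul_eq_mul]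
      _ ≤ (F'.card : ℝ) * (𝒢.card : ℝ) := by
          apply mul_le_mul_of_nonneg_right _ (Nat.cast_nonneg _)
          exact_mod_cast card_le_card sdiff_subset
  have h2 : θ ^ 14 * (8 * (B.card : ℝ)) ≤ θ ^ 14 * (𝒢.card : ℝ) := by
    calc θ ^ 14 * (8 * (B.card : ℝ)) = 8 * (θ ^ 14 * (B.card : ℝ)) := by ring
      _ ≤ 8 * ((F'.card : ℝ) * (𝒢.card : ℝ)) := by linarith
      _ = (8 * (F'.card : ℝ)) * (𝒢.card : ℝ) := by ring
      _ ≤ _ := mul_le_mul_of_nonneg_right hf' (Nat.cast_nonneg _)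
  have h3 : 8 * (B.card : ℝ) ≤ (𝒢.card : ℝ) := le_of_mul_le_mul_left h2 h14
  have h4 : (0 : ℝ) ≤ (𝒢.card : ℝ) := Nat.cast_nonneg _
  linarith

theorem spread_sdiff {θ : ℝ} (L F : Finset (Fin n × Fin n))
    (𝒢 J : Finset (Perm (Fin n))) (hJ : J ⊆ 𝒢)
    (hsp : ∀ Z : Finset (Fin n × Fin n), Disjoint Z F →
      (θ ^ 14) ^ Z.card * ((𝒢.filter (fun σ => Z ⊆ dl L σ)).card : ℝ) ≤ (𝒢.card : ℝ))
    (hθ0 : 0 < θ) (Z : Finset (Fin n × Fin n)) :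
    (θ ^ 14) ^ Z.card * ((J.filter (fun σ => Z ⊆ dl L σ \ F)).card : ℝ) ≤ (𝒢.card : ℝ) := by
  by_cases hZ : Disjoint Z F
  · refine le_trans ?_ (hsp Z hZ)
    apply mul_le_mul_of_nonneg_left _ (by positivity)
    have : (J.filter (fun σ => Z ⊆ dl L σ \ F)) ⊆ (𝒢.filter (fun σ => Z ⊆ dl L σ)) := by
      intro σ hσ
      rw [mem_filter] at hσ ⊢
      exact ⟨hJ hσ.1, hσ.2.trans sdiff_subset⟩
    exact_mod_cast card_le_card this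
  · have : (J.filter (fun σ => Z ⊆ dl L σ \ F)) = ∅ := by
      rw [filter_eq_empty_iff]
      intro σ _ hc
      obtain ⟨x, hx1, hx2⟩ := Finset.not_disjoint_iff.mp hZ
      exact (mem_sdiff.mp (hc hx1)).2 hx2
    rw [this, card_empty, Nat.cast_zero, mul_zero]
    exact Nat.cast_nonneg _

theorem compat {m u u' : ℕ} {θ : ℝ} (hθ : 11 ^ 6 ≤ θ) (hm : θ ^ 16 = (m : ℝ))
    (L F F' : Finset (Fin n × Fin n)) (𝒢 𝒢' : Finset (Perm (Fin n)))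
    (hu : ∀ σ ∈ 𝒢, (dl L σ).card = u) (hu' : ∀ σ ∈ 𝒢', (dl L σ).card = u')
    (hum : u ≤ 2 * m) (hum' : u' ≤ 2 * m)
    (hd : ∀ σ ∈ 𝒢, ∀ τ ∈ 𝒢', pdist σ τ ≤ m)
    (hne : 𝒢.Nonempty) (hne' : 𝒢'.Nonempty)
    (hsp : ∀ Z : Finset (Fin n × Fin n), Disjoint Z F →
      (θ ^ 14) ^ Z.card * ((𝒢.filter (fun σ => Z ⊆ dl L σ)).card : ℝ) ≤ (𝒢.card : ℝ))
    (hsp' : ∀ Z : Finset (Fin n × Fin n), Disjoint Z F' →
      (θ ^ 14) ^ Z.card * ((𝒢'.filter (fun σ => Z ⊆ dl L σ)).card : ℝ) ≤ (𝒢'.card : ℝ))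
    (hf : 8 * (F.card : ℝ) ≤ θ ^ 14) (hf' : 8 * (F'.card : ℝ) ≤ θ ^ 14) :
    u + u' ≤ 2 * m + 2 * (F ∩ F').card := by
  have h0 : 0 < θ := lt_of_lt_of_le (by norm_num) hθ
  set J := 𝒢.filter (fun σ => Disjoint (dl L σ) (F' \ F)) with hJ
  set J' := 𝒢'.filter (fun σ => Disjoint (dl L σ) (F \ F')) with hJ'
  have hΛ : (𝒢.card : ℝ) ≤ 2 * (J.card : ℝ) := thin hθ L F F' 𝒢 hsp hf'
  have hΛ' : (𝒢'.card : ℝ) ≤ 2 * (J'.card : ℝ) := thin hθ L F' F 𝒢' hsp' hf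
  have hJne : J.Nonempty := by
    rw [← card_pos]
    have : (0 : ℝ) < (𝒢.card : ℝ) := by exact_mod_cast card_pos.mpr hne
    have : (0 : ℝ) < (J.card : ℝ) := by linarith
    exact_mod_cast this
  have hJne' : J'.Nonempty := by
    rw [← card_pos]
    have : (0 : ℝ) < (𝒢'.card : ℝ) := by exact_mod_cast card_pos.mpr hne'
    have : (0 : ℝ) < (J'.card : ℝ) := by linarith
    exact_mod_cast this
  obtain ⟨σ, hσ, τ, hτ, hdis⟩ := disjoint_members J J' (fun σ => dl L σ \ F)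
    (fun τ => dl L τ \ F') univ (fun _ _ => subset_univ _) (fun _ _ => subset_univ _)
    (2 * m) ⌊36 * θ ^ 2⌋₊
    (fun σ hσ => le_trans (card_le_card sdiff_subset)
      (by rw [hu σ (mem_filter.mp hσ).1]; exact hum))
    (fun σ hσ => le_trans (card_le_card sdiff_subset)
      (by rw [hu' σ (mem_filter.mp hσ).1]; exact hum'))
    (𝒢.card : ℝ) (𝒢'.card : ℝ) (θ ^ 14) (by positivity)
    (spread_sdiff L F 𝒢 J (filter_subset _ _) hsp h0)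
    (spread_sdiff L F' 𝒢' J' (filter_subset _ _) hsp' h0)
    hJne hΛ hJne' hΛ' (sum_round1 θ hθ m hm) (sum_round2 θ hθ)
  rw [hJ, mem_filter] at hσ
  rw [hJ', mem_filter] at hτ
  have hsub : dl L σ ∩ dl L τ ⊆ F ∩ F' := by
    intro x hx
    obtain ⟨hx1, hx2⟩ := mem_inter.mp hx
    by_cases hxF : x ∈ F
    · by_cases hxF' : x ∈ F'
      · exact mem_inter.mpr ⟨hxF, hxF'⟩
      · exact absurd (mem_sdiff.mpr ⟨hxF, hxF'⟩) (Finset.disjoint_left.mp hτ.2 hx2)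
    · by_cases hxF' : x ∈ F'
      · exact absurd (mem_sdiff.mpr ⟨hxF', hxF⟩) (Finset.disjoint_left.mp hσ.2 hx1)
      · exact absurd (mem_sdiff.mpr ⟨hx2, hxF'⟩)
          (Finset.disjoint_left.mp hdis (mem_sdiff.mpr ⟨hx1, hxF⟩))
  have h1 := dl_add_dl L (hd σ hσ.1 τ hτ.1)
  rw [hu σ hσ.1, hu' τ hτ.1] at h1
  have h2 := card_le_card hsub
  omega

end Pool.Agent.H58.KP
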