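import Pool.Agent.H58.KP.Basic
import Pool.Agent.H58.KP.Avoid

set_option autoImplicit false

/-!
# Job KP-17: a permutation outside `M_i` is far from many elements of `M_i` (about 120 lines)

Let `X` be the set of the first `k + 2 i` points and `Fix = {j ∈ X | τ j = j}`; `τ ∉ Mfam n k i` means
`|Fix| ≤ k + i - 1`. Choose `H` with `Fix ⊆ H ⊆ X`, `|H| = k + i - 1` (`Finset.exists_subsuperset_card_eq`). For
`I ∈ H.powersetCard i` let `R = I ∪ Xᶜ`, `|R| = i + (n - (k + 2 i)) = m - i ≥ 4`, and let `B` be the set of the cells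
`(x, τ x)`, `x : Fin n`, together with the cells `(x, x)`, `x : Fin n`, `x ∈ I`. Every row and every column has at most
two cells in `B`. By `count_avoid` with `π = 1` and `y = m - i - 4` at least `(m - i - 2)! / 2` permutations `σ`
satisfy `σ x = x` for `x ∉ R` and `(x, σ x) ∉ B` for `x ∈ R`. For such a `σ`:
* `σ` fixes the `k + i` points of `X \ I`, so `σ ∈ Mfam n k i`;
* `σ x ≠ x` for `x ∈ I`, so `I = {x ∈ X | σ x ≠ x}`: for different `I` the sets of the `σ` are disjoint;
* `σ x ≠ τ x` for `x ∈ R`, and for `x ∉ R`, i.e. `x ∈ X \ I`, `σ x = τ x` means `τ x = x`, `x ∈ Fix \ I ⊆ H \ I`,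
  at most `k + i - 1 - i = k - 1` points. So `σ` and `τ` agree in at most `k - 1` points and
  `m < pdist σ τ` (`Pool.Agent.H71.KInt.agree_add_pdist`).
Sum over the `(k + i - 1).choose i` sets `I` (`card_biUnion`).
-/

namespace Pool.Agent.H58.KP

open Finset Equiv
open Pool.Agent.H71.KInt
open scoped Nat

theorem conflict {n k m i : ℕ} (hk : 1 ≤ k) (hn : n = k + m) (hm : 8 ≤ m) (hi : k + 2 * i ≤ n)
    (τ : Perm (Fin n)) (hτ : τ ∉ Mfam n k i) :
    (k + i - 1).choose i * (m - i - 2)! ≤
      2 * ((Mfam n k i).filter (fun σ => m < pdist σ τ)).card := by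
  classical
  set X : Finset (Fin n) := univ.filter (fun j : Fin n => j.val < k + 2 * i) with hXdef
  have hX : X.card = k + 2 * i := by
    rw [hXdef, Fin.card_filter_val_lt]
    omega
  have memX : ∀ x : Fin n, x ∈ X ↔ x.val < k + 2 * i := fun x => by simp [hXdef]
  set Fx : Finset (Fin n) := univ.filter (fun j : Fin n => j.val < k + 2 * i ∧ τ j = j) with hFx
  have hFxc : Fx.card ≤ k + i - 1 := by
    by_contra hcon
    apply hτ
    rw [Mfam, mem_filter]
    have h0 : k + i ≤ Fx.card := by omega
    refine ⟨mem_univ _, ?_⟩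
    rw [hFx] at h0
    convert h0
  have hFX : Fx ⊆ X := by
    intro x hx
    rw [hFx, mem_filter] at hx
    rw [memX]
    exact hx.2.1
  obtain ⟨H, hFH, hHX, hHc⟩ := exists_subsuperset_card_eq hFX hFxc (by omega)
  let R : Finset (Fin n) → Finset (Fin n) := fun I => univ.filter (fun x => x ∈ I ∨ x ∉ X)
  let B : Finset (Fin n) → Finset (Fin n × Fin n) := fun I =>
    univ.filter (fun p => τ p.1 = p.2 ∨ (p.1 = p.2 ∧ p.1 ∈ I))
  let S : Finset (Fin n) → Finset (Perm (Fin n)) := fun I =>
    univ.filter (fun σ : Perm (Fin n) =>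
      (∀ x, x ∉ R I → σ x = (1 : Perm (Fin n)) x) ∧ ∀ x ∈ R I, (x, σ x) ∉ B I)
  have memR : ∀ I x, x ∈ R I ↔ (x ∈ I ∨ x ∉ X) := fun I x => by simp [R]
  have memB : ∀ I a b, (a, b) ∈ B I ↔ (τ a = b ∨ (a = b ∧ a ∈ I)) := fun I a b => by simp [B]
  have memS : ∀ I σ, σ ∈ S I → (∀ x, x ∉ R I → σ x = x) ∧ ∀ x ∈ R I, (x, σ x) ∉ B I := by
    intro I σ hσ
    rw [mem_filter] at hσ
    exact hσ.2
  have hIX : ∀ I ∈ H.powersetCard i, I ⊆ X := fun I hI => (mem_powersetCard.1 hI).1.trans hHX
  have hRc : ∀ I ∈ H.powersetCard i, (R I).card = (m - i - 4) + 4 := by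
    intro I hI
    have h1 : R I = I ∪ Xᶜ := by
      ext x
      rw [memR, mem_union, mem_compl]
    have h2 : Disjoint I Xᶜ := by
      rw [disjoint_left]
      intro x hx hx'
      rw [mem_compl] at hx'
      exact hx' (hIX I hI hx)
    rw [h1, card_union_of_disjoint h2, card_compl, hX, (mem_powersetCard.1 hI).2,
      Fintype.card_fin]
    omega
  have hcount : ∀ I ∈ H.powersetCard i, (m - i - 2)! ≤ 2 * (S I).card := by
    intro I hI
    have hrow : ∀ a, (univ.filter (fun b => (a, b) ∈ B I)).card ≤ 2 := by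
      intro a
      have : univ.filter (fun b => (a, b) ∈ B I) ⊆ {τ a, a} := by
        intro b hb
        rw [mem_filter, memB] at hb
        rw [mem_insert, mem_singleton]
        rcases hb.2 with h | h
        · exact Or.inl h.symm
        · exact Or.inr h.1.symm
      exact (card_le_card this).trans card_le_two
    have hcol : ∀ b, (univ.filter (fun a => (a, b) ∈ B I)).card ≤ 2 := by
      intro b
      have : univ.filter (fun a => (a, b) ∈ B I) ⊆ {τ⁻¹ b, b} := by
        intro a ha
        rw [mem_filter, memB] at ha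
        rw [mem_insert, mem_singleton]
        rcases ha.2 with h | h
        · left
          rw [← h, ← Perm.mul_apply, inv_mul_cancel, Perm.one_apply]
        · exact Or.inr h.1
      exact (card_le_card this).trans card_le_two
    have h1 := count_avoid (B I) hrow hcol (m - i - 4) 1 (R I) (hRc I hI)
    have h2 : m - i - 4 + 2 = m - i - 2 := by omega
    rw [h2] at h1
    exact h1
  have hsupp : ∀ I ∈ H.powersetCard i, ∀ σ ∈ S I, I = X.filter (fun x => σ x ≠ x) := by
    intro I hI σ hσ
    obtain ⟨h1, h2⟩ := memS I σ hσ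
    ext x
    rw [mem_filter]
    constructor
    · intro hx
      refine ⟨hIX I hI hx, fun hfix => ?_⟩
      have h3 := h2 x ((memR I x).2 (Or.inl hx))
      apply h3
      rw [memB]
      exact Or.inr ⟨hfix.symm, hx⟩
    · rintro ⟨hxX, hne⟩
      by_contra hxI
      apply hne
      apply h1
      rw [memR]
      rintro (h | h)
      · exact hxI h
      · exact h hxX
  have hdisj : ∀ I ∈ H.powersetCard i, ∀ J ∈ H.powersetCard i, I ≠ J → Disjoint (S I) (S J) := by
    intro I hI J hJ hIJ
    rw [disjoint_left]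
    intro σ h1 h2
    exact hIJ ((hsupp I hI σ h1).trans (hsupp J hJ σ h2).symm)
  have hsub : (H.powersetCard i).biUnion S ⊆ (Mfam n k i).filter (fun σ => m < pdist σ τ) := by
    intro σ hσ
    rw [mem_biUnion] at hσ
    obtain ⟨I, hI, hσI⟩ := hσ
    obtain ⟨h1, h2⟩ := memS I σ hσI
    have hIc := (mem_powersetCard.1 hI).2
    rw [mem_filter]
    constructor
    · rw [Mfam, mem_filter]
      refine ⟨mem_univ _, ?_⟩
      have h3 : (X \ I).card = k + i := by
        rw [card_sdiff_of_subset (hIX I hI), hX, hIc]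
        omega
      rw [← h3]
      refine card_le_card ?_
      intro x hx
      rw [mem_sdiff] at hx
      rw [mem_filter]
      refine ⟨mem_univ _, (memX x).1 hx.1, h1 x ?_⟩
      rw [memR]
      rintro (h | h)
      · exact hx.2 h
      · exact h hx.1
    · have h3 := agree_add_pdist σ τ
      have h4 : (univ.filter (fun x : Fin n => σ x = τ x)).card ≤ k - 1 := by
        have h5 : (H \ I).card = k - 1 := by
          rw [card_sdiff_of_subset (mem_powersetCard.1 hI).1, hHc, hIc]
          omega
        rw [← h5]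
        refine card_le_card ?_
        intro x hx
        rw [mem_filter] at hx
        have hxR : x ∉ R I := by
          intro hxR
          apply h2 x hxR
          rw [memB]
          exact Or.inl hx.2.symm
        have h6 := h1 x hxR
        rw [memR] at hxR
        push Not at hxR
        rw [mem_sdiff]
        refine ⟨hFH ?_, hxR.1⟩
        rw [hFx, mem_filter]
        exact ⟨mem_univ _, (memX x).1 hxR.2, by rw [← hx.2, h6]⟩
      omega
  calc (k + i - 1).choose i * (m - i - 2)!
      = ∑ _I ∈ H.powersetCard i, (m - i - 2)! := by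
        rw [sum_const, card_powersetCard, hHc, smul_eq_mul]
    _ ≤ ∑ I ∈ H.powersetCard i, 2 * (S I).card := sum_le_sum hcount
    _ = 2 * ((H.powersetCard i).biUnion S).card := by
        rw [card_biUnion hdisj, mul_sum]
    _ ≤ 2 * ((Mfam n k i).filter (fun σ => m < pdist σ τ)).card :=
        Nat.mul_le_mul_left _ (card_le_card hsub)

end Pool.Agent.H58.KP
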