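import Pool.Agent.H58.KP.Basic
import Pool.Agent.H58.KP.CentreNum

set_option autoImplicit false

/-!
# Job KP-21: the size of the kernels (about 60 lines)

`kernel_size`: let `u = |dl L σ|` for the `σ ∈ 𝒢`, `f = |F| ≤ u`. If `m + f < u` then
`f < u - m ≤ s`. Otherwise let `a = m + f - u ≤ m`. For `σ ∈ 𝒢`, `|dl (symmDiff L F) σ| = u - f`
(`card_dl_symmDiff`), so `|dl (symmDiff L F) σ| + a = m`, and `hvol` gives `m ^ a * |𝒢| ≤ 6 * 11 ^ a * |A|`, while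
`hT` says `|A| ≤ m ^ 5 * θ ^ (14 f) * |𝒢|`. Cancel `|𝒢| > 0`:
`θ ^ (16 a) = m ^ a ≤ 6 * 11 ^ a * m ^ 5 * θ ^ (14 f) ≤ 6 * 11 ^ a * θ ^ 80 * θ ^ (14 (a + s))` since
`f = a + u - m ≤ a + s`. `num_kernel` gives `11 a ≤ 84 s + 481`, so `11 f ≤ 11 a + 11 s ≤ 95 s + 481` and
`f ≤ 9 s + 44`.
-/

namespace Pool.Agent.H58.KP

open Finset Equiv
open Pool.Agent.H71.KInt

variable {n : ℕ}

theorem kernel_size {m s u : ℕ} {θ : ℝ} (hθ : 11 ^ 6 ≤ θ) (hm : θ ^ 16 = (m : ℝ))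
    (A : Finset (Perm (Fin n)))
    (hvol : ∀ (L : Finset (Fin n × Fin n)) (a : ℕ), a ≤ m →
      m ^ a * (univ.filter (fun σ : Perm (Fin n) => (dl L σ).card + a ≤ m)).card ≤
        6 * 11 ^ a * A.card)
    (L F : Finset (Fin n × Fin n)) (𝒢 : Finset (Perm (Fin n))) (hne : 𝒢.Nonempty)
    (hu : ∀ σ ∈ 𝒢, (dl L σ).card = u) (hus : u ≤ m + s) (hF : ∀ σ ∈ 𝒢, F ⊆ dl L σ)
    (hT : (A.card : ℝ) / (m : ℝ) ^ 5 ≤ (θ ^ 14) ^ F.card * (𝒢.card : ℝ)) :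
    F.card ≤ 9 * s + 44 := by
  obtain ⟨σ₀, hσ₀⟩ := hne
  have hfu : F.card ≤ u := by
    rw [← hu σ₀ hσ₀]
    exact card_le_card (hF σ₀ hσ₀)
  by_cases hcase : m + F.card < u
  · omega
  · obtain ⟨a, ha⟩ : ∃ a, a + u = m + F.card := ⟨m + F.card - u, by omega⟩
    have ham : a ≤ m := by omega
    have hθ0 : (0 : ℝ) < θ := lt_of_lt_of_le (by norm_num) hθ
    have hG : (0 : ℝ) < (𝒢.card : ℝ) := by
      exact_mod_cast card_pos.2 ⟨σ₀, hσ₀⟩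
    have hsub : 𝒢 ⊆ univ.filter
        (fun σ : Perm (Fin n) => (dl (symmDiff L F) σ).card + a ≤ m) := by
      intro σ hσ
      rw [mem_filter]
      refine ⟨mem_univ _, ?_⟩
      have h1 := card_dl_symmDiff (hF σ hσ)
      rw [hu σ hσ] at h1
      omega
    have h2 : m ^ a * 𝒢.card ≤ 6 * 11 ^ a * A.card :=
      (Nat.mul_le_mul_left _ (card_le_card hsub)).trans (hvol (symmDiff L F) a ham)
    have h3 : (m : ℝ) ^ a * (𝒢.card : ℝ) ≤ 6 * 11 ^ a * (A.card : ℝ) := by exact_mod_cast h2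
    have hm5 : (0 : ℝ) < (m : ℝ) ^ 5 := by rw [← hm]; positivity
    have h4 : (A.card : ℝ) ≤ (m : ℝ) ^ 5 * ((θ ^ 14) ^ F.card * (𝒢.card : ℝ)) := by
      rw [div_le_iff₀ hm5] at hT
      linarith
    have h5 : (m : ℝ) ^ a * (𝒢.card : ℝ) ≤
        (6 * 11 ^ a * ((m : ℝ) ^ 5 * (θ ^ 14) ^ F.card)) * (𝒢.card : ℝ) := by
      calc (m : ℝ) ^ a * (𝒢.card : ℝ) ≤ 6 * 11 ^ a * (A.card : ℝ) := h3
        _ ≤ 6 * 11 ^ a * ((m : ℝ) ^ 5 * ((θ ^ 14) ^ F.card * (𝒢.card : ℝ))) :=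
            mul_le_mul_of_nonneg_left h4 (by positivity)
        _ = _ := by ring
    have h6 : (m : ℝ) ^ a ≤ 6 * 11 ^ a * ((m : ℝ) ^ 5 * (θ ^ 14) ^ F.card) :=
      le_of_mul_le_mul_right h5 hG
    have hf : F.card ≤ a + s := by omega
    have hθ1 : (1 : ℝ) ≤ θ := le_trans (by norm_num) hθ
    have h7 : θ ^ (16 * a) ≤ 6 * 11 ^ a * θ ^ 80 * θ ^ (14 * (a + s)) := by
      have h8 : (m : ℝ) ^ a = θ ^ (16 * a) := by rw [← hm, ← pow_mul]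
      have h9 : (m : ℝ) ^ 5 = θ ^ 80 := by rw [← hm, ← pow_mul]
      have h10 : (θ ^ 14) ^ F.card ≤ θ ^ (14 * (a + s)) := by
        rw [← pow_mul]
        exact pow_le_pow_right₀ hθ1 (by omega)
      rw [h8, h9] at h6
      calc θ ^ (16 * a) ≤ 6 * 11 ^ a * (θ ^ 80 * (θ ^ 14) ^ F.card) := h6
        _ ≤ 6 * 11 ^ a * (θ ^ 80 * θ ^ (14 * (a + s))) := by
            apply mul_le_mul_of_nonneg_left _ (by positivity)
            exact mul_le_mul_of_nonneg_left h10 (by positivity)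
        _ = _ := by ring
    have h11 := num_kernel hθ h7
    omega

end Pool.Agent.H58.KP
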