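import Mathlib

set_option autoImplicit false

/-!
# Maximal spread subfamilies and the greedy decomposition (job KP-6, about 110 lines)

`exists_spread`: let `F` maximise `R ^ F.card * |{i ∈ S | F ⊆ D i}|` over all `F : Finset α` (`α` is a
finite type; `Finset.exists_max_image univ`). Comparison with `F = ∅` gives the first claim, comparison with
`F ∪ Z` (`card_union_of_disjoint`) and cancelling `R ^ F.card > 0` gives the second.

`greedy`: strong induction on `S.card`. If `S.card ≤ T` take `P = ∅`. Otherwise let `F` be as in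
`exists_spread` for `S` and `𝒢 = {i ∈ S | F ⊆ D i}`: `T < |S| ≤ R ^ |F| * |𝒢|`, so `𝒢` is nonempty. The pair
`(F, 𝒢)` satisfies the conditions: for `Z` disjoint from `F`,
`{i ∈ 𝒢 | Z ⊆ D i} = {i ∈ S | F ∪ Z ⊆ D i}`. Apply the induction hypothesis to `S \ 𝒢`, giving `P'`, and let
`P = insert (F, 𝒢) P'`; the uncovered elements of `S` for `P` are the uncovered elements of `S \ 𝒢` for `P'`
(an inclusion is enough).
-/

namespace Pool.Agent.H58.KP

open Finset

variable {ι α : Type*} [DecidableEq ι] [DecidableEq α] [Fintype α]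

omit [DecidableEq ι] in
theorem exists_spread (S : Finset ι) (D : ι → Finset α) (R : ℝ) (hR : 0 < R) :
    ∃ F : Finset α,
      (S.card : ℝ) ≤ R ^ F.card * ((S.filter (fun i => F ⊆ D i)).card : ℝ) ∧
      ∀ Z : Finset α, Disjoint Z F →
        R ^ Z.card * ((S.filter (fun i => F ∪ Z ⊆ D i)).card : ℝ) ≤
          ((S.filter (fun i => F ⊆ D i)).card : ℝ) := by
  obtain ⟨F, -, hF⟩ := Finset.exists_max_image (univ : Finset (Finset α))
    (fun F => R ^ F.card * ((S.filter (fun i => F ⊆ D i)).card : ℝ)) ⟨∅, mem_univ _⟩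
  refine ⟨F, ?_, ?_⟩
  · have h := hF ∅ (mem_univ _)
    simpa using h
  · intro Z hZ
    have h := hF (F ∪ Z) (mem_univ _)
    rw [card_union_of_disjoint hZ.symm, pow_add, mul_assoc] at h
    exact le_of_mul_le_mul_left h (pow_pos hR _)

/-- Greedy decomposition of `S` into spread families `p.2` with kernels `p.1`. -/
theorem greedy (S : Finset ι) (D : ι → Finset α) (R T : ℝ) (hR : 0 < R) (hT : 0 ≤ T) :
    ∃ P : Finset (Finset α × Finset ι),
      (∀ p ∈ P, p.2 ⊆ S ∧ p.2.Nonempty ∧ (∀ i ∈ p.2, p.1 ⊆ D i) ∧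
        T ≤ R ^ p.1.card * (p.2.card : ℝ) ∧
        ∀ Z : Finset α, Disjoint Z p.1 →
          R ^ Z.card * ((p.2.filter (fun i => Z ⊆ D i)).card : ℝ) ≤ (p.2.card : ℝ)) ∧
      ((S.filter (fun i => ∀ p ∈ P, i ∉ p.2)).card : ℝ) ≤ T := by
  induction S using Finset.strongInduction with
  | H S ih =>
    by_cases hS : (S.card : ℝ) ≤ T
    · exact ⟨∅, by simp, by simpa using hS⟩
    · push Not at hS
      obtain ⟨F, hF1, hF2⟩ := exists_spread S D R hR
      set G := S.filter (fun i => F ⊆ D i) with hG
      have hGS : G ⊆ S := filter_subset _ _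
      have hGne : G.Nonempty := by
        rw [nonempty_iff_ne_empty]
        intro h0
        rw [h0, card_empty, Nat.cast_zero, mul_zero] at hF1
        linarith
      obtain ⟨P, hP1, hP2⟩ := ih (S \ G) (sdiff_ssubset hGS hGne)
      refine ⟨insert (F, G) P, ?_, ?_⟩
      · intro p hp
        rcases mem_insert.1 hp with rfl | hp
        · refine ⟨hGS, hGne, fun i hi => (mem_filter.1 hi).2, (hS.le.trans hF1), ?_⟩
          intro Z hZ
          have h1 : G.filter (fun i => Z ⊆ D i) = S.filter (fun i => F ∪ Z ⊆ D i) := by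
            ext i
            simp only [hG, mem_filter, union_subset_iff]
            tauto
          simp only
          rw [h1]
          exact hF2 Z hZ
        · obtain ⟨h1, h2⟩ := hP1 p hp
          exact ⟨h1.trans sdiff_subset, h2⟩
      · refine le_trans ?_ hP2
        rw [Nat.cast_le]
        refine card_le_card ?_
        intro i hi
        rw [mem_filter] at hi ⊢
        refine ⟨mem_sdiff.2 ⟨hi.1, hi.2 (F, G) (mem_insert_self _ _)⟩, fun p hp => ?_⟩
        exact hi.2 p (mem_insert_of_mem hp)

end Pool.Agent.H58.KP
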