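import Pool.Agent.H58.KP.Basic
import Pool.Agent.H58.KP.Spread
import Pool.Agent.H58.KP.KSize

set_option autoImplicit false

/-!
# Job KP-12: decomposition into spread families with small kernels (about 100 lines)

`decomp`: for every `u ∈ Icc (m - 4) (m + s)` apply `greedy` to `S = {σ ∈ A | |dl L σ| = u}`, `D = dl L`,
`R = θ ^ 14`, `T = |A| / m ^ 5`, to get `P u`; let `I` be the set of the triples `(F, 𝒢, u)` with `(F, 𝒢) ∈ P u`,
`u ∈ Icc (m - 4) (m + s)`. The kernel size is `kernel_size`. The uncovered `σ ∈ A` have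
`|dl L σ| + 5 ≤ m` or are uncovered in the class `u = |dl L σ|`, so (`hvol` with `a = 5`; `m ≥ 5`)
`m ^ 5 * |uncovered| ≤ 6 * 11 ^ 5 * |A| + (s + 5) * |A|` and `6 * 11 ^ 5 + s + 5 ≤ 966311 + 14 θ ^ 12 ≤ θ ^ 16 = m`.
Cancel one `m`.
-/

namespace Pool.Agent.H58.KP

open Finset Equiv
open Pool.Agent.H71.KInt

variable {n : ℕ}

theorem decomp_num {θ : ℝ} (hθ : 11 ^ 6 ≤ θ) : 966311 + 14 * θ ^ 12 ≤ θ ^ 16 := by
  have h1 : (1771561 : ℝ) ≤ θ := by norm_num at hθ; exact hθ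
  have h2 : (1 : ℝ) ≤ θ := by linarith
  have h3 : θ ≤ θ ^ 12 := by
    calc θ = θ ^ 1 := (pow_one θ).symm
      _ ≤ θ ^ 12 := pow_le_pow_right₀ h2 (by norm_num)
  have h4 : θ ≤ θ ^ 4 := by
    calc θ = θ ^ 1 := (pow_one θ).symm
      _ ≤ θ ^ 4 := pow_le_pow_right₀ h2 (by norm_num)
  have h5 : 15 * θ ^ 12 ≤ θ ^ 4 * θ ^ 12 :=
    mul_le_mul_of_nonneg_right (by linarith) (by positivity)
  have h6 : θ ^ 16 = θ ^ 4 * θ ^ 12 := by ring
  rw [h6]
  linarith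

theorem decomp {m s : ℕ} {θ : ℝ} (hθ : 11 ^ 6 ≤ θ) (hm : θ ^ 16 = (m : ℝ))
    (A : Finset (Perm (Fin n)))
    (hvol : ∀ (L : Finset (Fin n × Fin n)) (a : ℕ), a ≤ m →
      m ^ a * (univ.filter (fun σ : Perm (Fin n) => (dl L σ).card + a ≤ m)).card ≤
        6 * 11 ^ a * A.card)
    (L : Finset (Fin n × Fin n)) (hL : ∀ τ ∈ A, (dl L τ).card ≤ m + s)
    (hs : (s : ℝ) ≤ 14 * θ ^ 12) :
    ∃ I : Finset (Finset (Fin n × Fin n) × (Finset (Perm (Fin n)) × ℕ)),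
      (∀ p ∈ I, p.2.1 ⊆ A ∧ p.2.1.Nonempty ∧
        (∀ σ ∈ p.2.1, (dl L σ).card = p.2.2 ∧ p.1 ⊆ dl L σ) ∧ p.1.card ≤ 9 * s + 44 ∧
        ∀ Z : Finset (Fin n × Fin n), Disjoint Z p.1 →
          (θ ^ 14) ^ Z.card * ((p.2.1.filter (fun σ => Z ⊆ dl L σ)).card : ℝ) ≤
            (p.2.1.card : ℝ)) ∧
      m ^ 4 * (A.filter (fun σ => ∀ p ∈ I, σ ∉ p.2.1)).card ≤ A.card := by
  classical
  have hθ0 : (0 : ℝ) < θ := lt_of_lt_of_le (by norm_num) hθ
  have hnum := decomp_num hθ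
  rw [hm] at hnum
  have h12 : 0 ≤ θ ^ 12 := by positivity
  have hmR : (966311 : ℝ) ≤ m := by linarith
  have hm5 : 5 ≤ m := by
    have : (5 : ℝ) ≤ m := by linarith
    exact_mod_cast this
  have hmpos : (0 : ℝ) < m := by linarith
  have hR : 0 < θ ^ 14 := by positivity
  have hT : 0 ≤ (A.card : ℝ) / (m : ℝ) ^ 5 := by positivity
  choose P hP1 hP2 using fun u : ℕ => greedy (A.filter (fun σ => (dl L σ).card = u)) (dl L)
    (θ ^ 14) ((A.card : ℝ) / (m : ℝ) ^ 5) hR hT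
  have hUnc : ∀ u, ∃ Un : Finset (Perm (Fin n)),
      (∀ σ, σ ∈ Un ↔ (σ ∈ A ∧ (dl L σ).card = u) ∧ ∀ p ∈ P u, σ ∉ p.2) ∧
      (Un.card : ℝ) ≤ (A.card : ℝ) / (m : ℝ) ^ 5 := by
    intro u
    refine ⟨_, ?_, hP2 u⟩
    intro σ
    simp only [mem_filter]
  choose Un hUn1 hUn2 using hUnc
  refine ⟨(Finset.Icc (m - 4) (m + s)).biUnion
    (fun u => (P u).image (fun p => (p.1, (p.2, u)))), ?_, ?_⟩
  · intro p hp
    rw [mem_biUnion] at hp
    obtain ⟨u, hu, hp⟩ := hp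
    rw [mem_image] at hp
    obtain ⟨p0, hp0, rfl⟩ := hp
    obtain ⟨h1, h2, h3, h4, h5⟩ := hP1 u p0 hp0
    have hcard : ∀ σ ∈ p0.2, (dl L σ).card = u := fun σ hσ => (mem_filter.1 (h1 hσ)).2
    refine ⟨fun σ hσ => (mem_filter.1 (h1 hσ)).1, h2, fun σ hσ => ⟨hcard σ hσ, h3 σ hσ⟩, ?_, h5⟩
    exact kernel_size hθ hm A hvol L p0.1 p0.2 h2 hcard (mem_Icc.1 hu).2 h3 h4
  · set I := (Finset.Icc (m - 4) (m + s)).biUnion
      (fun u => (P u).image (fun p => (p.1, (p.2, u)))) with hI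
    have hsub : A.filter (fun σ => ∀ p ∈ I, σ ∉ p.2.1) ⊆
        univ.filter (fun σ : Perm (Fin n) => (dl L σ).card + 5 ≤ m) ∪
          (Finset.Icc (m - 4) (m + s)).biUnion Un := by
      intro σ hσ
      rw [mem_filter] at hσ
      rw [mem_union]
      by_cases hc : (dl L σ).card + 5 ≤ m
      · left
        exact mem_filter.2 ⟨mem_univ _, hc⟩
      · right
        have hle := hL σ hσ.1
        have hu : (dl L σ).card ∈ Finset.Icc (m - 4) (m + s) := mem_Icc.2 ⟨by omega, hle⟩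
        rw [mem_biUnion]
        refine ⟨_, hu, (hUn1 _ σ).2 ⟨⟨hσ.1, rfl⟩, fun p hp => ?_⟩⟩
        exact hσ.2 (p.1, (p.2, (dl L σ).card))
          (mem_biUnion.2 ⟨_, hu, mem_image.2 ⟨p, hp, rfl⟩⟩)
    have hcard : ((A.filter (fun σ => ∀ p ∈ I, σ ∉ p.2.1)).card : ℝ) ≤
        ((univ.filter (fun σ : Perm (Fin n) => (dl L σ).card + 5 ≤ m)).card : ℝ) +
          ((s : ℝ) + 5) * ((A.card : ℝ) / (m : ℝ) ^ 5) := by
      have h1 := (card_le_card hsub).trans ((card_union_le _ _).trans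
        (Nat.add_le_add_left card_biUnion_le _))
      have h2 : ((A.filter (fun σ => ∀ p ∈ I, σ ∉ p.2.1)).card : ℝ) ≤
          ((univ.filter (fun σ : Perm (Fin n) => (dl L σ).card + 5 ≤ m)).card : ℝ) +
          ∑ u ∈ Finset.Icc (m - 4) (m + s), ((Un u).card : ℝ) := by
        exact_mod_cast h1
      refine h2.trans (add_le_add le_rfl ?_)
      calc ∑ u ∈ Finset.Icc (m - 4) (m + s), ((Un u).card : ℝ)
          ≤ ∑ _u ∈ Finset.Icc (m - 4) (m + s), (A.card : ℝ) / (m : ℝ) ^ 5 :=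
            sum_le_sum fun u _ => hUn2 u
        _ = ((s : ℝ) + 5) * ((A.card : ℝ) / (m : ℝ) ^ 5) := by
            rw [sum_const, Nat.card_Icc, nsmul_eq_mul]
            congr 1
            have : m + s + 1 - (m - 4) = s + 5 := by omega
            rw [this]
            push_cast
            ring
    have hv := hvol L 5 hm5
    have hvR : (m : ℝ) ^ 5 * ((univ.filter (fun σ : Perm (Fin n) =>
        (dl L σ).card + 5 ≤ m)).card : ℝ) ≤ 6 * 11 ^ 5 * (A.card : ℝ) := by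
      exact_mod_cast hv
    have hA0 : (0 : ℝ) ≤ A.card := Nat.cast_nonneg _
    have hfin : (m : ℝ) * ((m : ℝ) ^ 4 * ((A.filter (fun σ => ∀ p ∈ I, σ ∉ p.2.1)).card : ℝ)) ≤
        (m : ℝ) * (A.card : ℝ) := by
      calc (m : ℝ) * ((m : ℝ) ^ 4 * ((A.filter (fun σ => ∀ p ∈ I, σ ∉ p.2.1)).card : ℝ))
          = (m : ℝ) ^ 5 * ((A.filter (fun σ => ∀ p ∈ I, σ ∉ p.2.1)).card : ℝ) := by ring
        _ ≤ (m : ℝ) ^ 5 * (((univ.filter (fun σ : Perm (Fin n) =>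
              (dl L σ).card + 5 ≤ m)).card : ℝ) + ((s : ℝ) + 5) * ((A.card : ℝ) / (m : ℝ) ^ 5)) :=
            mul_le_mul_of_nonneg_left hcard (by positivity)
        _ = (m : ℝ) ^ 5 * ((univ.filter (fun σ : Perm (Fin n) =>
              (dl L σ).card + 5 ≤ m)).card : ℝ) + ((s : ℝ) + 5) * (A.card : ℝ) := by
            field_simp
        _ ≤ 6 * 11 ^ 5 * (A.card : ℝ) + ((s : ℝ) + 5) * (A.card : ℝ) :=
            add_le_add hvR le_rfl
        _ = (966311 + (s : ℝ)) * (A.card : ℝ) := by ring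
        _ ≤ (m : ℝ) * (A.card : ℝ) := mul_le_mul_of_nonneg_right (by linarith) hA0
    have hfin2 := le_of_mul_le_mul_left hfin hmpos
    exact_mod_cast hfin2

end Pool.Agent.H58.KP
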