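import Pool.Agent.H58.KP.Basic

set_option autoImplicit false

/-!
# Job KP-14: if all kernels have positive excess then few permutations are covered (about 110 lines)

`sum_excess`: with `x = 44 (9 s + 44) / m`: `44 (9 s + 44) ≤ 44 (126 θ ^ 12 + 44) ≤ 5588 θ ^ 12`, so
`x ≤ 5588 / θ ^ 4 ≤ 10 ^ (-20)`, and `(l + 1) ^ 2 ≤ 4 ^ l` for `l ≥ 1`, so
`∑ l ∈ Icc 1 m, (l + 1) ^ 2 * x ^ l ≤ ∑ l ∈ Icc 1 m, (4 x) ^ l ≤ 8 x ≤ 1 / 24`.

`no_zero_excess`: let `T` be a finite set of pairs `a = (kernel a.1, level a.2)` with `hcross`, `hbdd`, `htight` and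
no `a ∈ T` with `|a.1| + (m + e) = 2 a.2`. By `hcross a a` (`inter_self`), `2 a.2 ≤ |a.1| + (m + e)`, so the
excess `l = |a.1| + (m + e) - 2 a.2` is at least `1`. Let `σ ∈ A` with `a.1 ⊆ dl L σ`,
`|dl L σ| + e = 2 a.2`. Then `|dl (symmDiff L a.1) σ| = |dl L σ| - |a.1| = m - l`
(`card_dl_symmDiff`), in particular `l ≤ m`. So by `hvol` with `symmDiff L a.1` and `l`: the number of these
`σ` is at most `6 * (11 / m) ^ l * |A|`. By `Pool.Agent.H71.KInt.excess_count` (with `m + e` in place of `m` and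
`9 s + 44` in place of `L`) there are at most `(l + 1) ^ 2 * (4 (9 s + 44)) ^ l` elements of `T` of excess `l`. So the
number of all covered `σ` is at most `∑ l ∈ Icc 1 m, (l + 1) ^ 2 * (4 (9 s + 44)) ^ l * 6 * (11 / m) ^ l * |A| =
6 |A| ∑ l ∈ Icc 1 m, (l + 1) ^ 2 * x ^ l ≤ |A| / 4`.
-/

namespace Pool.Agent.H58.KP

open Finset Equiv
open Pool.Agent.H71.KInt

variable {n : ℕ}

private theorem excess_geom {y : ℝ} (hy0 : 0 ≤ y) (hy : y ≤ 1 / 2) (m : ℕ) :
    ∑ l ∈ Icc 1 m, y ^ l + 2 * y ^ (m + 1) ≤ 2 * y := by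
  induction m with
  | zero => simp
  | succ m ih =>
    rw [Finset.sum_Icc_succ_top (by omega)]
    have h : y ^ (m + 1 + 1) = y ^ (m + 1) * y := pow_succ _ _
    have h2 : 0 ≤ y ^ (m + 1) := pow_nonneg hy0 _
    nlinarith

private theorem excess_four (l : ℕ) (hl : 1 ≤ l) : ((l : ℝ) + 1) ^ 2 ≤ 4 ^ l := by
  induction l, hl using Nat.le_induction with
  | base => norm_num
  | succ l hl ih =>
    push_cast
    rw [pow_succ (4 : ℝ) l]
    have : (1 : ℝ) ≤ l := by exact_mod_cast hl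
    nlinarith

theorem sum_excess {m s : ℕ} {θ : ℝ} (hθ : 11 ^ 6 ≤ θ) (hm : θ ^ 16 = (m : ℝ))
    (hs : (s : ℝ) ≤ 14 * θ ^ 12) :
    ∑ l ∈ Icc 1 m, ((l : ℝ) + 1) ^ 2 * (44 * (9 * s + 44) / m) ^ l ≤ 1 / 24 := by
  have hθ1 : 1 ≤ θ := le_trans (by norm_num) hθ
  have hθ0 : 0 < θ := lt_of_lt_of_le one_pos hθ1
  have hm0 : (0 : ℝ) < m := by rw [← hm]; positivity
  have hx0 : (0 : ℝ) ≤ 44 * (9 * s + 44) / m := by positivity
  have hx1 : (44 * (9 * s + 44) / m : ℝ) ≤ 1 / 200 := by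
    rw [div_le_iff₀ hm0, ← hm]
    have h12 : 1 ≤ θ ^ 12 := one_le_pow₀ hθ1
    have h4 : ((11 : ℝ) ^ 6) ^ 4 ≤ θ ^ 4 := pow_le_pow_left₀ (by positivity) hθ 4
    have h16 : θ ^ 16 = θ ^ 12 * θ ^ 4 := by ring
    rw [h16]
    have h5 : (7480 * 200 : ℝ) ≤ θ ^ 4 := le_trans (by norm_num) h4
    have h6 : θ ^ 12 * (7480 * 200) ≤ θ ^ 12 * θ ^ 4 :=
      mul_le_mul_of_nonneg_left h5 (by positivity)
    linarith
  set x : ℝ := 44 * (9 * s + 44) / m with hx
  calc ∑ l ∈ Icc 1 m, ((l : ℝ) + 1) ^ 2 * x ^ l ≤ ∑ l ∈ Icc 1 m, (4 * x) ^ l := by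
        apply Finset.sum_le_sum
        intro l hl
        rw [mul_pow]
        exact mul_le_mul_of_nonneg_right (excess_four l (mem_Icc.1 hl).1) (pow_nonneg hx0 _)
    _ ≤ 2 * (4 * x) := by
        have h1 := excess_geom (y := 4 * x) (by linarith) (by linarith) m
        have h2 : 0 ≤ 2 * (4 * x) ^ (m + 1) := by positivity
        linarith
    _ ≤ 1 / 24 := by linarith

theorem no_zero_excess {m s e : ℕ} {θ : ℝ} (hθ : 11 ^ 6 ≤ θ) (hm : θ ^ 16 = (m : ℝ))
    (A : Finset (Perm (Fin n)))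
    (hvol : ∀ (L : Finset (Fin n × Fin n)) (a : ℕ), a ≤ m →
      m ^ a * (univ.filter (fun σ : Perm (Fin n) => (dl L σ).card + a ≤ m)).card ≤
        6 * 11 ^ a * A.card)
    (L : Finset (Fin n × Fin n)) (hs : (s : ℝ) ≤ 14 * θ ^ 12)
    (T : Finset (Finset (Fin n × Fin n) × ℕ))
    (hcross : ∀ a ∈ T, ∀ b ∈ T, a.2 + b.2 ≤ (a.1 ∩ b.1).card + (m + e))
    (hbdd : ∀ a ∈ T, a.1.card ≤ 9 * s + 44) (htight : Tight (m + e) T)
    (hpos : ∀ a ∈ T, a.1.card + (m + e) ≠ 2 * a.2) :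
    4 * (A.filter (fun σ => ∃ a ∈ T, a.1 ⊆ dl L σ ∧ (dl L σ).card + e = 2 * a.2)).card ≤
      A.card := by
  classical
  have hθ1 : 1 ≤ θ := le_trans (by norm_num) hθ
  have hm0 : (0 : ℝ) < m := by rw [← hm]; positivity
  have hsum := sum_excess hθ hm hs
  -- the covering
  have hcov : A.filter (fun σ => ∃ a ∈ T, a.1 ⊆ dl L σ ∧ (dl L σ).card + e = 2 * a.2) ⊆
      (Icc 1 m).biUnion (fun l => (T.filter (fun a => a.1.card + (m + e) = 2 * a.2 + l)).biUnion
        (fun a => univ.filter (fun σ : Perm (Fin n) =>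
          (dl (symmDiff L a.1) σ).card + l ≤ m))) := by
    intro σ hσ
    obtain ⟨hσA, a, haT, hsub, hcard⟩ := mem_filter.1 hσ
    have h1 := hcross a haT a haT
    rw [inter_self] at h1
    have h2 := hpos a haT
    have h3 := card_dl_symmDiff hsub
    rw [mem_biUnion]
    refine ⟨a.1.card + (m + e) - 2 * a.2, mem_Icc.2 ⟨by omega, by omega⟩, ?_⟩
    rw [mem_biUnion]
    refine ⟨a, mem_filter.2 ⟨haT, by omega⟩, mem_filter.2 ⟨mem_univ _, by omega⟩⟩
  have hle : ∀ l ∈ Icc 1 m, (((T.filter (fun a => a.1.card + (m + e) = 2 * a.2 + l)).biUnion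
        (fun a => univ.filter (fun σ : Perm (Fin n) =>
          (dl (symmDiff L a.1) σ).card + l ≤ m))).card : ℝ) ≤
      6 * A.card * (((l : ℝ) + 1) ^ 2 * (44 * (9 * s + 44) / m) ^ l) := by
    intro l hl
    have hlm := (mem_Icc.1 hl).2
    have hN : ∀ a : Finset (Fin n × Fin n) × ℕ, ((univ.filter (fun σ : Perm (Fin n) =>
          (dl (symmDiff L a.1) σ).card + l ≤ m)).card : ℝ) ≤ 6 * 11 ^ l * A.card / m ^ l := by
      intro a
      rw [le_div_iff₀ (by positivity), mul_comm]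
      exact_mod_cast hvol (symmDiff L a.1) l hlm
    have hT := excess_count (m := m + e) (L := 9 * s + 44) (by omega) hcross hbdd htight l
    have hT' : ((T.filter (fun a => a.1.card + (m + e) = 2 * a.2 + l)).card : ℝ) ≤
        ((l : ℝ) + 1) ^ 2 * (4 * (9 * s + 44)) ^ l := by exact_mod_cast hT
    calc (((T.filter (fun a => a.1.card + (m + e) = 2 * a.2 + l)).biUnion
        (fun a => univ.filter (fun σ : Perm (Fin n) =>
          (dl (symmDiff L a.1) σ).card + l ≤ m))).card : ℝ)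
        ≤ ∑ a ∈ T.filter (fun a => a.1.card + (m + e) = 2 * a.2 + l),
          ((univ.filter (fun σ : Perm (Fin n) =>
          (dl (symmDiff L a.1) σ).card + l ≤ m)).card : ℝ) := by
          exact_mod_cast card_biUnion_le
      _ ≤ ∑ a ∈ T.filter (fun a => a.1.card + (m + e) = 2 * a.2 + l),
          (6 * 11 ^ l * A.card / m ^ l : ℝ) := Finset.sum_le_sum fun a _ => hN a
      _ = (T.filter (fun a => a.1.card + (m + e) = 2 * a.2 + l)).card *
          (6 * 11 ^ l * A.card / m ^ l : ℝ) := by rw [sum_const, nsmul_eq_mul]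
      _ ≤ (((l : ℝ) + 1) ^ 2 * (4 * (9 * s + 44)) ^ l) *
          (6 * 11 ^ l * A.card / m ^ l : ℝ) :=
          mul_le_mul_of_nonneg_right hT' (by positivity)
      _ = 6 * A.card * (((l : ℝ) + 1) ^ 2 * (44 * (9 * s + 44) / m) ^ l) := by
          have e1 : (44 * (9 * s + 44) / m : ℝ) ^ l =
              (4 * (9 * s + 44)) ^ l * 11 ^ l / m ^ l := by
            rw [← mul_pow, ← div_pow]
            congr 1
            ring
          rw [e1]
          ring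
  have hfin : ((A.filter (fun σ => ∃ a ∈ T, a.1 ⊆ dl L σ ∧
      (dl L σ).card + e = 2 * a.2)).card : ℝ) ≤ 6 * A.card * (1 / 24) := by
    calc ((A.filter (fun σ => ∃ a ∈ T, a.1 ⊆ dl L σ ∧
          (dl L σ).card + e = 2 * a.2)).card : ℝ)
        ≤ (((Icc 1 m).biUnion (fun l => (T.filter
          (fun a => a.1.card + (m + e) = 2 * a.2 + l)).biUnion
          (fun a => univ.filter (fun σ : Perm (Fin n) =>
          (dl (symmDiff L a.1) σ).card + l ≤ m)))).card : ℝ) := by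
          exact_mod_cast card_le_card hcov
      _ ≤ ∑ l ∈ Icc 1 m, (((T.filter (fun a => a.1.card + (m + e) = 2 * a.2 + l)).biUnion
          (fun a => univ.filter (fun σ : Perm (Fin n) =>
          (dl (symmDiff L a.1) σ).card + l ≤ m))).card : ℝ) := by
          exact_mod_cast card_biUnion_le
      _ ≤ ∑ l ∈ Icc 1 m, 6 * A.card * (((l : ℝ) + 1) ^ 2 * (44 * (9 * s + 44) / m) ^ l) :=
          Finset.sum_le_sum hle
      _ = 6 * A.card * ∑ l ∈ Icc 1 m, (((l : ℝ) + 1) ^ 2 * (44 * (9 * s + 44) / m) ^ l) := by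
          rw [mul_sum]
      _ ≤ 6 * A.card * (1 / 24) := mul_le_mul_of_nonneg_left hsum (by positivity)
  have h4 : (4 : ℝ) * ((A.filter (fun σ => ∃ a ∈ T, a.1 ⊆ dl L σ ∧
      (dl L σ).card + e = 2 * a.2)).card : ℝ) ≤ A.card := by linarith
  exact_mod_cast h4

end Pool.Agent.H58.KP
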