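import Pool.Agent.H58.KP.Centre
import Pool.Agent.H58.KP.Decomp
import Pool.Agent.H58.KP.Compat
import Pool.Agent.H58.KP.Excess

set_option autoImplicit false

/-!
# Almost all of the family is in a ball of radius `m`
-/

namespace Pool.Agent.H58.KP

open Finset Equiv
open Pool.Agent.H71.KInt

variable {n : ℕ}

theorem ball_almost {m : ℕ} {θ : ℝ} (hθ : 11 ^ 6 ≤ θ) (hm : θ ^ 16 = (m : ℝ))
    (A : Finset (Perm (Fin n))) (hne : A.Nonempty) (hA : ∀ σ ∈ A, ∀ τ ∈ A, pdist σ τ ≤ m)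
    (hvol : ∀ (L : Finset (Fin n × Fin n)) (a : ℕ), a ≤ m →
      m ^ a * (univ.filter (fun σ : Perm (Fin n) => (dl L σ).card + a ≤ m)).card ≤
        6 * 11 ^ a * A.card) :
    ∃ L' : Finset (Fin n × Fin n),
      m ^ 4 * (A.filter (fun σ => m < (dl L' σ).card)).card ≤ A.card := by
  classical
  obtain ⟨L, s, hsm, hL, hs⟩ := good_centre hθ hm A hne hA hvol
  obtain ⟨I, hI, hrem⟩ := decomp hθ hm A hvol L hL hs
  have hθ1 : (1 : ℝ) ≤ θ := le_trans (by norm_num) hθ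
  have hf : ∀ p ∈ I, 8 * (p.1.card : ℝ) ≤ θ ^ 14 := by
    intro p hp
    have h1 : (p.1.card : ℝ) ≤ 9 * s + 44 := by exact_mod_cast (hI p hp).2.2.2.1
    have h12 : (1 : ℝ) ≤ θ ^ 12 := one_le_pow₀ hθ1
    have h2 : (11 ^ 6 : ℝ) ^ 2 ≤ θ ^ 2 := pow_le_pow_left₀ (by norm_num) hθ 2
    have h3 : θ ^ 14 = θ ^ 2 * θ ^ 12 := by ring
    rw [h3]
    have h4 : (2000 : ℝ) * θ ^ 12 ≤ θ ^ 2 * θ ^ 12 :=
      mul_le_mul_of_nonneg_right (le_trans (by norm_num) h2) (by positivity)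
    linarith
  -- the common parity
  set e : ℕ := (n + L.card) % 2 with he
  have hpar : ∀ σ : Perm (Fin n), (dl L σ).card % 2 = e := fun σ => card_dl_mod L σ
  have hlev : ∀ p ∈ I, ∀ σ ∈ p.2.1, (dl L σ).card = p.2.2 := fun p hp σ hσ =>
    ((hI p hp).2.2.1 σ hσ).1
  have hpe : ∀ p ∈ I, 2 * ((p.2.2 + e) / 2) = p.2.2 + e := by
    intro p hp
    obtain ⟨σ, hσ⟩ := (hI p hp).2.1
    have h1 := hpar σ
    rw [hlev p hp σ hσ] at h1
    omega
  obtain ⟨T, hT, htight⟩ := exists_tight I (fun p => p.1) (fun p => (p.2.2 + e) / 2) (m + e)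
    (9 * s + 44) (fun p hp => (hI p hp).2.2.2.1) (by
      intro p hp p' hp'
      have h1 := hpe p hp
      have h2 := hpe p' hp'
      obtain ⟨hG1, hG2, hG3, hG4, hG5⟩ := hI p hp
      obtain ⟨hG1', hG2', hG3', hG4', hG5'⟩ := hI p' hp'
      have hu2 : p.2.2 ≤ 2 * m := by
        obtain ⟨σ, hσ⟩ := hG2
        have h3 := hL σ (hG1 hσ)
        rw [(hG3 σ hσ).1] at h3
        omega
      have hu2' : p'.2.2 ≤ 2 * m := by
        obtain ⟨σ, hσ⟩ := hG2'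
        have h3 := hL σ (hG1' hσ)
        rw [(hG3' σ hσ).1] at h3
        omega
      have h3 := compat hθ hm L p.1 p'.1 p.2.1 p'.2.1 (fun σ hσ => (hG3 σ hσ).1)
        (fun σ hσ => (hG3' σ hσ).1) hu2 hu2' (fun σ hσ τ hτ => hA σ (hG1 hσ) τ (hG1' hτ))
        hG2 hG2' hG5 hG5' (hf p hp) (hf p' hp')
      show (p.2.2 + e) / 2 + (p'.2.2 + e) / 2 ≤ (p.1 ∩ p'.1).card + (m + e)
      omega)
  -- covered permutations
  have hcov : ∀ σ ∈ A, (∃ p ∈ I, σ ∈ p.2.1) →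
      ∃ a ∈ T, a.1 ⊆ dl L σ ∧ (dl L σ).card + e = 2 * a.2 := by
    rintro σ hσ ⟨p, hp, hσp⟩
    obtain ⟨a, ha, ha1, ha2⟩ := hT.cover p hp
    refine ⟨a, ha, ha2.trans ((hI p hp).2.2.1 σ hσp).2, ?_⟩
    rw [hlev p hp σ hσp, ha1]
    exact (hpe p hp).symm
  have hm4 : 4 ≤ m ^ 4 := by
    have h1 : (4 : ℝ) ≤ (m : ℝ) := by
      rw [← hm]
      calc (4 : ℝ) ≤ (11 ^ 6) ^ 16 := by norm_num
        _ ≤ θ ^ 16 := pow_le_pow_left₀ (by norm_num) hθ 16
    have h2 : 4 ≤ m := by exact_mod_cast h1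
    calc 4 ≤ m := h2
      _ = m ^ 1 := (pow_one m).symm
      _ ≤ m ^ 4 := Nat.pow_le_pow_right (by omega) (by norm_num)
  by_cases hz : ∃ a ∈ T, a.1.card + (m + e) = 2 * a.2
  · obtain ⟨a0, ha0, hz⟩ := hz
    refine ⟨symmDiff L a0.1, ?_⟩
    refine (Nat.mul_le_mul_left _ (card_le_card ?_)).trans hrem
    intro σ hσ
    rw [mem_filter] at hσ ⊢
    refine ⟨hσ.1, ?_⟩
    intro p hp hσp
    obtain ⟨a, ha, ha1, ha2⟩ := hcov σ hσ.1 ⟨p, hp, hσp⟩
    have h1 := hT.cross a ha a0 ha0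
    have h2 : (a.1 ∩ a0.1).card ≤ (dl L σ ∩ a0.1).card :=
      card_le_card (inter_subset_inter_right ha1)
    have h3 := card_symmDiff_add (dl L σ) a0.1
    rw [← dl_symmDiff] at h3
    have h4 := hσ.2
    omega
  · push Not at hz
    exfalso
    have h1 := no_zero_excess hθ hm A hvol L hs T hT.cross hT.bdd htight hz
    have h2 : A.card ≤ (A.filter (fun σ => ∃ a ∈ T, a.1 ⊆ dl L σ ∧
        (dl L σ).card + e = 2 * a.2)).card + (A.filter (fun σ => ∀ p ∈ I, σ ∉ p.2.1)).card := by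
      rw [← card_filter_add_card_filter_not (s := A) (fun σ => ∀ p ∈ I, σ ∉ p.2.1), add_comm]
      refine Nat.add_le_add_right (card_le_card ?_) _
      intro σ hσ
      rw [mem_filter] at hσ ⊢
      refine ⟨hσ.1, hcov σ hσ.1 ?_⟩
      have := hσ.2
      push Not at this
      exact this
    have h3 := Nat.mul_le_mul_right (A.filter (fun σ => ∀ p ∈ I, σ ∉ p.2.1)).card hm4
    have h4 : 0 < A.card := card_pos.2 hne
    omega

end Pool.Agent.H58.KP
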