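import Mathlib

set_option autoImplicit false

/-!
# Job KP-18: two lemmas on binomial coefficients (about 110 lines)

`choose_ratio`: for `0 ≤ j < i` put `r_j = (k + 2 i - j) / (k + i - 1 - j) = 1 + (i + 1) / (k + i - 1 - j)`; then
`(k + 2 i).choose i / (k + i - 1).choose i = ∏_{j < i} r_j` (quotient of the descending factorials), and
`k + i - 1 - j ≥ k`, so the quotient is at most `(1 + (i + 1) / k) ^ i`.
Case `i ≤ 96`: `r_j ≤ 1 + (i + 1) / (i - j)`, so the quotient is at most `∏_{j < i} (2 i + 1 - j) / (i - j) =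
(2 i + 1).choose i ≤ 2 ^ (2 i + 1) ≤ 2 ^ 200`. Another way to see it: the ratio decreases in `k`, i.e.
`(k + 1 + 2 i).choose i * (k + i - 1).choose i ≤ (k + 2 i).choose i * (k + i).choose i` (because
`(k + 1 + 2 i).choose i / (k + 2 i).choose i = (k + 1 + 2 i) / (k + 1 + i)` and
`(k + i).choose i / (k + i - 1).choose i = (k + i) / k`), start at `k = 1`.
Case `i ≥ 97`: from `i (i + 1) ≤ 48 k + 48 i` we get `i (i - 47) ≤ 48 k`, and `i - 47 ≥ i / 2`, so
`i ^ 2 ≤ 96 k` and `i (i + 1) ≤ 97 k`; so the quotient is at most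
`(1 + (i + 1) / k) ^ i ≤ exp (i (i + 1) / k) ≤ exp 97 ≤ 3 ^ 97 ≤ 2 ^ 200`
(or `(1 + (i+1)/k) ^ i ≤ 2 ^ (2 * 97)` in any other way).

`growth`: the hypothesis with `(k + 2 i + 2).choose (i + 1) * ((i + 1) * (k + i + 1)) =
(k + 2 i).choose i * ((k + 2 i + 2) * (k + 2 i + 1))` gives (cancel `(k + 2 i).choose i > 0`)
`(m - i) * ((i + 1) * (k + i + 1)) ≤ 12 * ((k + 2 i + 2) * (k + 2 i + 1)) ≤ 48 * (k + i + 1) ^ 2`, so
`(m - i) * (i + 1) ≤ 48 (k + i + 1)`; and `m - i ≥ i + 2` because `2 (i + 1) ≤ m`.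
-/

namespace Pool.Agent.H58.KP

private lemma ratio_small (i : ℕ) : ∀ k : ℕ,
    (k + 1 + 2 * i).choose i ≤ (2 * i + 1).choose i * (k + i).choose i := by
  intro k
  induction k with
  | zero =>
    have h1 : 0 + 1 + 2 * i = 2 * i + 1 := by ring
    rw [h1, Nat.zero_add, Nat.choose_self, Nat.mul_one]
  | succ k ih =>
    have e1 : (k + 1 + 2 * i).choose i * (k + 1 + 2 * i + 1) =
        (k + 1 + 2 * i + 1).choose i * (k + 1 + 2 * i + 1 - i) :=
      Nat.choose_mul_succ_eq (k + 1 + 2 * i) i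
    have e2 : (k + i).choose i * (k + i + 1) = (k + i + 1).choose i * (k + i + 1 - i) :=
      Nat.choose_mul_succ_eq (k + i) i
    have s1 : k + 1 + 2 * i + 1 - i = k + 2 + i := by omega
    have s2 : k + i + 1 - i = k + 1 := by omega
    have s3 : k + 1 + 1 + 2 * i = k + 1 + 2 * i + 1 := by ring
    have s4 : k + 1 + i = k + i + 1 := by ring
    rw [s1] at e1
    rw [s2] at e2
    rw [s3, s4]
    set X := (k + 1 + 2 * i).choose i
    set X' := (k + 1 + 2 * i + 1).choose i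
    set Y := (k + i).choose i
    set Y' := (k + i + 1).choose i
    set K := (2 * i + 1).choose i
    have hc : 0 < (k + 2 + i) * (k + i + 1) := by positivity
    refine Nat.le_of_mul_le_mul_right ?_ hc
    calc X' * ((k + 2 + i) * (k + i + 1)) = (X' * (k + 2 + i)) * (k + i + 1) := by ring
      _ = (X * (k + 1 + 2 * i + 1)) * (k + i + 1) := by rw [← e1]
      _ ≤ ((K * Y) * (k + 1 + 2 * i + 1)) * (k + i + 1) :=
          Nat.mul_le_mul_right _ (Nat.mul_le_mul_right _ ih)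
      _ = (K * (k + 1 + 2 * i + 1)) * (Y * (k + i + 1)) := by ring
      _ = (K * (k + 1 + 2 * i + 1)) * (Y' * (k + 1)) := by rw [e2]
      _ = (K * Y') * ((k + 1 + 2 * i + 1) * (k + 1)) := by ring
      _ ≤ (K * Y') * ((k + 2 + i) * (k + i + 1)) := by
          refine Nat.mul_le_mul_left _ ?_
          nlinarith

private lemma ratio_desc (k i : ℕ) (hk : 1 ≤ k) :
    k ^ i * (k + 2 * i).descFactorial i ≤ (k + i + 1) ^ i * (k + i - 1).descFactorial i := by
  rw [Nat.descFactorial_eq_prod_range, Nat.descFactorial_eq_prod_range]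
  have h1 : k ^ i * ∏ j ∈ Finset.range i, (k + 2 * i - j) =
      ∏ j ∈ Finset.range i, (k * (k + 2 * i - j)) := by
    rw [Finset.prod_mul_distrib, Finset.prod_const, Finset.card_range]
  have h2 : (k + i + 1) ^ i * ∏ j ∈ Finset.range i, (k + i - 1 - j) =
      ∏ j ∈ Finset.range i, ((k + i + 1) * (k + i - 1 - j)) := by
    rw [Finset.prod_mul_distrib, Finset.prod_const, Finset.card_range]
  rw [h1, h2]
  refine Finset.prod_le_prod' ?_
  intro j hj
  rw [Finset.mem_range] at hj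
  obtain ⟨r, rfl⟩ : ∃ r, i = j + 1 + r := ⟨i - (j + 1), by omega⟩
  have e1 : k + 2 * (j + 1 + r) - j = k + j + 2 + 2 * r := by omega
  have e2 : k + (j + 1 + r) - 1 - j = k + r := by omega
  rw [e1, e2]
  nlinarith

private lemma ratio_exp (k i : ℕ) (hk : 1 ≤ k) (h : i * (i + 1) ≤ 97 * k) :
    (k + i + 1) ^ i ≤ 2 ^ 200 * k ^ i := by
  have hk0 : (0 : ℝ) < (k : ℝ) := by exact_mod_cast hk
  have h1 : ((k : ℝ) + i + 1) = k * (1 + ((i : ℝ) + 1) / k) := by
    field_simp
    ring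
  have h2 : (1 + ((i : ℝ) + 1) / k) ≤ Real.exp (((i : ℝ) + 1) / k) := by
    have := Real.add_one_le_exp (((i : ℝ) + 1) / k)
    linarith
  have h3 : (1 + ((i : ℝ) + 1) / k) ^ i ≤ Real.exp 97 := by
    calc (1 + ((i : ℝ) + 1) / k) ^ i ≤ (Real.exp (((i : ℝ) + 1) / k)) ^ i :=
          pow_le_pow_left₀ (by positivity) h2 i
      _ = Real.exp ((i : ℝ) * (((i : ℝ) + 1) / k)) := by rw [← Real.exp_nat_mul]
      _ ≤ Real.exp 97 := by
          refine Real.exp_le_exp.2 ?_
          rw [← mul_div_assoc, div_le_iff₀ hk0]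
          exact_mod_cast h
  have h4 : Real.exp 97 ≤ 2 ^ 200 := by
    have e1 : Real.exp 97 = (Real.exp 1) ^ 97 := by
      rw [← Real.exp_nat_mul]
      norm_num
    rw [e1]
    have e2 : Real.exp 1 ≤ 3 := by
      have := Real.exp_one_lt_d9
      linarith
    calc (Real.exp 1) ^ 97 ≤ (3 : ℝ) ^ 97 := pow_le_pow_left₀ (Real.exp_pos 1).le e2 97
      _ ≤ 2 ^ 200 := by norm_num
  have h5 : ((k : ℝ) + i + 1) ^ i ≤ 2 ^ 200 * (k : ℝ) ^ i := by
    rw [h1, mul_pow, mul_comm]
    exact mul_le_mul_of_nonneg_right (h3.trans h4) (by positivity)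
  exact_mod_cast h5

theorem choose_ratio {k i : ℕ} (hk : 1 ≤ k) (h : i * (i + 1) ≤ 48 * (k + i)) :
    (k + 2 * i).choose i ≤ 2 ^ 200 * (k + i - 1).choose i := by
  by_cases hi : i ≤ 96
  · obtain ⟨k', rfl⟩ : ∃ k', k = k' + 1 := ⟨k - 1, by omega⟩
    have h1 := ratio_small i k'
    have h2 : k' + 1 + i - 1 = k' + i := by omega
    rw [h2]
    refine h1.trans (Nat.mul_le_mul_right _ ?_)
    calc (2 * i + 1).choose i ≤ 2 ^ (2 * i + 1) := Nat.choose_le_two_pow _ _
      _ ≤ 2 ^ 200 := Nat.pow_le_pow_right (by norm_num) (by omega)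
  · have hi2 : 97 ≤ i := by omega
    have h97 : i * (i + 1) ≤ 97 * k := by nlinarith
    have h1 := ratio_desc k i hk
    rw [Nat.descFactorial_eq_factorial_mul_choose, Nat.descFactorial_eq_factorial_mul_choose] at h1
    have h2 := ratio_exp k i hk h97
    have hc : 0 < k ^ i * i.factorial := Nat.mul_pos (Nat.pow_pos (by omega)) (Nat.factorial_pos i)
    refine Nat.le_of_mul_le_mul_left ?_ hc
    calc k ^ i * i.factorial * (k + 2 * i).choose i
        = k ^ i * (i.factorial * (k + 2 * i).choose i) := by ring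
      _ ≤ (k + i + 1) ^ i * (i.factorial * (k + i - 1).choose i) := h1
      _ ≤ (2 ^ 200 * k ^ i) * (i.factorial * (k + i - 1).choose i) := Nat.mul_le_mul_right _ h2
      _ = k ^ i * i.factorial * (2 ^ 200 * (k + i - 1).choose i) := by ring

theorem growth {k m i : ℕ} (hi : 2 * (i + 1) ≤ m)
    (h : (k + 2 * i).choose i * (m - i) ≤ 12 * (k + 2 * (i + 1)).choose (i + 1)) :
    (i + 1) * (i + 1 + 1) ≤ 48 * (k + (i + 1)) := by
  have e1 : (k + 2 * i + 1 + 1) * (k + 2 * i + 1).choose i =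
      (k + 2 * i + 1 + 1).choose (i + 1) * (i + 1) := Nat.add_one_mul_choose_eq _ _
  have e2 : (k + 2 * i).choose i * (k + 2 * i + 1) =
      (k + 2 * i + 1).choose i * (k + 2 * i + 1 - i) := Nat.choose_mul_succ_eq _ _
  have s1 : k + 2 * i + 1 - i = k + i + 1 := by omega
  have s2 : k + 2 * (i + 1) = k + 2 * i + 1 + 1 := by ring
  rw [s1] at e2
  rw [s2] at h
  have hX : 0 < (k + 2 * i).choose i := Nat.choose_pos (by omega)
  set X := (k + 2 * i).choose i
  set Y := (k + 2 * i + 1).choose i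
  set Z := (k + 2 * i + 1 + 1).choose (i + 1)
  have h1 : X * ((m - i) * ((i + 1) * (k + i + 1))) ≤
      X * (48 * ((k + i + 1) * (k + i + 1))) := by
    calc X * ((m - i) * ((i + 1) * (k + i + 1)))
        = (X * (m - i)) * ((i + 1) * (k + i + 1)) := by ring
      _ ≤ (12 * Z) * ((i + 1) * (k + i + 1)) := Nat.mul_le_mul_right _ h
      _ = 12 * (Z * (i + 1)) * (k + i + 1) := by ring
      _ = 12 * ((k + 2 * i + 1 + 1) * Y) * (k + i + 1) := by rw [e1]
      _ = 12 * (k + 2 * i + 1 + 1) * (Y * (k + i + 1)) := by ring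
      _ = 12 * (k + 2 * i + 1 + 1) * (X * (k + 2 * i + 1)) := by rw [e2]
      _ = X * (12 * ((k + 2 * i + 1 + 1) * (k + 2 * i + 1))) := by ring
      _ ≤ X * (48 * ((k + i + 1) * (k + i + 1))) := by
          refine Nat.mul_le_mul_left _ ?_
          have h2 : k + 2 * i + 1 + 1 ≤ 2 * (k + i + 1) := by omega
          have h3 : k + 2 * i + 1 ≤ 2 * (k + i + 1) := by omega
          have h4 := Nat.mul_le_mul h2 h3
          calc 12 * ((k + 2 * i + 1 + 1) * (k + 2 * i + 1))
              ≤ 12 * (2 * (k + i + 1) * (2 * (k + i + 1))) := Nat.mul_le_mul_left _ h4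
            _ = 48 * ((k + i + 1) * (k + i + 1)) := by ring
  have h2 := Nat.le_of_mul_le_mul_left h1 hX
  have h3 : (m - i) * (i + 1) ≤ 48 * (k + i + 1) := by
    have hc : 0 < k + i + 1 := by omega
    refine Nat.le_of_mul_le_mul_right ?_ hc
    calc (m - i) * (i + 1) * (k + i + 1) = (m - i) * ((i + 1) * (k + i + 1)) := by ring
      _ ≤ 48 * ((k + i + 1) * (k + i + 1)) := h2
      _ = 48 * (k + i + 1) * (k + i + 1) := by ring
  have h4 : i + 2 ≤ m - i := by omega
  calc (i + 1) * (i + 1 + 1) = (i + 2) * (i + 1) := by ring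
    _ ≤ (m - i) * (i + 1) := Nat.mul_le_mul_right _ h4
    _ ≤ 48 * (k + i + 1) := h3
    _ = 48 * (k + (i + 1)) := by ring

end Pool.Agent.H58.KP
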