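import Pool.Agent.H58.KP.Match

set_option autoImplicit false

/-!
# Job KP-15: a ball of radius `m = n - k` is contained in a double translate of some `M_i` (about 90 lines)

`match_to_Mfam`: let `L ⊆ gr π` with `|L| = k + 2 i` and let `X = L.image Prod.fst` (so `|X| = k + 2 i`,
because `L ⊆ gr π`, and `L = {(x, π x) | x ∈ X}`). There is a permutation `β` of `Fin n` with
`β j ∈ X ↔ j.val < k + 2 * i` (both sets have `k + 2 i` elements: `Equiv.extendSubtype` or
`Finset.exists_equiv_extend_of_card_eq`-like lemmas, or any other way). Let `α = β⁻¹ * π⁻¹`. If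
`|dl L σ| ≤ m` then by `card_dl` `n + k + 2 i - 2 |gr σ ∩ L| ≤ n - k`, so `|gr σ ∩ L| ≥ k + i`, i.e.
`σ x = π x` for at least `k + i` of the `x ∈ X`. For `j` with `j.val < k + 2 i`,
`(α * σ * β) j = j ↔ σ (β j) = π (β j)`, so `α * σ * β ∈ Mfam n k i`.

`ball_to_Mfam`: replace `L` by a matching `L₁` (`exists_match`), `L₁ ⊆ gr π` (`match_extend`), `|L₁| ≤ n`. By the
hypothesis there is `σ₀` with `|dl L₁ σ₀| ≤ m`; `card_dl` and `|gr σ₀ ∩ L₁| ≤ |L₁|` give `n - |L₁| ≤ m = n - k`, so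
`|L₁| ≥ k`. Let `i = (|L₁| - k) / 2`. If `|L₁| = k + 2 i` put `L₂ = L₁`; otherwise `|L₁| = k + 2 i + 1` and
`L₂` is `L₁` without one cell. In the second case `|dl L₁ σ| ≤ m` gives `2 |gr σ ∩ L₁| ≥ 2 k + 2 i + 1`, so
`|gr σ ∩ L₁| ≥ k + i + 1`, `|gr σ ∩ L₂| ≥ k + i` and `|dl L₂ σ| ≤ m`. Apply `match_to_Mfam` to `L₂`.
-/

namespace Pool.Agent.H58.KP

open Finset Equiv
open Pool.Agent.H71.KInt

variable {n : ℕ}

theorem match_to_Mfam {k m i : ℕ} (hn : n = k + m) (L : Finset (Fin n × Fin n))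
    (π : Perm (Fin n)) (hL : L ⊆ gr π) (hc : L.card = k + 2 * i) :
    ∃ α β : Perm (Fin n), ∀ σ : Perm (Fin n), (dl L σ).card ≤ m → α * σ * β ∈ Mfam n k i := by
  classical
  have hinj : Set.InjOn Prod.fst (L : Set (Fin n × Fin n)) := by
    intro p hp q hq h
    have h1 := mem_gr.1 (hL (mem_coe.1 hp))
    have h2 := mem_gr.1 (hL (mem_coe.1 hq))
    refine Prod.ext h ?_
    rw [← h1, ← h2, h]
  have hX : (L.image Prod.fst).card = k + 2 * i := by
    rw [card_image_of_injOn hinj, hc]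
  have hXn : k + 2 * i ≤ n := by
    rw [← hX]
    exact (card_le_univ _).trans (by simp)
  have hJ : (univ.filter (fun j : Fin n => j.val < k + 2 * i)).card = k + 2 * i := by
    rw [Fin.card_filter_val_lt]
    omega
  have hcard : Fintype.card {j : Fin n // j.val < k + 2 * i} =
      Fintype.card {x : Fin n // x ∈ L.image Prod.fst} := by
    rw [Fintype.card_subtype, Fintype.card_subtype, hJ]
    have : (univ.filter (fun x : Fin n => x ∈ L.image Prod.fst)) = L.image Prod.fst := by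
      ext x; simp
    rw [this, hX]
  let e : {j : Fin n // j.val < k + 2 * i} ≃ {x : Fin n // x ∈ L.image Prod.fst} :=
    Fintype.equivOfCardEq hcard
  let β : Perm (Fin n) := e.extendSubtype
  have hβ : ∀ j : Fin n, β j ∈ L.image Prod.fst → j.val < k + 2 * i := by
    intro j hj
    by_contra hcon
    exact e.extendSubtype_not_mem j hcon hj
  refine ⟨β⁻¹ * π⁻¹, β, fun σ hσ => ?_⟩
  have h1 := card_dl L σ
  have h2 : k + i ≤ (gr σ ∩ L).card := by omega
  rw [Mfam, mem_filter]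
  refine ⟨mem_univ _, h2.trans ?_⟩
  have hinj2 : Set.InjOn (fun p : Fin n × Fin n => β⁻¹ p.1) ((gr σ ∩ L : Finset _) : Set _) := by
    intro p hp q hq h
    have h3 : p.1 = q.1 := β⁻¹.injective h
    exact hinj (mem_coe.2 (mem_inter.1 (mem_coe.1 hp)).2)
      (mem_coe.2 (mem_inter.1 (mem_coe.1 hq)).2) h3
  rw [← card_image_of_injOn hinj2]
  refine card_le_card ?_
  intro j hj
  rw [mem_image] at hj
  obtain ⟨p, hp, rfl⟩ := hj
  rw [mem_inter] at hp
  rw [mem_filter]
  have h4 : β (β⁻¹ p.1) = p.1 := by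
    rw [← Perm.mul_apply, mul_inv_cancel, Perm.one_apply]
  refine ⟨mem_univ _, hβ _ ?_, ?_⟩
  · rw [h4]
    exact mem_image_of_mem _ hp.2
  · have h5 : σ p.1 = p.2 := mem_gr.1 hp.1
    have h6 : π p.1 = p.2 := mem_gr.1 (hL hp.2)
    have h7 : π⁻¹ p.2 = p.1 := by
      rw [← h6, ← Perm.mul_apply, inv_mul_cancel, Perm.one_apply]
    simp only [Perm.mul_apply]
    rw [h4, h5, h7]

theorem ball_to_Mfam {k m : ℕ} (hn : n = k + m) (L : Finset (Fin n × Fin n))
    (hne : ∃ σ : Perm (Fin n), (dl L σ).card ≤ m) :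
    ∃ i, k + 2 * i ≤ n ∧
      ∃ α β : Perm (Fin n), ∀ σ : Perm (Fin n), (dl L σ).card ≤ m → α * σ * β ∈ Mfam n k i := by
  classical
  obtain ⟨L₁, -, hmatch, hle⟩ := exists_match L
  obtain ⟨π, hπ⟩ := match_extend L₁ hmatch
  have hL₁ : L₁.card ≤ n := (card_le_card hπ).trans (card_gr π).le
  obtain ⟨σ₀, hσ₀⟩ := hne
  have h1 := (hle σ₀).trans hσ₀
  have h2 := card_dl L₁ σ₀
  have h3 : (gr σ₀ ∩ L₁).card ≤ L₁.card := card_le_card inter_subset_right
  have hk : k ≤ L₁.card := by omega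
  rcases Nat.even_or_odd' (L₁.card - k) with ⟨i, hi | hi⟩
  · have hc : L₁.card = k + 2 * i := by omega
    obtain ⟨α, β, hαβ⟩ := match_to_Mfam hn L₁ π hπ hc
    exact ⟨i, by omega, α, β, fun σ hσ => hαβ σ ((hle σ).trans hσ)⟩
  · have hc : L₁.card = k + 2 * i + 1 := by omega
    have hne : L₁.Nonempty := by
      rw [← card_pos]; omega
    obtain ⟨p, hp⟩ := hne
    have hc2 : (L₁.erase p).card = k + 2 * i := by
      rw [card_erase_of_mem hp]; omega
    obtain ⟨α, β, hαβ⟩ := match_to_Mfam hn (L₁.erase p) π ((erase_subset _ _).trans hπ) hc2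
    refine ⟨i, by omega, α, β, fun σ hσ => hαβ σ ?_⟩
    have h4 := (hle σ).trans hσ
    have h5 := card_dl L₁ σ
    have h6 := card_dl (L₁.erase p) σ
    have h7 : (gr σ ∩ L₁).card ≤ (gr σ ∩ L₁.erase p).card + 1 := by
      have : gr σ ∩ L₁ ⊆ insert p (gr σ ∩ L₁.erase p) := by
        intro q hq
        rw [mem_inter] at hq
        rw [mem_insert, mem_inter, mem_erase]
        by_cases hqp : q = p
        · exact Or.inl hqp
        · exact Or.inr ⟨hq.1, hqp, hq.2⟩
      exact (card_le_card this).trans (card_insert_le _ _)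
    omega

end Pool.Agent.H58.KP
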