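import Pool.Agent.H58.KP.Volume
import Pool.Agent.H58.KP.Kernels
import Pool.Agent.H58.KP.ToMfam
import Pool.Agent.H58.KP.Conflict
import Pool.Agent.H58.KP.Ratio

set_option autoImplicit false

/-!
# The final step and the theorem for `m = n - k ≥ 10 ^ 100`
-/

namespace Pool.Agent.H58.KP

open Finset Equiv
open Pool.Agent.H71.KInt
open scoped Nat

/-- If almost all of `A` is in `M_i` then `A = M_i`. -/
theorem eq_Mfam {n k m i : ℕ} (hk : 1 ≤ k) (hn : n = k + m) (hm : 2 ^ 110 ≤ m)
    (hi : k + 2 * i ≤ n) (A : Finset (Perm (Fin n))) (hA : ∀ σ ∈ A, ∀ τ ∈ A, pdist σ τ ≤ m)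
    (hbig : ∀ j, k + 2 * j ≤ n → (Mfam n k j).card ≤ A.card)
    (hrem : m ^ 4 * (A.filter (fun σ => σ ∉ Mfam n k i)).card ≤ A.card) : A = Mfam n k i := by
  classical
  have hm8 : 8 ≤ m := le_trans (by norm_num) hm
  have hMle : (Mfam n k i).card ≤ 2 * ((k + 2 * i).choose i * (m - i)!) := by
    have h := card_Mfam_le hk hi (fun y D h => t_sum h)
    rwa [show n - k - i = m - i by omega] at h
  -- size of `A`
  have hm4 : 2 ≤ m ^ 4 := by
    calc 2 ≤ m := by omega
      _ = m ^ 1 := (pow_one m).symm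
      _ ≤ m ^ 4 := Nat.pow_le_pow_right (by omega) (by norm_num)
  have hsplit : (A.filter (fun σ => σ ∈ Mfam n k i)).card +
      (A.filter (fun σ => σ ∉ Mfam n k i)).card = A.card :=
    card_filter_add_card_filter_not _
  have hin : (A.filter (fun σ => σ ∈ Mfam n k i)).card ≤ (Mfam n k i).card :=
    card_le_card (fun σ hσ => (mem_filter.1 hσ).2)
  have hE := Nat.mul_le_mul_right (A.filter (fun σ => σ ∉ Mfam n k i)).card hm4
  have hA2 : A.card ≤ 2 * (Mfam n k i).card := by omega
  by_contra hne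
  have hex : ∃ τ ∈ A, τ ∉ Mfam n k i := by
    by_contra hcon
    push Not at hcon
    exact hne (eq_of_subset_of_card_le hcon (hbig i hi))
  obtain ⟨τ, hτA, hτ⟩ := hex
  have hc := conflict hk hn hm8 hi τ hτ
  -- the conflicts are not in `A`
  have hc2 : ((Mfam n k i).filter (fun σ => m < pdist σ τ)).card ≤
      (A.filter (fun σ => σ ∉ Mfam n k i)).card := by
    have h1 : (A.filter (fun σ => σ ∈ Mfam n k i)).card +
        ((Mfam n k i).filter (fun σ => m < pdist σ τ)).card ≤ (Mfam n k i).card := by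
      rw [← card_union_of_disjoint]
      · refine card_le_card ?_
        intro σ hσ
        rw [mem_union, mem_filter, mem_filter] at hσ
        rcases hσ with h | h
        · exact h.2
        · exact h.1
      · rw [disjoint_left]
        intro σ h1 h2
        rw [mem_filter] at h1 h2
        have := hA σ h1.1 τ hτA
        omega
    have h2 := hbig i hi
    omega
  -- the condition on `i`
  have hratio : (k + 2 * i).choose i ≤ 2 ^ 200 * (k + i - 1).choose i := by
    apply choose_ratio hk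
    rcases Nat.eq_zero_or_pos i with h0 | h0
    · subst h0; omega
    obtain ⟨j, rfl⟩ : ∃ j, i = j + 1 := ⟨i - 1, by omega⟩
    refine growth (m := m) (by omega) ?_
    have h1 : (k + 2 * j).choose j * (n - k - j)! ≤ 3 * (Mfam n k j).card :=
      card_Mfam_ge (by omega) (by omega)
    have h2 := hbig j (by omega)
    have h3 : n - k - j = (m - (j + 1)) + 1 := by omega
    rw [h3, Nat.factorial_succ] at h1
    have h4 : (m - (j + 1))! * ((k + 2 * j).choose j * (m - j)) ≤
        (m - (j + 1))! * (12 * (k + 2 * (j + 1)).choose (j + 1)) := by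
      have h5 : m - (j + 1) + 1 = m - j := by omega
      rw [h5] at h1
      calc (m - (j + 1))! * ((k + 2 * j).choose j * (m - j))
          = (k + 2 * j).choose j * ((m - j) * (m - (j + 1))!) := by ring
        _ ≤ 3 * (Mfam n k j).card := h1
        _ ≤ 3 * A.card := by omega
        _ ≤ 3 * (2 * (Mfam n k (j + 1)).card) := by omega
        _ ≤ 3 * (2 * (2 * ((k + 2 * (j + 1)).choose (j + 1) * (m - (j + 1))!))) := by gcongr
        _ = _ := by ring
    exact Nat.le_of_mul_le_mul_left h4 (Nat.factorial_pos _)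
  -- final comparison
  have hpos : 0 < (k + i - 1).choose i := Nat.choose_pos (by omega)
  have hfac : (m - i)! ≤ m ^ 2 * (m - i - 2)! := by
    have h1 : m - i = (m - i - 2) + 1 + 1 := by omega
    rw [h1, Nat.factorial_succ, Nat.factorial_succ]
    have h2 : m - i - 2 + 1 + 1 - 2 = m - i - 2 := by omega
    rw [h2]
    calc (m - i - 2 + 1 + 1) * ((m - i - 2 + 1) * (m - i - 2)!)
        ≤ m * (m * (m - i - 2)!) := by
          gcongr
          · omega
          · omega
      _ = _ := by ring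
  have hfin : m ^ 4 * ((k + i - 1).choose i * (m - i - 2)!) ≤
      2 ^ 204 * m ^ 2 * ((k + i - 1).choose i * (m - i - 2)!) := by
    calc m ^ 4 * ((k + i - 1).choose i * (m - i - 2)!)
        ≤ m ^ 4 * (2 * ((Mfam n k i).filter (fun σ => m < pdist σ τ)).card) := by gcongr
      _ ≤ m ^ 4 * (2 * (A.filter (fun σ => σ ∉ Mfam n k i)).card) := by gcongr
      _ = 2 * (m ^ 4 * (A.filter (fun σ => σ ∉ Mfam n k i)).card) := by ring
      _ ≤ 2 * A.card := by gcongr
      _ ≤ 2 * (2 * (Mfam n k i).card) := by gcongr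
      _ ≤ 2 * (2 * (2 * ((k + 2 * i).choose i * (m - i)!))) := by gcongr
      _ ≤ 2 * (2 * (2 * ((2 ^ 200 * (k + i - 1).choose i) * (m ^ 2 * (m - i - 2)!)))) := by
          gcongr
      _ = 2 ^ 203 * m ^ 2 * ((k + i - 1).choose i * (m - i - 2)!) := by ring
      _ ≤ 2 ^ 204 * m ^ 2 * ((k + i - 1).choose i * (m - i - 2)!) := by
          gcongr
          · norm_num
          · norm_num
  have h1 : m ^ 4 ≤ 2 ^ 204 * m ^ 2 :=
    Nat.le_of_mul_le_mul_right hfin (Nat.mul_pos hpos (Nat.factorial_pos _))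
  have h2 : m ^ 2 ≤ 2 ^ 204 := by
    have h3 : m ^ 2 * m ^ 2 ≤ 2 ^ 204 * m ^ 2 := by
      calc m ^ 2 * m ^ 2 = m ^ 4 := by ring
        _ ≤ _ := h1
    exact Nat.le_of_mul_le_mul_right h3 (by positivity)
  have h4 : (2 ^ 110) ^ 2 ≤ m ^ 2 := Nat.pow_le_pow_left hm 2
  have h5 : (2 ^ 110) ^ 2 ≤ 2 ^ 204 := h4.trans h2
  norm_num at h5

/-- The theorem for large `m = n - k`. -/
theorem large {n k m : ℕ} (hk : 1 ≤ k) (hn : n = k + m) (hm : 10 ^ 100 ≤ m)
    (A : Finset (Perm (Fin n))) (hA : ∀ σ ∈ A, ∀ τ ∈ A, pdist σ τ ≤ m)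
    (hbig : ∀ j, k + 2 * j ≤ n → (Mfam n k j).card ≤ A.card) :
    ∃ i, k + 2 * i ≤ n ∧
      ∃ σ τ : Perm (Fin n), A = (Mfam n k i).image (fun π => σ * π * τ) := by
  classical
  have h110 : 2 ^ 110 ≤ m := le_trans (by norm_num) hm
  have hm11 : 11 ≤ m := le_trans (by norm_num) hm
  have hne : A.Nonempty := by
    rw [← card_pos]
    refine lt_of_lt_of_le ?_ (hbig 0 (by omega))
    rw [card_pos]
    exact ⟨1, one_mem_Mfam (by omega)⟩
  have hvol := volume hk hn hm11 hbig
  -- the real number θ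
  obtain ⟨θ, hθ0, hθm⟩ : ∃ θ : ℝ, 0 ≤ θ ∧ θ ^ 16 = (m : ℝ) :=
    ⟨(m : ℝ) ^ ((1 : ℝ) / 16), by positivity, by
      rw [← Real.rpow_natCast, ← Real.rpow_mul (by positivity)]
      norm_num⟩
  have hθ : 11 ^ 6 ≤ θ := by
    have h1 : ((11 : ℝ) ^ 6) ^ 16 ≤ θ ^ 16 := by
      rw [hθm]
      calc ((11 : ℝ) ^ 6) ^ 16 ≤ 10 ^ 100 := by norm_num
        _ ≤ (m : ℝ) := by exact_mod_cast hm
    exact le_of_pow_le_pow_left₀ (by norm_num) hθ0 h1
  obtain ⟨L, hL⟩ := ball_almost hθ hθm A hne hA hvol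
  have hm4 : 2 ≤ m ^ 4 := by
    calc 2 ≤ m := by omega
      _ = m ^ 1 := (pow_one m).symm
      _ ≤ m ^ 4 := Nat.pow_le_pow_right (by omega) (by norm_num)
  have hex : ∃ σ : Perm (Fin n), (dl L σ).card ≤ m := by
    by_contra hcon
    push Not at hcon
    have h1 : A.filter (fun σ => m < (dl L σ).card) = A := filter_true_of_mem (fun σ _ => hcon σ)
    rw [h1] at hL
    have h2 := Nat.mul_le_mul_right A.card hm4
    have h3 := card_pos.2 hne
    omega
  obtain ⟨i, hi, α, β, hαβ⟩ := ball_to_Mfam hn L hex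
  -- the translated family
  have hinj : Function.Injective (fun σ : Perm (Fin n) => α * σ * β) := by
    intro σ τ h
    exact mul_left_cancel (mul_right_cancel h)
  set A' : Finset (Perm (Fin n)) := A.image (fun σ => α * σ * β) with hA'
  have hcard : A'.card = A.card := card_image_of_injective _ hinj
  have hmul : ∀ σ τ : Perm (Fin n), pdist (α * σ * β) (α * τ * β) = pdist σ τ := by
    intro σ τ
    rw [mul_assoc, mul_assoc, pdist_mul_left]
    unfold pdist
    refine card_bij (fun x _ => β x) ?_ ?_ ?_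
    · intro x hx
      rw [mem_filter] at hx ⊢
      exact ⟨mem_univ _, hx.2⟩
    · intro x _ y _ h
      exact β.injective h
    · intro y hy
      rw [mem_filter] at hy
      refine ⟨β⁻¹ y, ?_, by simp⟩
      rw [mem_filter]
      refine ⟨mem_univ _, ?_⟩
      simpa using hy.2
  have hfin := eq_Mfam hk hn h110 hi A' (by
      intro σ hσ τ hτ
      obtain ⟨σ', hσ', rfl⟩ := mem_image.1 hσ
      obtain ⟨τ', hτ', rfl⟩ := mem_image.1 hτ
      rw [hmul]
      exact hA σ' hσ' τ' hτ')
    (by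
      intro j hj
      rw [hcard]
      exact hbig j hj)
    (by
      rw [hcard]
      refine le_trans (Nat.mul_le_mul_left _ ?_) hL
      rw [hA', filter_image]
      refine card_image_le.trans (card_le_card ?_)
      intro σ hσ
      rw [mem_filter] at hσ ⊢
      refine ⟨hσ.1, ?_⟩
      by_contra hcon
      exact hσ.2 (hαβ σ (by omega)))
  refine ⟨i, hi, α⁻¹, β⁻¹, ?_⟩
  rw [← hfin, hA', image_image]
  have : ((fun π : Perm (Fin n) => α⁻¹ * π * β⁻¹) ∘ fun σ => α * σ * β) = id := by
    funext σ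
    simp [mul_assoc]
  rw [this, image_id]

end Pool.Agent.H58.KP
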