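import Pool.Agent.H58.KP.Basic
import Pool.Agent.H58.KP.Spread
import Pool.Agent.H58.KP.CentreNum

set_option autoImplicit false

/-!
# Job KP-11: improving a centre (about 160 lines)

`improve`. Apply `exists_spread` with `S = A`, `D = dl L`, `R = θ ^ 4` to get `F`; let
`AF = {σ ∈ A | F ⊆ dl L σ}`, `f = |F|`, `N = |AF|`. Then `|A| ≤ θ ^ (4 f) * N`, so `N ≥ 1`; for some
`σ ∈ AF`, `f ≤ |dl L σ| ≤ m + s`. Put `L' = symmDiff L F`; for `σ ∈ AF`, `|dl L' σ| + f = |dl L σ|`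
(`card_dl_symmDiff`).

Step 1: `71 f ≤ 95 s + 1`. If `f < s` clear. Otherwise every `σ ∈ AF` has `|dl L' σ| + (f - s) ≤ m`, and
`f - s ≤ m`, so `hvol` with `a = f - s` gives `m ^ (f - s) * N ≤ 6 * 11 ^ (f - s) * |A| ≤
6 * 11 ^ (f - s) * θ ^ (4 f) * N`. Cancel `N`, use `m = θ ^ 16` and `num_centre1`.

Step 2: let `a = 2 s / 5` (natural division; `a + 1 ≤ m` since `s ≤ m`, `m ≥ 2`) and
`B = {σ ∈ AF | |dl L' σ| + (a + 1) ≤ m}`. `hvol` gives `m ^ (a + 1) * |B| ≤ 6 * 11 ^ (a + 1) * |A| ≤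
6 * 11 ^ (a + 1) * θ ^ (4 f) * N`, and `num_centre2` gives `12 * 11 ^ (a + 1) * θ ^ (4 f) ≤ m ^ (a + 1)`, so
`2 |B| ≤ N`. Let `𝒢 = AF \ B`; `2 |𝒢| ≥ N`, `𝒢` is nonempty, and for `σ ∈ 𝒢`: `m ≤ |dl L' σ| + a`.

Step 3: let `τ ∈ A`. Double counting of the pairs `(σ, x)`, `σ ∈ 𝒢`, `x ∈ dl L τ \ F`, `x ∈ dl L σ`: for
`x ∉ F` the number of the `σ ∈ AF` with `x ∈ dl L σ` is at most `N / θ ^ 4` (`exists_spread` with `Z = {x}`;
`F ∪ {x} ⊆ dl L σ`), so the number of the pairs is at most `|dl L τ| * N / θ ^ 4 ≤ 2 m * 2 |𝒢| / θ ^ 4`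
(`|dl L τ| ≤ m + s ≤ 2 m`). So some `σ ∈ 𝒢` satisfies `|(dl L σ \ F) ∩ dl L τ| ≤ 4 m / θ ^ 4 = 4 θ ^ 12`
(`Finset.exists_le_of_sum_le` or by contradiction).

Step 4: for this `σ` put `P = dl L σ \ F = dl L' σ` (`dl L' σ = symmDiff (dl L σ) F` by `dl_symmDiff`, and
`F ⊆ dl L σ`). By `card_symmDiff_add (dl L' σ) (dl L' τ)` and `card_symmDiff_dl L' σ τ` (`= 2 * pdist σ τ`):
`|dl L' τ| = 2 pdist σ τ + 2 |P ∩ dl L' τ| - |P| ≤ 2 m + 2 |P ∩ dl L' τ| - (m - a)`, and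
`P ∩ dl L' τ = P ∩ dl L τ` because `dl L' τ = symmDiff (dl L τ) F` and `P` is disjoint from `F`. So
`|dl L' τ| ≤ m + a + 8 θ ^ 12 ≤ m + 2 s / 5 + 8 θ ^ 12`.
-/

namespace Pool.Agent.H58.KP

open Finset Equiv
open Pool.Agent.H71.KInt

variable {n : ℕ}

theorem improve {m s : ℕ} {θ : ℝ} (hθ : 11 ^ 6 ≤ θ) (hm : θ ^ 16 = (m : ℝ))
    (A : Finset (Perm (Fin n))) (hne : A.Nonempty) (hA : ∀ σ ∈ A, ∀ τ ∈ A, pdist σ τ ≤ m)
    (hvol : ∀ (L : Finset (Fin n × Fin n)) (a : ℕ), a ≤ m →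
      m ^ a * (univ.filter (fun σ : Perm (Fin n) => (dl L σ).card + a ≤ m)).card ≤
        6 * 11 ^ a * A.card)
    (L : Finset (Fin n × Fin n)) (hs : s ≤ m) (hL : ∀ τ ∈ A, (dl L τ).card ≤ m + s) :
    ∃ L' : Finset (Fin n × Fin n), ∀ τ ∈ A,
      ((dl L' τ).card : ℝ) ≤ m + 2 * s / 5 + 8 * θ ^ 12 := by
  classical
  have hθ0 : (0 : ℝ) < θ := lt_of_lt_of_le (by norm_num) hθ
  have hθ1 : (1 : ℝ) ≤ θ := le_trans (by norm_num) hθ
  have hR : (0 : ℝ) < θ ^ 4 := by positivity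
  obtain ⟨F, hF1, hF2⟩ := exists_spread A (fun σ => dl L σ) (θ ^ 4) hR
  set AF := A.filter (fun σ => F ⊆ dl L σ) with hAF
  set f := F.card with hf
  set N := AF.card with hN
  have hpow : (θ ^ 4) ^ f = θ ^ (4 * f) := (pow_mul θ 4 f).symm
  have hpf : (0 : ℝ) < θ ^ (4 * f) := by positivity
  have hA1 : (1 : ℝ) ≤ (A.card : ℝ) := by
    have := Finset.card_pos.2 hne
    exact_mod_cast this
  have hNpos : 0 < N := by
    by_contra h
    have h0 : N = 0 := by omega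
    rw [h0] at hF1
    simp only [Nat.cast_zero, mul_zero] at hF1
    linarith
  have hNr : (0 : ℝ) < (N : ℝ) := by exact_mod_cast hNpos
  have hAFm : ∀ σ ∈ AF, σ ∈ A ∧ F ⊆ dl L σ := fun σ hσ => Finset.mem_filter.1 hσ
  have hcL : ∀ σ ∈ AF, (dl (symmDiff L F) σ).card + f = (dl L σ).card :=
    fun σ hσ => card_dl_symmDiff (hAFm σ hσ).2
  have hfle : f ≤ m + s := by
    obtain ⟨σ, hσ⟩ := Finset.card_pos.1 hNpos
    exact le_trans (Finset.card_le_card (hAFm σ hσ).2) (hL σ (hAFm σ hσ).1)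
  have hmr : ∀ k : ℕ, ((m : ℝ)) ^ k = θ ^ (16 * k) := by
    intro k
    rw [← hm, ← pow_mul]
  -- step 1
  have h71 : 71 * f ≤ 95 * s + 1 := by
    by_cases h : f < s
    · omega
    · have hsf : s ≤ f := not_lt.1 h
      refine num_centre1 hθ hsf ?_
      have hv := hvol (symmDiff L F) (f - s) (by omega)
      have hsub : N ≤ (univ.filter (fun σ : Perm (Fin n) =>
          (dl (symmDiff L F) σ).card + (f - s) ≤ m)).card := by
        refine Finset.card_le_card ?_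
        intro σ hσ
        rw [Finset.mem_filter]
        refine ⟨Finset.mem_univ _, ?_⟩
        have h1 := hcL σ hσ
        have h2 := hL σ (hAFm σ hσ).1
        omega
      have hv2 : m ^ (f - s) * N ≤ 6 * 11 ^ (f - s) * A.card :=
        le_trans (Nat.mul_le_mul_left _ hsub) hv
      have hv3 : (m : ℝ) ^ (f - s) * (N : ℝ) ≤ 6 * 11 ^ (f - s) * (A.card : ℝ) := by
        exact_mod_cast hv2
      have hv4 : (m : ℝ) ^ (f - s) * (N : ℝ) ≤ (6 * 11 ^ (f - s) * θ ^ (4 * f)) * (N : ℝ) := by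
        refine le_trans hv3 ?_
        rw [← hpow, mul_assoc (6 * 11 ^ (f - s)) _ _]
        exact mul_le_mul_of_nonneg_left hF1 (by positivity)
      have hv5 := le_of_mul_le_mul_right hv4 hNr
      rw [hmr] at hv5
      exact hv5
  -- step 2
  have hm2 : 2 ≤ m := by
    have h1 : (2 : ℝ) ≤ (m : ℝ) := by
      rw [← hm]
      calc (2 : ℝ) ≤ 11 ^ 6 := by norm_num
        _ ≤ θ := hθ
        _ = θ ^ 1 := (pow_one θ).symm
        _ ≤ θ ^ 16 := pow_le_pow_right₀ hθ1 (by norm_num)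
    exact_mod_cast h1
  set a := 2 * s / 5 with ha
  have ham : a + 1 ≤ m := by omega
  set B := AF.filter (fun σ => (dl (symmDiff L F) σ).card + (a + 1) ≤ m) with hB
  set G := AF.filter (fun σ => ¬ (dl (symmDiff L F) σ).card + (a + 1) ≤ m) with hG
  have hBG : B.card + G.card = N := Finset.card_filter_add_card_filter_not _
  have hBsub : B.card ≤ (univ.filter (fun σ : Perm (Fin n) =>
      (dl (symmDiff L F) σ).card + (a + 1) ≤ m)).card := by
    refine Finset.card_le_card ?_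
    intro σ hσ
    rw [Finset.mem_filter] at hσ ⊢
    exact ⟨Finset.mem_univ _, hσ.2⟩
  have hv := le_trans (Nat.mul_le_mul_left _ hBsub) (hvol (symmDiff L F) (a + 1) ham)
  have hv3 : (m : ℝ) ^ (a + 1) * (B.card : ℝ) ≤ 6 * 11 ^ (a + 1) * (A.card : ℝ) := by
    exact_mod_cast hv
  have hv4 : (m : ℝ) ^ (a + 1) * (B.card : ℝ) ≤ (6 * 11 ^ (a + 1) * θ ^ (4 * f)) * (N : ℝ) := by
    refine le_trans hv3 ?_
    rw [← hpow, mul_assoc (6 * 11 ^ (a + 1)) _ _]
    exact mul_le_mul_of_nonneg_left hF1 (by positivity)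
  have hc2 := num_centre2 hθ h71
  rw [← ha, ← hmr] at hc2
  have hB2 : 2 * (B.card : ℝ) ≤ (N : ℝ) := by
    have h1 : (12 * 11 ^ (a + 1) * θ ^ (4 * f)) * (B.card : ℝ) ≤
        (6 * 11 ^ (a + 1) * θ ^ (4 * f)) * (N : ℝ) :=
      le_trans (mul_le_mul_of_nonneg_right hc2 (by positivity)) hv4
    have hq : (0 : ℝ) < 6 * 11 ^ (a + 1) * θ ^ (4 * f) := by positivity
    have h2 : (6 * 11 ^ (a + 1) * θ ^ (4 * f)) * (2 * (B.card : ℝ)) ≤
        (6 * 11 ^ (a + 1) * θ ^ (4 * f)) * (N : ℝ) := by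
      refine le_trans (le_of_eq ?_) h1
      ring
    exact le_of_mul_le_mul_left h2 hq
  have hBGr : (B.card : ℝ) + (G.card : ℝ) = (N : ℝ) := by exact_mod_cast hBG
  have hG2 : (N : ℝ) ≤ 2 * (G.card : ℝ) := by linarith
  have hGpos : (0 : ℝ) < (G.card : ℝ) := by linarith
  refine ⟨symmDiff L F, ?_⟩
  intro τ hτ
  -- step 3
  obtain ⟨σ, hσ, hσ2⟩ : ∃ σ ∈ G, (((dl L τ \ F).filter (fun x => x ∈ dl L σ)).card : ℝ) ≤
      4 * θ ^ 12 := by
    by_contra hcon
    push Not at hcon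
    have hlow : (G.card : ℝ) * (4 * θ ^ 12) <
        ∑ σ ∈ G, (((dl L τ \ F).filter (fun x => x ∈ dl L σ)).card : ℝ) := by
      have hGne : G.Nonempty := by
        rw [← Finset.card_pos]
        exact_mod_cast hGpos
      have := Finset.sum_lt_sum_of_nonempty hGne hcon
      simpa using this
    have hswap : ∑ σ ∈ G, (((dl L τ \ F).filter (fun x => x ∈ dl L σ)).card : ℝ) =
        ∑ x ∈ dl L τ \ F, ((G.filter (fun σ => x ∈ dl L σ)).card : ℝ) := by
      have h := Finset.sum_card_bipartiteAbove_eq_sum_card_bipartiteBelow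
        (s := G) (t := dl L τ \ F) (fun σ x => x ∈ dl L σ)
      simp only [Finset.bipartiteAbove, Finset.bipartiteBelow] at h
      exact_mod_cast h
    have hup : ∑ x ∈ dl L τ \ F, ((G.filter (fun σ => x ∈ dl L σ)).card : ℝ) ≤
        ((dl L τ \ F).card : ℝ) * ((N : ℝ) / θ ^ 4) := by
      rw [← nsmul_eq_mul]
      refine Finset.sum_le_card_nsmul _ _ _ ?_
      intro x hx
      rw [Finset.mem_sdiff] at hx
      have h1 := hF2 {x} (Finset.disjoint_singleton_left.2 hx.2)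
      rw [Finset.card_singleton, pow_one] at h1
      rw [le_div_iff₀ hR, mul_comm]
      refine le_trans ?_ h1
      refine mul_le_mul_of_nonneg_left ?_ hR.le
      have h2 : (G.filter (fun σ => x ∈ dl L σ)).card ≤
          (A.filter (fun i => F ∪ {x} ⊆ dl L i)).card := by
        refine Finset.card_le_card ?_
        intro σ hσ
        rw [Finset.mem_filter] at hσ ⊢
        have h3 : σ ∈ AF := (Finset.mem_filter.1 hσ.1).1
        refine ⟨(hAFm σ h3).1, ?_⟩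
        exact Finset.union_subset (hAFm σ h3).2 (Finset.singleton_subset_iff.2 hσ.2)
      exact_mod_cast h2
    have hcard : ((dl L τ \ F).card : ℝ) ≤ 2 * θ ^ 16 := by
      have h1 : (dl L τ \ F).card ≤ 2 * m := by
        refine le_trans (Finset.card_le_card Finset.sdiff_subset) ?_
        have := hL τ hτ
        omega
      rw [hm]
      exact_mod_cast h1
    have hfin : ((dl L τ \ F).card : ℝ) * ((N : ℝ) / θ ^ 4) ≤ (G.card : ℝ) * (4 * θ ^ 12) := by
      have h1 : ((dl L τ \ F).card : ℝ) * ((N : ℝ) / θ ^ 4) ≤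
          (2 * θ ^ 16) * ((2 * (G.card : ℝ)) / θ ^ 4) := by
        refine mul_le_mul hcard ?_ (by positivity) (by positivity)
        exact div_le_div_of_nonneg_right hG2 hR.le
      refine le_trans h1 (le_of_eq ?_)
      have h16 : θ ^ 16 = θ ^ 12 * θ ^ 4 := by ring
      rw [h16]
      field_simp
      ring
    rw [hswap] at hlow
    linarith
  -- step 4
  have hσAF : σ ∈ AF := (Finset.mem_filter.1 hσ).1
  have hσn : ¬ (dl (symmDiff L F) σ).card + (a + 1) ≤ m := (Finset.mem_filter.1 hσ).2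
  have hint : dl (symmDiff L F) σ ∩ dl (symmDiff L F) τ =
      (dl L τ \ F).filter (fun x => x ∈ dl L σ) := by
    ext x
    rw [dl_symmDiff, dl_symmDiff]
    have hsubx : x ∈ F → x ∈ dl L σ := fun h => (hAFm σ hσAF).2 h
    simp only [Finset.mem_inter, Finset.mem_symmDiff, Finset.mem_filter, Finset.mem_sdiff]
    by_cases h1 : x ∈ F
    · simp [h1, hsubx h1]
    · by_cases h2 : x ∈ dl L τ <;> simp [h1, h2]
  have h1 := card_symmDiff_add (dl (symmDiff L F) σ) (dl (symmDiff L F) τ)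
  rw [card_symmDiff_dl, hint] at h1
  have h2 := hA σ (hAFm σ hσAF).1 τ hτ
  have h3 : (dl (symmDiff L F) τ).card ≤
      m + a + 2 * ((dl L τ \ F).filter (fun x => x ∈ dl L σ)).card := by omega
  have h4 : ((dl (symmDiff L F) τ).card : ℝ) ≤
      m + a + 2 * (((dl L τ \ F).filter (fun x => x ∈ dl L σ)).card : ℝ) := by
    exact_mod_cast h3
  have h5 : (a : ℝ) ≤ 2 * s / 5 := by
    have h6 : 5 * a ≤ 2 * s := by omega
    have h7 : (5 : ℝ) * a ≤ 2 * s := by exact_mod_cast h6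
    linarith
  linarith

end Pool.Agent.H58.KP
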