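import Pool.Agent.H58.KP.Basic

set_option autoImplicit false

/-!
# Job KP-1: reduction of a centre to a matching (about 70 lines)

`exists_match`: strong induction on `L.card`. If `L` is a matching take `L' = L`. Otherwise there are
cells `p ≠ q` of `L` in the same row or in the same column. The graph `gr σ` is a matching
(`gr_isMatch`), so it contains at most one of `p, q`. Let `L1 = (L.erase p).erase q`. By `card_dl`,
`|dl L σ| = n + |L| - 2 |gr σ ∩ L|`, `|L1| = |L| - 2` and `|gr σ ∩ L1| ≥ |gr σ ∩ L| - 1`, so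
`|dl L1 σ| ≤ |dl L σ|`. Apply the induction hypothesis to `L1`.

`match_extend`: for a matching `L` the map `p.1 ↦ p.2` is a bijection from the set of the rows of `L` to the
set of the columns of `L`; it extends to a permutation of `Fin n`, for instance by
`Equiv.extendSubtype` (Mathlib.Logic.Equiv.Fintype), applied to an equivalence
`{x // x ∈ L.image Prod.fst} ≃ {y // y ∈ L.image Prod.snd}`. (Another way: induction on `L`, composing
with a transposition.)
-/

namespace Pool.Agent.H58.KP

open Finset Equiv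
open Pool.Agent.H71.KInt

variable {n : ℕ}

/-- One step of the reduction. -/
theorem match_step (L : Finset (Fin n × Fin n)) {p q : Fin n × Fin n} (hp : p ∈ L) (hq : q ∈ L)
    (hpq : p ≠ q) (h : p.1 = q.1 ∨ p.2 = q.2) (σ : Perm (Fin n)) :
    (dl ((L.erase p).erase q) σ).card ≤ (dl L σ).card := by
  have hq' : q ∈ L.erase p := mem_erase.2 ⟨hpq.symm, hq⟩
  have c1 := card_erase_of_mem hp
  have c2 := card_erase_of_mem hq'
  have c3 : 0 < L.card := card_pos.2 ⟨p, hp⟩
  have c4 : 0 < (L.erase p).card := card_pos.2 ⟨q, hq'⟩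
  have d1 := card_dl L σ
  have d2 := card_dl ((L.erase p).erase q) σ
  have key : (gr σ ∩ L).card ≤ (gr σ ∩ ((L.erase p).erase q)).card + 1 := by
    by_cases hpg : p ∈ gr σ
    · have hqg : q ∉ gr σ := fun hqg => hpq (gr_isMatch σ p hpg q hqg h)
      have hsub : gr σ ∩ L ⊆ insert p (gr σ ∩ ((L.erase p).erase q)) := by
        intro r hr
        rw [mem_inter] at hr
        by_cases hrp : r = p
        · rw [hrp]; exact mem_insert_self _ _
        · refine mem_insert_of_mem (mem_inter.2 ⟨hr.1, mem_erase.2 ⟨?_, mem_erase.2 ⟨hrp, hr.2⟩⟩⟩)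
          rintro rfl
          exact hqg hr.1
      exact (card_le_card hsub).trans (card_insert_le _ _)
    · have hsub : gr σ ∩ L ⊆ insert q (gr σ ∩ ((L.erase p).erase q)) := by
        intro r hr
        rw [mem_inter] at hr
        by_cases hrq : r = q
        · rw [hrq]; exact mem_insert_self _ _
        · refine mem_insert_of_mem (mem_inter.2 ⟨hr.1, mem_erase.2 ⟨hrq, mem_erase.2 ⟨?_, hr.2⟩⟩⟩)
          rintro rfl
          exact hpg hr.1
      exact (card_le_card hsub).trans (card_insert_le _ _)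
  omega

/-- Every centre can be replaced by a matching. -/
theorem exists_match (L : Finset (Fin n × Fin n)) :
    ∃ L' ⊆ L, IsMatch L' ∧ ∀ σ : Perm (Fin n), (dl L' σ).card ≤ (dl L σ).card := by
  induction L using Finset.strongInduction with
  | H L ih =>
    by_cases hL : IsMatch L
    · exact ⟨L, Subset.refl _, hL, fun σ => le_refl _⟩
    · unfold IsMatch at hL
      push Not at hL
      obtain ⟨p, hp, q, hq, h, hpq⟩ := hL
      have hss : (L.erase p).erase q ⊂ L :=
        lt_of_le_of_lt (erase_subset _ _) (erase_ssubset hp)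
      obtain ⟨L', hL', hm, hc⟩ := ih _ hss
      exact ⟨L', hL'.trans hss.1, hm, fun σ => (hc σ).trans (match_step L hp hq hpq h σ)⟩

/-- A matching is contained in the graph of a permutation. -/
theorem match_extend (L : Finset (Fin n × Fin n)) (hL : IsMatch L) :
    ∃ π : Perm (Fin n), L ⊆ gr π := by
  classical
  let f : {l // l ∈ L} → {x // x ∈ L.image Prod.fst} := fun l =>
    ⟨l.1.1, mem_image_of_mem _ l.2⟩
  let g : {l // l ∈ L} → {y // y ∈ L.image Prod.snd} := fun l =>
    ⟨l.1.2, mem_image_of_mem _ l.2⟩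
  have hf : Function.Bijective f := by
    constructor
    · intro a b hab
      exact Subtype.ext (hL _ a.2 _ b.2 (Or.inl (congrArg Subtype.val hab)))
    · rintro ⟨x, hx⟩
      obtain ⟨l, hl, rfl⟩ := mem_image.1 hx
      exact ⟨⟨l, hl⟩, rfl⟩
  have hg : Function.Bijective g := by
    constructor
    · intro a b hab
      exact Subtype.ext (hL _ a.2 _ b.2 (Or.inr (congrArg Subtype.val hab)))
    · rintro ⟨x, hx⟩
      obtain ⟨l, hl, rfl⟩ := mem_image.1 hx
      exact ⟨⟨l, hl⟩, rfl⟩
  let e : {x // x ∈ L.image Prod.fst} ≃ {y // y ∈ L.image Prod.snd} :=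
    (Equiv.ofBijective f hf).symm.trans (Equiv.ofBijective g hg)
  refine ⟨e.extendSubtype, fun l hl => ?_⟩
  rw [mem_gr]
  have hl' : l.1 ∈ L.image Prod.fst := mem_image_of_mem _ hl
  rw [Equiv.extendSubtype_apply_of_mem e l.1 hl']
  have h1 : (Equiv.ofBijective f hf).symm ⟨l.1, hl'⟩ = ⟨l, hl⟩ := by
    rw [Equiv.symm_apply_eq]
    rfl
  have h2 : e ⟨l.1, hl'⟩ = g ⟨l, hl⟩ := by
    change (Equiv.ofBijective g hg) ((Equiv.ofBijective f hf).symm ⟨l.1, hl'⟩) = _
    rw [h1]
    rfl
  rw [h2]

end Pool.Agent.H58.KP
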