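import Mathlib

set_option autoImplicit false

/-!
# Job KP-4: the numbers `(n - y).choose d * (y + d)!` (about 90 lines)

`t_mono1`: if `y + 2 * d + 1 ≤ n` then
`(y + 2 * d + 1) * ((n - y).choose d * (y + d)!) ≤ 4 * ((n - (y + 1)).choose d * (y + 1 + d)!)`.
Proof: write `n - y = N + 1`; `(N + 1).choose d * (N + 1 - d) = N.choose d * (N + 1)`
(`Nat.choose_mul_succ_eq : n.choose k * (n + 1) = (n + 1).choose k * (n + 1 - k)`), and
`N + 1 ≥ 2 d + 1`, so `N + 1 ≤ 2 (N + 1 - d)`, hence `(N + 1).choose d ≤ 2 * N.choose d`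
(cancel `N + 1 - d > 0`). Also `y + 2 d + 1 ≤ 2 (y + 1 + d)` and `(y + 1 + d)! = (y + 1 + d) * (y + d)!`.

`t_mono`: induction on `a` (generalizing `y`), from `t_mono1` and
`m.descFactorial (a + 1) = (m - a) * m.descFactorial a` where `m - a = y + 2 d + 1` if `y + 2 d + (a + 1) = m`. For
`a = 0` both sides are equal.

`pow_desc`: `4 ^ a * m ^ a ≤ 11 ^ a * m.descFactorial a` for `a ≤ m`. Fix `b = m - a` and use induction on
`a`: with `m = b + a` the quotient of `(b + a + 1) ^ (a + 1) / (b + a + 1).descFactorial (a + 1)` and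
`(b + a) ^ a / (b + a).descFactorial a` is `((b + a + 1) / (b + a)) ^ a ≤ (1 + 1 / m) ^ m ≤ e ≤ 11 / 4`
(`Real.add_one_le_exp`, `Real.exp_one_lt_d9` (or `Real.exp_one_lt_three`-like lemmas with the better
constant)), because `(m + 1).descFactorial (a + 1) = (m + 1) * m.descFactorial a`
(`Nat.succ_descFactorial_succ`). (For `a = 0` trivial; `m = 0` trivial.)

`t_final`: multiply `t_mono` by `11 ^ a` and `pow_desc` by `(n - y).choose d * (y + d)!` and cancel `4 ^ a`.
-/

namespace Pool.Agent.H58.KP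

open Finset
open scoped Nat

theorem t_mono1 {n y d : ℕ} (h : y + 2 * d + 1 ≤ n) :
    (y + 2 * d + 1) * ((n - y).choose d * (y + d)!) ≤
      4 * ((n - (y + 1)).choose d * (y + 1 + d)!) := by
  obtain ⟨N, hN⟩ : ∃ N, n = y + N + 1 := ⟨n - y - 1, by omega⟩
  have h1 : n - y = N + 1 := by omega
  have h2 : n - (y + 1) = N := by omega
  rw [h1, h2]
  have hd : 2 * d ≤ N := by omega
  have hid := Nat.choose_mul_succ_eq N d
  have hle : (N + 1).choose d ≤ 2 * N.choose d := by
    have h3 : N + 1 ≤ 2 * (N + 1 - d) := by omega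
    have h4 : (N + 1).choose d * (N + 1) ≤ (2 * N.choose d) * (N + 1) := by
      calc (N + 1).choose d * (N + 1) ≤ (N + 1).choose d * (2 * (N + 1 - d)) :=
            Nat.mul_le_mul_left _ h3
        _ = 2 * ((N + 1).choose d * (N + 1 - d)) := by ring
        _ = 2 * (N.choose d * (N + 1)) := by rw [hid]
        _ = (2 * N.choose d) * (N + 1) := by ring
    exact Nat.le_of_mul_le_mul_right h4 (Nat.succ_pos N)
  have hf : (y + 1 + d)! = (y + 1 + d) * (y + d)! := by
    have : y + 1 + d = (y + d) + 1 := by ring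
    rw [this, Nat.factorial_succ]
  rw [hf]
  calc (y + 2 * d + 1) * ((N + 1).choose d * (y + d)!)
      ≤ (2 * (y + 1 + d)) * ((2 * N.choose d) * (y + d)!) :=
        Nat.mul_le_mul (by omega) (Nat.mul_le_mul_right _ hle)
    _ = 4 * (N.choose d * ((y + 1 + d) * (y + d)!)) := by ring

theorem t_mono {n m : ℕ} (hmn : m ≤ n) (d : ℕ) : ∀ a y : ℕ, y + 2 * d + a = m →
    m.descFactorial a * ((n - y).choose d * (y + d)!) ≤
      4 ^ a * ((n - m + 2 * d).choose d * (m - d)!) := by
  intro a
  induction a with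
  | zero =>
    intro y hy
    have h1 : n - m + 2 * d = n - y := by omega
    have h2 : m - d = y + d := by omega
    rw [h1, h2]
    simp
  | succ a ih =>
    intro y hy
    have h1 := ih (y + 1) (by omega)
    have h2 : m - a = y + 2 * d + 1 := by omega
    rw [Nat.descFactorial_succ, h2]
    have h3 := t_mono1 (n := n) (y := y) (d := d) (by omega)
    calc (y + 2 * d + 1) * m.descFactorial a * ((n - y).choose d * (y + d)!)
        = m.descFactorial a * ((y + 2 * d + 1) * ((n - y).choose d * (y + d)!)) := by ring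
      _ ≤ m.descFactorial a * (4 * ((n - (y + 1)).choose d * (y + 1 + d)!)) :=
          Nat.mul_le_mul_left _ h3
      _ = 4 * (m.descFactorial a * ((n - (y + 1)).choose d * (y + 1 + d)!)) := by ring
      _ ≤ 4 * (4 ^ a * ((n - m + 2 * d).choose d * (m - d)!)) := Nat.mul_le_mul_left _ h1
      _ = 4 ^ (a + 1) * ((n - m + 2 * d).choose d * (m - d)!) := by ring

theorem tnum_pow_succ {m a : ℕ} (h : a ≤ m) : 4 * (m + 1) ^ a ≤ 11 * m ^ a := by
  rcases Nat.eq_zero_or_pos m with hm | hm
  · have ha : a = 0 := by omega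
    subst ha
    simp
  · have hm' : (0 : ℝ) < m := by exact_mod_cast hm
    have h1 : ((m : ℝ) + 1) = m * (1 / m + 1) := by
      field_simp
      ring
    have h2 : (1 / (m : ℝ) + 1) ^ a ≤ Real.exp 1 := by
      calc (1 / (m : ℝ) + 1) ^ a ≤ (Real.exp (1 / m)) ^ a :=
            pow_le_pow_left₀ (by positivity) (Real.add_one_le_exp _) _
        _ = Real.exp (a * (1 / m)) := (Real.exp_nat_mul _ _).symm
        _ ≤ Real.exp 1 := by
            apply Real.exp_le_exp.2
            rw [mul_one_div, div_le_one hm']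
            exact_mod_cast h
    have h3 : Real.exp 1 < 11 / 4 := by
      have := Real.exp_one_lt_d9
      linarith
    have h4 : (4 : ℝ) * ((m : ℝ) + 1) ^ a ≤ 11 * (m : ℝ) ^ a := by
      rw [h1, mul_pow]
      have h5 : (0 : ℝ) < (m : ℝ) ^ a := by positivity
      nlinarith [mul_le_mul_of_nonneg_left (h2.trans h3.le) h5.le]
    exact_mod_cast h4

theorem pow_desc {m a : ℕ} (h : a ≤ m) : 4 ^ a * m ^ a ≤ 11 ^ a * m.descFactorial a := by
  obtain ⟨b, rfl⟩ : ∃ b, m = b + a := ⟨m - a, by omega⟩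
  clear h
  induction a with
  | zero => simp
  | succ a ih =>
    have h1 : b + (a + 1) = (b + a) + 1 := by ring
    rw [h1, Nat.succ_descFactorial_succ]
    have h2 := tnum_pow_succ (m := b + a) (a := a) (by omega)
    calc 4 ^ (a + 1) * (b + a + 1) ^ (a + 1)
        = 4 ^ a * (b + a + 1) * (4 * (b + a + 1) ^ a) := by ring
      _ ≤ 4 ^ a * (b + a + 1) * (11 * (b + a) ^ a) := Nat.mul_le_mul_left _ h2
      _ = 11 * (b + a + 1) * (4 ^ a * (b + a) ^ a) := by ring
      _ ≤ 11 * (b + a + 1) * (11 ^ a * (b + a).descFactorial a) := Nat.mul_le_mul_left _ ih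
      _ = 11 ^ (a + 1) * ((b + a + 1) * (b + a).descFactorial a) := by ring

theorem t_final {n m d a y : ℕ} (hmn : m ≤ n) (h : y + 2 * d + a = m) :
    m ^ a * ((n - y).choose d * (y + d)!) ≤ 11 ^ a * ((n - m + 2 * d).choose d * (m - d)!) := by
  have h1 := t_mono hmn d a y h
  have h2 := pow_desc (m := m) (a := a) (by omega)
  have h4 : 0 < 4 ^ a := by positivity
  apply Nat.le_of_mul_le_mul_left _ h4
  calc 4 ^ a * (m ^ a * ((n - y).choose d * (y + d)!))
      = (4 ^ a * m ^ a) * ((n - y).choose d * (y + d)!) := by ring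
    _ ≤ (11 ^ a * m.descFactorial a) * ((n - y).choose d * (y + d)!) := Nat.mul_le_mul_right _ h2
    _ = 11 ^ a * (m.descFactorial a * ((n - y).choose d * (y + d)!)) := by ring
    _ ≤ 11 ^ a * (4 ^ a * ((n - m + 2 * d).choose d * (m - d)!)) := Nat.mul_le_mul_left _ h1
    _ = 4 ^ a * (11 ^ a * ((n - m + 2 * d).choose d * (m - d)!)) := by ring

end Pool.Agent.H58.KP
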