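import Pool.Agent.H58.KP.Miss
import Pool.Agent.H58.KP.Tnum

set_option autoImplicit false

/-!
# Job KP-5: the size of `M_i` (about 120 lines)

`Mfam n k i` (`Pool.Agent.H71.KInt.Mfam`) is the set of the permutations with at least `k + i` fixed points among
the first `k + 2 i` points. Let `X` be the set of the first `k + 2 i` points, `|X| = k + 2 i`
(`Fin.card_filter_val_lt`).

`card_Mfam_ge`: for every `D ∈ X.powersetCard i` consider the permutations with support (set of the moved
points) exactly `D ∪ Xᶜ`; they fix the `k + i` points of `X \ D`, so they are in `Mfam n k i`; for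
different `D` they are different (`D = support ∩ X`), and their number is
`numDerangements (n - k - i)` (`Pool.Agent.H71.KInt.card_supp_eq`, `|D ∪ Xᶜ| = i + (n - k - 2 i)`), and
`Pool.Agent.H71.KInt.card_supp_family` counts the permutations whose support is in a family of sets of the same
size; finally `Pool.Agent.H71.KInt.three_mul_numDerangements_ge : 2 ≤ r → r ! ≤ 3 * numDerangements r` with
`r = n - k - i ≥ 2`.

`card_Mfam_le`: `Mfam n k i` is contained in the union over `d ≤ i` of the sets of `card_miss_le` with `π = 1`, so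
`|Mfam n k i| ≤ ∑ d ∈ range (i + 1), (k + 2 i).choose d * (n - (k + 2 i) + d)!`; with `y = n - (k + 2 i)`
this is `∑ d ∈ range (i + 1), (n - y).choose d * (y + d)!`, and by the hypothesis `hsum` (proved as `t_sum`
in job KP-3, stated here as a hypothesis to make the files independent) it is at most
`2 * ((n - y).choose i * (y + i)!)`, `y + i = n - k - i`; `y + 2 * i < n` since `1 ≤ k`.
-/

namespace Pool.Agent.H58.KP

open Finset Equiv
open Pool.Agent.H71.KInt
open scoped Nat

/-- the first points -/
def mcX (n m : ℕ) : Finset (Fin n) := univ.filter (fun j : Fin n => j.val < m)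

theorem card_mcX {n m : ℕ} (h : m ≤ n) : (mcX n m).card = m := by
  unfold mcX
  rw [Fin.card_filter_val_lt, min_eq_right h]

theorem mc_fix {n m : ℕ} (π : Perm (Fin n)) :
    univ.filter (fun j : Fin n => j.val < m ∧ π j = j) = (mcX n m).filter (fun j => π j = j) := by
  unfold mcX
  rw [filter_filter]

theorem card_Mfam_ge {n k i : ℕ} (hi : k + 2 * i ≤ n) (h4 : 4 ≤ n - k) :
    (k + 2 * i).choose i * (n - k - i)! ≤ 3 * (Mfam n k i).card := by
  classical
  set X := mcX n (k + 2 * i) with hX
  have hXc : X.card = k + 2 * i := card_mcX hi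
  set 𝒳 := (X.powersetCard i).image (fun D => D ∪ Xᶜ) with h𝒳
  have hcard : 𝒳.card = (k + 2 * i).choose i := by
    rw [h𝒳, card_image_of_injOn, card_powersetCard, hXc]
    intro D hD D' hD' h
    rw [mem_coe, mem_powersetCard] at hD hD'
    simp only at h
    have e : ∀ E : Finset (Fin n), E ⊆ X → (E ∪ Xᶜ) ∩ X = E := by
      intro E hE
      ext x
      simp only [mem_inter, mem_union, mem_compl]
      constructor
      · rintro ⟨h1 | h1, h2⟩
        · exact h1
        · exact absurd h2 h1
      · intro h1
        exact ⟨Or.inl h1, hE h1⟩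
    rw [← e D hD.1, ← e D' hD'.1, h]
  have hsize : ∀ Y ∈ 𝒳, Y.card = n - k - i := by
    intro Y hY
    rw [h𝒳, mem_image] at hY
    obtain ⟨D, hD, rfl⟩ := hY
    rw [mem_powersetCard] at hD
    rw [card_union_of_disjoint, card_compl, Fintype.card_fin, hD.2, hXc]
    · omega
    · exact disjoint_compl_right.mono_left hD.1
  have h1 := card_supp_family 𝒳 (n - k - i) hsize
  have hsub : univ.filter (fun τ : Perm (Fin n) => τ.support ∈ 𝒳) ⊆ Mfam n k i := by
    intro τ hτ
    rw [mem_filter] at hτ
    obtain ⟨D, hD, hDτ⟩ := mem_image.1 hτ.2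
    rw [mem_powersetCard] at hD
    unfold Mfam
    rw [mem_filter, mc_fix]
    refine ⟨mem_univ _, ?_⟩
    have h2 : X \ D ⊆ (mcX n (k + 2 * i)).filter (fun j => τ j = j) := by
      intro x hx
      rw [mem_sdiff] at hx
      rw [mem_filter]
      refine ⟨hx.1, ?_⟩
      rw [← Perm.notMem_support, ← hDτ, mem_union, mem_compl]
      rintro (h3 | h3)
      · exact hx.2 h3
      · exact h3 hx.1
    have h3 := card_le_card h2
    rw [card_sdiff_of_subset hD.1, hD.2, hXc] at h3
    omega
  have h2 := card_le_card hsub
  rw [h1, hcard] at h2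
  have h3 := three_mul_numDerangements_ge (n - k - i) (by omega)
  calc (k + 2 * i).choose i * (n - k - i)! ≤ (k + 2 * i).choose i * (3 * numDerangements (n - k - i)) :=
        Nat.mul_le_mul_left _ h3
    _ = 3 * ((k + 2 * i).choose i * numDerangements (n - k - i)) := by ring
    _ ≤ 3 * (Mfam n k i).card := Nat.mul_le_mul_left _ h2

theorem card_Mfam_le {n k i : ℕ} (hk : 1 ≤ k) (hi : k + 2 * i ≤ n)
    (hsum : ∀ y D : ℕ, y + 2 * D < n →
      ∑ d ∈ range (D + 1), (n - y).choose d * (y + d)! ≤ 2 * ((n - y).choose D * (y + D)!)) :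
    (Mfam n k i).card ≤ 2 * ((k + 2 * i).choose i * (n - k - i)!) := by
  classical
  set X := mcX n (k + 2 * i) with hX
  have hXc : X.card = k + 2 * i := card_mcX hi
  have hsub : Mfam n k i ⊆ (range (i + 1)).biUnion (fun d => univ.filter
      (fun σ : Perm (Fin n) => (X.filter (fun x => σ x ≠ (1 : Perm (Fin n)) x)).card = d)) := by
    intro σ hσ
    unfold Mfam at hσ
    rw [mem_filter, mc_fix] at hσ
    rw [mem_biUnion]
    refine ⟨(X.filter (fun x => σ x ≠ (1 : Perm (Fin n)) x)).card, ?_, ?_⟩
    · have h1 := card_filter_add_card_filter_not (s := X) (fun x => σ x = x)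
      have h2 : (X.filter (fun x => σ x ≠ (1 : Perm (Fin n)) x)) = X.filter (fun x => ¬ σ x = x) := rfl
      rw [mem_range, h2]
      have h3 := hσ.2
      rw [hXc] at h1
      have h4 : (X.filter (fun x => σ x = x)).card =
          ((mcX n (k + 2 * i)).filter (fun j => σ j = j)).card := rfl
      omega
    · rw [mem_filter]
      exact ⟨mem_univ _, rfl⟩
  have h1 := card_le_card hsub
  have h2 : ((range (i + 1)).biUnion (fun d => univ.filter
      (fun σ : Perm (Fin n) => (X.filter (fun x => σ x ≠ (1 : Perm (Fin n)) x)).card = d))).card ≤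
      ∑ d ∈ range (i + 1), (n - (n - (k + 2 * i))).choose d * (n - (k + 2 * i) + d)! := by
    refine card_biUnion_le.trans (sum_le_sum fun d _ => ?_)
    have h3 := card_miss_le (1 : Perm (Fin n)) X d
    rw [hXc] at h3
    have h4 : n - (n - (k + 2 * i)) = k + 2 * i := by omega
    rw [h4]
    exact h3
  have h3 := hsum (n - (k + 2 * i)) i (by omega)
  have h4 : n - (n - (k + 2 * i)) = k + 2 * i := by omega
  have h5 : n - (k + 2 * i) + i = n - k - i := by omega
  rw [h5] at h3
  refine h1.trans (h2.trans (h3.trans ?_))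
  rw [h4]

end Pool.Agent.H58.KP
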