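import Mathlib

set_option autoImplicit false

/-!
# Job KP-7: one step of the spread lemma (about 130 lines)

Setting: `G j`, `j ∈ J`, are subsets of `Y` with at most `M` elements such that for every set `Z` at most
`Λ / κ ^ |Z|` of them contain `Z`. For `W` and `j ∈ J` let `j'` be an element of `J` with `G j' ⊆ W ∪ G j` such that
`|G j' \ W|` is minimal (`j` itself is a candidate), and `T W j = G j' \ W` (`Finset.exists_min_image`; for `j ∉ J`
put `T W j = ∅`). Then `T W j ⊆ G j`, `T W j` is disjoint from `W` and `G j' ⊆ W ∪ T W j`.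

The estimate. Fix `t`. Let `Q` be the set of the pairs `(W, j)`, `W ⊆ Y`, `j ∈ J`, `|T W j| = t`. Then
`∑ W ∈ Y.powerset, q ^ (|Y| - |W|) * |{j ∈ J | |T W j| = t}| = ∑ (W, j) ∈ Q, q ^ (|Y| - |W|)`.
For every `Z ⊆ Y` that contains a member of the family choose `j*(Z) ∈ J` with `G (j*(Z)) ⊆ Z`. Let
`(W, j) ∈ Q` and `Z = W ∪ T W j`. Then `Z ⊆ Y`, `Z` contains the member `G j'` from the definition of `T W j`,
so `j* = j*(Z)` is defined; `G j* ⊆ Z ⊆ W ∪ G j`, so by the minimality `|G j* \ W| ≥ |T W j|`; on the other hand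
`G j* \ W ⊆ T W j`. So `T W j = G j* \ W ⊆ G j*`. Hence the map `(W, j) ↦ (Z, T W j, j)` is injective on `Q`
(`W = Z \ T W j`) and its values `(Z, T, j)` satisfy: `Z ⊆ Y`, `T ∈ (G (j*(Z))).powersetCard t`, `T ⊆ G j`; moreover
`|W| = |Z| - t`, so `q ^ (|Y| - |W|) = q ^ t * q ^ (|Y| - |Z|)`. Therefore
`∑ (W, j) ∈ Q, q ^ (|Y| - |W|) ≤ ∑ Z ∈ Y.powerset, q ^ t * q ^ (|Y| - |Z|) * (∑ T ∈ (G (j*(Z))).powersetCard t,
 |{j ∈ J | T ⊆ G j}|)`. Multiply by `κ ^ t`: `κ ^ t * |{j ∈ J | T ⊆ G j}| ≤ Λ`, the number of the `T` is at most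
`M.choose t` (`Nat.choose_le_choose`), and `∑ Z ∈ Y.powerset, q ^ (|Y| - |Z|) = (1 + q) ^ |Y|`
(`Finset.sum_pow_mul_eq_add_pow` with `a = 1`). `0 ≤ Λ` follows from `hspread ∅`.
-/

namespace Pool.Agent.H58.KP

open Finset

variable {ι α : Type*} [DecidableEq ι] [DecidableEq α]

theorem one_step (J : Finset ι) (G : ι → Finset α) (Y : Finset α) (hG : ∀ j ∈ J, G j ⊆ Y)
    (M : ℕ) (hM : ∀ j ∈ J, (G j).card ≤ M) (Λ κ : ℝ) (hκ : 0 < κ)
    (hspread : ∀ Z : Finset α, κ ^ Z.card * ((J.filter (fun j => Z ⊆ G j)).card : ℝ) ≤ Λ)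
    (q : ℝ) (hq : 0 ≤ q) :
    ∃ T : Finset α → ι → Finset α,
      (∀ W : Finset α, ∀ j ∈ J, T W j ⊆ G j ∧ Disjoint (T W j) W ∧
        ∃ j' ∈ J, G j' ⊆ W ∪ T W j) ∧
      ∀ t : ℕ, κ ^ t * ∑ W ∈ Y.powerset, q ^ (Y.card - W.card) *
          ((J.filter (fun j => (T W j).card = t)).card : ℝ) ≤
        (1 + q) ^ Y.card * ((M.choose t : ℝ) * q ^ t * Λ) := by
  classical
  -- the minimal members
  have hmin : ∀ (W : Finset α) (j : ι), ∃ j' : ι, j ∈ J → (j' ∈ J ∧ G j' ⊆ W ∪ G j ∧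
      ∀ j'' ∈ J, G j'' ⊆ W ∪ G j → (G j' \ W).card ≤ (G j'' \ W).card) := by
    intro W j
    by_cases hj : j ∈ J
    · have hne : (J.filter (fun j' => G j' ⊆ W ∪ G j)).Nonempty :=
        ⟨j, mem_filter.2 ⟨hj, subset_union_right⟩⟩
      obtain ⟨j', hj', hmin⟩ := exists_min_image _ (fun j' => (G j' \ W).card) hne
      rw [mem_filter] at hj'
      exact ⟨j', fun _ => ⟨hj'.1, hj'.2, fun j'' h1 h2 => hmin j'' (mem_filter.2 ⟨h1, h2⟩)⟩⟩
    · exact ⟨j, fun h => absurd h hj⟩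
  choose f hf using hmin
  let T : Finset α → ι → Finset α := fun W j => G (f W j) \ W
  have hT1 : ∀ W : Finset α, ∀ j ∈ J, T W j ⊆ G j := by
    intro W j hj x hx
    obtain ⟨_, h2, _⟩ := hf W j hj
    rw [mem_sdiff] at hx
    rcases mem_union.1 (h2 hx.1) with h | h
    · exact absurd h hx.2
    · exact h
  have hT2 : ∀ W : Finset α, ∀ j : ι, Disjoint (T W j) W := fun W j => sdiff_disjoint
  have hT3 : ∀ W : Finset α, ∀ j : ι, G (f W j) ⊆ W ∪ T W j := by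
    intro W j x hx
    by_cases h : x ∈ W
    · exact mem_union_left _ h
    · exact mem_union_right _ (mem_sdiff.2 ⟨hx, h⟩)
  refine ⟨T, fun W j hj => ⟨hT1 W j hj, hT2 W j, f W j, (hf W j hj).1, hT3 W j⟩, fun t => ?_⟩
  -- a member inside Z
  have hst : ∀ Z : Finset α, ∃ S : Finset α, S.card ≤ M ∧
      ((∃ j ∈ J, G j ⊆ Z) → ∃ j ∈ J, S = G j ∧ G j ⊆ Z) := by
    intro Z
    by_cases h : ∃ j ∈ J, G j ⊆ Z
    · obtain ⟨j, hj, hjZ⟩ := h
      exact ⟨G j, hM j hj, fun _ => ⟨j, hj, rfl, hjZ⟩⟩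
    · exact ⟨∅, by simp, fun h' => absurd h' h⟩
  choose S hS1 hS2 using hst
  let Q : Finset ((_ : Finset α) × ι) :=
    Y.powerset.sigma (fun W => J.filter (fun j => (T W j).card = t))
  let R : Finset ((_ : Finset α) × (_ : Finset α) × ι) :=
    Y.powerset.sigma (fun Z => ((S Z).powersetCard t).sigma (fun T' => J.filter (fun j => T' ⊆ G j)))
  let e : ((_ : Finset α) × ι) → ((_ : Finset α) × (_ : Finset α) × ι) :=
    fun p => ⟨p.1 ∪ T p.1 p.2, T p.1 p.2, p.2⟩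
  have hmem : ∀ p ∈ Q, p.1 ⊆ Y ∧ p.2 ∈ J ∧ (T p.1 p.2).card = t := by
    intro p hp
    have := mem_sigma.1 hp
    rw [mem_powerset, mem_filter] at this
    exact ⟨this.1, this.2.1, this.2.2⟩
  have hZY : ∀ p ∈ Q, p.1 ∪ T p.1 p.2 ⊆ Y := by
    intro p hp
    obtain ⟨h1, h2, _⟩ := hmem p hp
    exact union_subset h1 ((hT1 _ _ h2).trans (hG _ h2))
  have hcard : ∀ p ∈ Q, (p.1 ∪ T p.1 p.2).card = p.1.card + t := by
    intro p hp
    obtain ⟨_, _, h3⟩ := hmem p hp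
    rw [card_union_of_disjoint (hT2 _ _).symm, h3]
  have he : ∀ p ∈ Q, e p ∈ R := by
    intro p hp
    obtain ⟨h1, h2, h3⟩ := hmem p hp
    have hZ : ∃ j ∈ J, G j ⊆ p.1 ∪ T p.1 p.2 := ⟨f p.1 p.2, (hf p.1 p.2 h2).1, hT3 _ _⟩
    obtain ⟨js, hjs, hSj, hjZ⟩ := hS2 _ hZ
    have h4 : G js ⊆ p.1 ∪ G p.2 := hjZ.trans (union_subset_union_right (hT1 _ _ h2))
    have h5 : (T p.1 p.2).card ≤ (G js \ p.1).card := (hf p.1 p.2 h2).2.2 js hjs h4
    have h6 : G js \ p.1 ⊆ T p.1 p.2 := by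
      intro x hx
      rw [mem_sdiff] at hx
      rcases mem_union.1 (hjZ hx.1) with h | h
      · exact absurd h hx.2
      · exact h
    have h7 : G js \ p.1 = T p.1 p.2 := eq_of_subset_of_card_le h6 h5
    have h8 : T p.1 p.2 ⊆ S (p.1 ∪ T p.1 p.2) := by
      rw [hSj, ← h7]
      exact sdiff_subset
    refine mem_sigma.2 ⟨mem_powerset.2 (hZY p hp), mem_sigma.2 ⟨mem_powersetCard.2 ⟨h8, h3⟩, ?_⟩⟩
    exact mem_filter.2 ⟨h2, hT1 _ _ h2⟩
  have hinj : Set.InjOn e (Q : Set ((_ : Finset α) × ι)) := by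
    rintro ⟨W, j⟩ _ ⟨W', j'⟩ _ h
    have h1 : W ∪ T W j = W' ∪ T W' j' := congrArg Sigma.fst h
    have h2 : (⟨T W j, j⟩ : (_ : Finset α) × ι) = ⟨T W' j', j'⟩ := by
      have := congrArg Sigma.snd h
      exact this
    have h3 : T W j = T W' j' := congrArg Sigma.fst h2
    have h4 : j = j' := congrArg Sigma.snd h2
    have h5 : W = (W ∪ T W j) \ T W j := by
      rw [union_sdiff_right]
      exact (sdiff_eq_self_of_disjoint (hT2 W j).symm).symm
    have h6 : W' = (W' ∪ T W' j') \ T W' j' := by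
      rw [union_sdiff_right]
      exact (sdiff_eq_self_of_disjoint (hT2 W' j').symm).symm
    have h7 : W = W' := by rw [h5, h1, h3, ← h6]
    subst h7
    subst h4
    rfl
  let w : ((_ : Finset α) × (_ : Finset α) × ι) → ℝ := fun y => q ^ t * q ^ (Y.card - y.1.card)
  have hw0 : ∀ y, 0 ≤ w y := fun y => mul_nonneg (pow_nonneg hq _) (pow_nonneg hq _)
  have hL : ∑ W ∈ Y.powerset, q ^ (Y.card - W.card) *
      ((J.filter (fun j => (T W j).card = t)).card : ℝ) = ∑ p ∈ Q, w (e p) := by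
    have h1 : ∑ p ∈ Q, w (e p) = ∑ p ∈ Q, q ^ (Y.card - p.1.card) := by
      refine sum_congr rfl fun p hp => ?_
      have h2 := hcard p hp
      have h3 := card_le_card (hZY p hp)
      change q ^ t * q ^ (Y.card - (p.1 ∪ T p.1 p.2).card) = _
      rw [← pow_add]
      congr 1
      omega
    rw [h1, sum_sigma]
    refine sum_congr rfl fun W _ => ?_
    change _ = ∑ s ∈ J.filter (fun j => (T W j).card = t), q ^ (Y.card - W.card)
    rw [sum_const, nsmul_eq_mul, mul_comm]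
  have hLR : ∑ p ∈ Q, w (e p) ≤ ∑ y ∈ R, w y := by
    rw [← sum_image (f := w) hinj]
    refine sum_le_sum_of_subset_of_nonneg ?_ fun y _ _ => hw0 y
    intro y hy
    obtain ⟨p, hp, rfl⟩ := mem_image.1 hy
    exact he p hp
  have hΛ : 0 ≤ Λ := le_trans (by positivity) (hspread ∅)
  have hR : κ ^ t * ∑ y ∈ R, w y ≤ ∑ Z ∈ Y.powerset, q ^ (Y.card - Z.card) *
      ((M.choose t : ℝ) * q ^ t * Λ) := by
    rw [sum_sigma, mul_sum]
    refine sum_le_sum fun Z _ => ?_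
    rw [sum_sigma]
    have h1 : ∀ T' ∈ (S Z).powersetCard t,
        κ ^ t * ∑ j ∈ J.filter (fun j => T' ⊆ G j), w ⟨Z, T', j⟩ ≤
          (q ^ t * q ^ (Y.card - Z.card)) * Λ := by
      intro T' hT'
      have h2 := hspread T'
      rw [(mem_powersetCard.1 hT').2] at h2
      have h3 : ∑ j ∈ J.filter (fun j => T' ⊆ G j), w ⟨Z, T', j⟩ =
          ((J.filter (fun j => T' ⊆ G j)).card : ℝ) * (q ^ t * q ^ (Y.card - Z.card)) := by
        change ∑ j ∈ J.filter (fun j => T' ⊆ G j), q ^ t * q ^ (Y.card - Z.card) = _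
        rw [sum_const, nsmul_eq_mul]
      rw [h3]
      calc κ ^ t * (((J.filter (fun j => T' ⊆ G j)).card : ℝ) * (q ^ t * q ^ (Y.card - Z.card)))
          = (q ^ t * q ^ (Y.card - Z.card)) *
            (κ ^ t * ((J.filter (fun j => T' ⊆ G j)).card : ℝ)) := by ring
        _ ≤ (q ^ t * q ^ (Y.card - Z.card)) * Λ :=
            mul_le_mul_of_nonneg_left h2 (mul_nonneg (pow_nonneg hq _) (pow_nonneg hq _))
    rw [mul_sum]
    refine (sum_le_sum h1).trans ?_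
    rw [sum_const, card_powersetCard, nsmul_eq_mul]
    have h4 : ((S Z).card.choose t : ℝ) ≤ (M.choose t : ℝ) := by
      exact_mod_cast Nat.choose_le_choose t (hS1 Z)
    calc ((S Z).card.choose t : ℝ) * ((q ^ t * q ^ (Y.card - Z.card)) * Λ)
        ≤ (M.choose t : ℝ) * ((q ^ t * q ^ (Y.card - Z.card)) * Λ) :=
          mul_le_mul_of_nonneg_right h4
            (mul_nonneg (mul_nonneg (pow_nonneg hq _) (pow_nonneg hq _)) hΛ)
      _ = q ^ (Y.card - Z.card) * ((M.choose t : ℝ) * q ^ t * Λ) := by ring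
  have hfin : ∑ Z ∈ Y.powerset, q ^ (Y.card - Z.card) = (1 + q) ^ Y.card := by
    have := Finset.sum_pow_mul_eq_add_pow (1 : ℝ) q Y
    simpa using this
  rw [hL]
  calc κ ^ t * ∑ p ∈ Q, w (e p) ≤ κ ^ t * ∑ y ∈ R, w y :=
        mul_le_mul_of_nonneg_left hLR (pow_nonneg hκ.le _)
    _ ≤ ∑ Z ∈ Y.powerset, q ^ (Y.card - Z.card) * ((M.choose t : ℝ) * q ^ t * Λ) := hR
    _ = (1 + q) ^ Y.card * ((M.choose t : ℝ) * q ^ t * Λ) := by rw [← sum_mul, hfin]

end Pool.Agent.H58.KP
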