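import Pool.Agent.H58.KP.OneStep

set_option autoImplicit false

/-!
# Job KP-8: two rounds of the spread lemma (about 160 lines)

`sum_pairs`: `∑ W1 ⊆ X, ∑ W2 ⊆ X \ W1, f (W1 ∪ W2) = ∑ S ⊆ X, 2 ^ |S| * f S` (the pairs with union `S`
correspond to the subsets `W1` of `S`; e.g. `Finset.sum_sigma'`/`Finset.sum_bij'` with
`(W1, W2) ↦ (W1 ∪ W2, W1)`, `(S, W1) ↦ (W1, S \ W1)`).

`two_round`: let `N = |X|`, `B` the set of the bad `S` (those that contain no `G j`). Apply `one_step` with `Y = X`,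
`q = 3` to get `T`. For every `W1 ⊆ X` let `J1(W1) = {j ∈ J | |T W1 j| ≤ M1}` and apply `one_step` to the family
`j ↦ T W1 j`, `j ∈ J1(W1)`, `Y = X \ W1`, the bound `M1`, the same `Λ, κ` (the spread condition is inherited from
`T W1 j ⊆ G j`) and `q = 2`, to get `T' W1`. Call `j ∈ J` bad for `(W1, W2)` (`W2 ⊆ X \ W1`) if `|T W1 j| > M1` or
(`|T W1 j| ≤ M1` and `T' W1 W2 j ≠ ∅`). If some `j ∈ J` is not bad for `(W1, W2)` then `T' W1 W2 j = ∅`, so there is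
`j' ∈ J1(W1)` with `T W1 j' ⊆ W2 ∪ ∅`, and `j'' ∈ J` with `G j'' ⊆ W1 ∪ T W1 j' ⊆ W1 ∪ W2`. So if
`W1 ∪ W2 ∈ B` then all `j ∈ J` are bad for `(W1, W2)`. Give the pair the weight `2 ^ (N - |W1| - |W2|)`. Then
`|J| * ∑_{W1 ∪ W2 ∈ B} 2 ^ (N - |W1| - |W2|) ≤ ∑_{(W1, W2)} 2 ^ (N - |W1| - |W2|) * nbad(W1, W2)`.
Left side: by `sum_pairs` with `f S = 2 ^ (N - |S|)` for `S ∈ B`, `0` otherwise, it is `|J| * 2 ^ N * |B|`.
Right side: `nbad ≤ ∑_{t = M1+1}^{M} |{j ∈ J | |T W1 j| = t}| + ∑_{t=1}^{M1} |{j ∈ J1(W1) | |T' W1 W2 j| = t}|`.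
The first part: `∑_{W2 ⊆ X \ W1} 2 ^ (N - |W1| - |W2|) = 3 ^ (N - |W1|)` (`Finset.sum_pow_mul_eq_add_pow`), then
`one_step` with `q = 3` gives at most `4 ^ N * (M.choose t) * (3 / κ) ^ t * Λ` for every `t`. The second part: for
fixed `W1`, `one_step` with `q = 2` gives at most `3 ^ (N - |W1|) * (M1.choose t) * (2 / κ) ^ t * Λ`, and
`∑ W1 ⊆ X, 3 ^ (N - |W1|) = 4 ^ N`. With `h1`, `h2`: right side `≤ 4 ^ N * Λ * (1/16 + 1/16) ≤ 4 ^ N * |J| / 4`
(`Λ ≤ 2 |J|`). Cancel `|J| * 2 ^ N`: `|B| ≤ 2 ^ N / 4`.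
-/

namespace Pool.Agent.H58.KP

open Finset

theorem sum_pairs {α : Type*} [DecidableEq α] (X : Finset α) (f : Finset α → ℝ) :
    ∑ W1 ∈ X.powerset, ∑ W2 ∈ (X \ W1).powerset, f (W1 ∪ W2) =
      ∑ S ∈ X.powerset, 2 ^ S.card * f S := by
  have h1 : ∀ S ∈ X.powerset, (2 : ℝ) ^ S.card * f S = ∑ _W1 ∈ S.powerset, f S := by
    intro S _
    rw [Finset.sum_const, Finset.card_powerset, nsmul_eq_mul]
    push_cast
    rfl
  rw [Finset.sum_congr rfl h1, Finset.sum_sigma', Finset.sum_sigma']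
  refine Finset.sum_bij' (fun p _ => ⟨p.1 ∪ p.2, p.1⟩) (fun p _ => ⟨p.2, p.1 \ p.2⟩) ?_ ?_ ?_ ?_ ?_
  · rintro ⟨W1, W2⟩ h
    simp only [Finset.mem_sigma, Finset.mem_powerset] at h ⊢
    exact ⟨Finset.union_subset h.1 (h.2.trans Finset.sdiff_subset), Finset.subset_union_left⟩
  · rintro ⟨S, W1⟩ h
    simp only [Finset.mem_sigma, Finset.mem_powerset] at h ⊢
    exact ⟨h.2.trans h.1, Finset.sdiff_subset_sdiff h.1 le_rfl⟩
  · rintro ⟨W1, W2⟩ h
    simp only [Finset.mem_sigma, Finset.mem_powerset] at h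
    have hd : Disjoint W2 W1 := Finset.disjoint_of_subset_left h.2 Finset.sdiff_disjoint
    have h2 : (W1 ∪ W2) \ W1 = W2 := by
      rw [Finset.union_sdiff_left, Finset.sdiff_eq_self_of_disjoint hd]
    simp only [h2]
  · rintro ⟨S, W1⟩ h
    simp only [Finset.mem_sigma, Finset.mem_powerset] at h
    have h2 : W1 ∪ S \ W1 = S := Finset.union_sdiff_of_subset h.2
    simp only [h2]
  · rintro ⟨W1, W2⟩ h
    rfl

/-- the sum of the weights of all subsets -/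
theorem sum_weights {α : Type*} [DecidableEq α] (Y : Finset α) (q : ℝ) :
    ∑ W ∈ Y.powerset, q ^ (Y.card - W.card) = (1 + q) ^ Y.card := by
  have h := Finset.sum_pow_mul_eq_add_pow (1 : ℝ) q Y
  rw [← h]
  exact Finset.sum_congr rfl fun W _ => by rw [one_pow, one_mul]

theorem two_round {ι α : Type*} [DecidableEq ι] [DecidableEq α] (J : Finset ι)
    (G : ι → Finset α) (X : Finset α) (hG : ∀ j ∈ J, G j ⊆ X) (M M1 : ℕ)
    (hM : ∀ j ∈ J, (G j).card ≤ M) (Λ κ : ℝ) (hκ : 0 < κ)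
    (hspread : ∀ Z : Finset α, κ ^ Z.card * ((J.filter (fun j => Z ⊆ G j)).card : ℝ) ≤ Λ)
    (hJ : J.Nonempty) (hΛ : Λ ≤ 2 * (J.card : ℝ))
    (h1 : ∑ t ∈ Icc (M1 + 1) M, (M.choose t : ℝ) * (3 / κ) ^ t ≤ 1 / 16)
    (h2 : ∑ t ∈ Icc 1 M1, (M1.choose t : ℝ) * (2 / κ) ^ t ≤ 1 / 16) :
    4 * (X.powerset.filter (fun S => ∀ j ∈ J, ¬ G j ⊆ S)).card ≤ 2 ^ X.card := by
  have hJ0 : (0 : ℝ) < J.card := Nat.cast_pos.mpr hJ.card_pos
  have hΛ0 : 0 ≤ Λ := by
    refine le_trans ?_ (hspread ∅)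
    positivity
  obtain ⟨T, hT, hTs⟩ := one_step J G X hG M hM Λ κ hκ hspread 3 (by norm_num)
  set J1 : Finset α → Finset ι := fun W1 => J.filter (fun j => (T W1 j).card ≤ M1) with hJ1
  have hJ1mem : ∀ W1 j, j ∈ J1 W1 ↔ j ∈ J ∧ (T W1 j).card ≤ M1 := by
    intro W1 j
    simp only [hJ1, Finset.mem_filter]
  have hex : ∀ W1 : Finset α, ∃ T' : Finset α → ι → Finset α,
      (∀ W : Finset α, ∀ j ∈ J1 W1, T' W j ⊆ T W1 j ∧ Disjoint (T' W j) W ∧
        ∃ j' ∈ J1 W1, T W1 j' ⊆ W ∪ T' W j) ∧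
      ∀ t : ℕ, κ ^ t * ∑ W ∈ (X \ W1).powerset, (2 : ℝ) ^ ((X \ W1).card - W.card) *
          (((J1 W1).filter (fun j => (T' W j).card = t)).card : ℝ) ≤
        (1 + 2) ^ (X \ W1).card * ((M1.choose t : ℝ) * 2 ^ t * Λ) := by
    intro W1
    refine one_step (J1 W1) (fun j => T W1 j) (X \ W1) ?_ M1 ?_ Λ κ hκ ?_ 2 (by norm_num)
    · intro j hj
      have hj' := ((hJ1mem W1 j).1 hj).1
      have h3 := hT W1 j hj'
      refine Finset.subset_sdiff.2 ⟨h3.1.trans (hG j hj'), h3.2.1⟩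
    · intro j hj
      exact ((hJ1mem W1 j).1 hj).2
    · intro Z
      refine le_trans (mul_le_mul_of_nonneg_left ?_ (by positivity)) (hspread Z)
      refine Nat.cast_le.2 (Finset.card_le_card ?_)
      intro j hj
      rw [Finset.mem_filter] at hj ⊢
      have hj' := ((hJ1mem W1 j).1 hj.1).1
      exact ⟨hj', hj.2.trans (hT W1 j hj').1⟩
  choose T' hT' hTs' using hex
  -- the number of bad indices
  set na : Finset α → ℕ → ℝ := fun W1 t => ((J.filter (fun j => (T W1 j).card = t)).card : ℝ)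
    with hna
  set nb : Finset α → Finset α → ℕ → ℝ := fun W1 W2 t =>
    (((J1 W1).filter (fun j => (T' W1 W2 j).card = t)).card : ℝ) with hnb
  have hbad : ∀ W1 W2 : Finset α, (∀ j ∈ J, ¬ G j ⊆ W1 ∪ W2) →
      (J.card : ℝ) ≤ ∑ t ∈ Icc (M1 + 1) M, na W1 t + ∑ t ∈ Icc 1 M1, nb W1 W2 t := by
    intro W1 W2 hB
    have hsub : J ⊆ (Icc (M1 + 1) M).biUnion (fun t => J.filter (fun j => (T W1 j).card = t)) ∪
        (Icc 1 M1).biUnion (fun t => (J1 W1).filter (fun j => (T' W1 W2 j).card = t)) := by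
      intro j hj
      by_cases hc : (T W1 j).card ≤ M1
      · have hj1 : j ∈ J1 W1 := (hJ1mem W1 j).2 ⟨hj, hc⟩
        obtain ⟨h3, -, j', hj', h4⟩ := hT' W1 W2 j hj1
        refine Finset.mem_union_right _ (Finset.mem_biUnion.2 ⟨(T' W1 W2 j).card, ?_, ?_⟩)
        · rw [Finset.mem_Icc]
          refine ⟨Nat.one_le_iff_ne_zero.2 ?_, (Finset.card_le_card h3).trans hc⟩
          intro h0
          rw [Finset.card_eq_zero] at h0
          rw [h0, Finset.union_empty] at h4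
          obtain ⟨-, -, j'', hj'', h5⟩ := hT W1 j' ((hJ1mem W1 j').1 hj').1
          exact hB j'' hj'' (h5.trans (Finset.union_subset_union_right h4))
        · exact Finset.mem_filter.2 ⟨hj1, rfl⟩
      · push Not at hc
        refine Finset.mem_union_left _ (Finset.mem_biUnion.2 ⟨(T W1 j).card, ?_, ?_⟩)
        · rw [Finset.mem_Icc]
          exact ⟨hc, (Finset.card_le_card (hT W1 j hj).1).trans (hM j hj)⟩
        · exact Finset.mem_filter.2 ⟨hj, rfl⟩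
    have h3 := Finset.card_le_card hsub
    have h4 := (h3.trans (Finset.card_union_le _ _)).trans
      (Nat.add_le_add Finset.card_biUnion_le Finset.card_biUnion_le)
    have h5 : (J.card : ℝ) ≤ ((∑ t ∈ Icc (M1 + 1) M, (J.filter (fun j => (T W1 j).card = t)).card +
        ∑ t ∈ Icc 1 M1, ((J1 W1).filter (fun j => (T' W1 W2 j).card = t)).card : ℕ) : ℝ) :=
      Nat.cast_le.2 h4
    push_cast at h5
    exact h5
  -- the basic inequality
  set N := X.card with hN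
  have hcard : ∀ W1 ∈ X.powerset, (X \ W1).card = N - W1.card := by
    intro W1 hW1
    rw [Finset.mem_powerset] at hW1
    rw [Finset.card_sdiff_of_subset hW1]
  classical
  set B := X.powerset.filter (fun S => ∀ j ∈ J, ¬ G j ⊆ S) with hB
  have hleft : ∑ W1 ∈ X.powerset, ∑ W2 ∈ (X \ W1).powerset,
      (if ∀ j ∈ J, ¬ G j ⊆ W1 ∪ W2 then (2 : ℝ) ^ (N - (W1 ∪ W2).card) else 0) =
      2 ^ N * (B.card : ℝ) := by
    rw [sum_pairs X (fun S => if ∀ j ∈ J, ¬ G j ⊆ S then (2 : ℝ) ^ (N - S.card) else 0)]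
    have h3 : ∀ S ∈ X.powerset, (2 : ℝ) ^ S.card *
        (if ∀ j ∈ J, ¬ G j ⊆ S then (2 : ℝ) ^ (N - S.card) else 0) =
        if ∀ j ∈ J, ¬ G j ⊆ S then (2 : ℝ) ^ N else 0 := by
      intro S hS
      have hSc : S.card ≤ N := Finset.card_le_card (Finset.mem_powerset.1 hS)
      split_ifs
      · rw [← pow_add, Nat.add_sub_cancel' hSc]
      · rw [mul_zero]
    rw [Finset.sum_congr rfl h3, ← Finset.sum_filter, Finset.sum_const, nsmul_eq_mul, mul_comm]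
  have hmain : (J.card : ℝ) * (2 ^ N * (B.card : ℝ)) ≤
      ∑ W1 ∈ X.powerset, ∑ W2 ∈ (X \ W1).powerset, (2 : ℝ) ^ ((X \ W1).card - W2.card) *
        (∑ t ∈ Icc (M1 + 1) M, na W1 t + ∑ t ∈ Icc 1 M1, nb W1 W2 t) := by
    rw [← hleft, Finset.mul_sum]
    refine Finset.sum_le_sum fun W1 hW1 => ?_
    rw [Finset.mul_sum]
    refine Finset.sum_le_sum fun W2 hW2 => ?_
    have hnn : 0 ≤ ∑ t ∈ Icc (M1 + 1) M, na W1 t + ∑ t ∈ Icc 1 M1, nb W1 W2 t :=
      add_nonneg (Finset.sum_nonneg fun t _ => Nat.cast_nonneg _)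
        (Finset.sum_nonneg fun t _ => Nat.cast_nonneg _)
    split_ifs with h
    · have h3 : N - (W1 ∪ W2).card = (X \ W1).card - W2.card := by
        have hd : Disjoint W1 W2 := (Finset.disjoint_of_subset_left (Finset.mem_powerset.1 hW2)
          Finset.sdiff_disjoint).symm
        rw [Finset.card_union_of_disjoint hd, hcard W1 hW1, Nat.sub_sub]
      rw [h3, mul_comm]
      exact mul_le_mul_of_nonneg_left (hbad W1 W2 h) (by positivity)
    · rw [mul_zero]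
      exact mul_nonneg (by positivity) hnn
  -- first part
  have hsum4 : ∑ W1 ∈ X.powerset, (3 : ℝ) ^ (N - W1.card) = 4 ^ N := by
    have h3 := sum_weights X 3
    rw [← hN] at h3
    rw [h3]
    norm_num
  have hpart1 : ∑ W1 ∈ X.powerset, ∑ W2 ∈ (X \ W1).powerset,
      (2 : ℝ) ^ ((X \ W1).card - W2.card) * ∑ t ∈ Icc (M1 + 1) M, na W1 t ≤
      4 ^ N * Λ * (1 / 16) := by
    have h3 : ∑ W1 ∈ X.powerset, ∑ W2 ∈ (X \ W1).powerset,
        (2 : ℝ) ^ ((X \ W1).card - W2.card) * ∑ t ∈ Icc (M1 + 1) M, na W1 t =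
        ∑ t ∈ Icc (M1 + 1) M, ∑ W1 ∈ X.powerset, (3 : ℝ) ^ (N - W1.card) * na W1 t := by
      rw [Finset.sum_comm]
      refine Finset.sum_congr rfl fun W1 hW1 => ?_
      rw [← Finset.sum_mul, sum_weights, hcard W1 hW1, ← Finset.mul_sum]
      norm_num
    rw [h3]
    have h4 : ∀ t ∈ Icc (M1 + 1) M, ∑ W1 ∈ X.powerset, (3 : ℝ) ^ (N - W1.card) * na W1 t ≤
        4 ^ N * Λ * ((M.choose t : ℝ) * (3 / κ) ^ t) := by
      intro t _
      have h5 := hTs t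
      have h6 : (0 : ℝ) < κ ^ t := by positivity
      rw [← le_div_iff₀' h6] at h5
      refine h5.trans (le_of_eq ?_)
      rw [div_pow]
      norm_num
      field_simp
    refine (Finset.sum_le_sum h4).trans ?_
    rw [← Finset.mul_sum]
    exact mul_le_mul_of_nonneg_left h1 (by positivity)
  have hpart2 : ∑ W1 ∈ X.powerset, ∑ W2 ∈ (X \ W1).powerset,
      (2 : ℝ) ^ ((X \ W1).card - W2.card) * ∑ t ∈ Icc 1 M1, nb W1 W2 t ≤
      4 ^ N * Λ * (1 / 16) := by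
    have h3 : ∀ W1 ∈ X.powerset, ∑ W2 ∈ (X \ W1).powerset,
        (2 : ℝ) ^ ((X \ W1).card - W2.card) * ∑ t ∈ Icc 1 M1, nb W1 W2 t ≤
        3 ^ (N - W1.card) * (Λ * (1 / 16)) := by
      intro W1 hW1
      have h4 : ∑ W2 ∈ (X \ W1).powerset,
          (2 : ℝ) ^ ((X \ W1).card - W2.card) * ∑ t ∈ Icc 1 M1, nb W1 W2 t =
          ∑ t ∈ Icc 1 M1, ∑ W2 ∈ (X \ W1).powerset,
            (2 : ℝ) ^ ((X \ W1).card - W2.card) * nb W1 W2 t := by
        rw [Finset.sum_comm]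
        exact Finset.sum_congr rfl fun W2 _ => by rw [Finset.mul_sum]
      rw [h4]
      have h5 : ∀ t ∈ Icc 1 M1, ∑ W2 ∈ (X \ W1).powerset,
            (2 : ℝ) ^ ((X \ W1).card - W2.card) * nb W1 W2 t ≤
          3 ^ (N - W1.card) * Λ * ((M1.choose t : ℝ) * (2 / κ) ^ t) := by
        intro t _
        have h5 := hTs' W1 t
        have h6 : (0 : ℝ) < κ ^ t := by positivity
        rw [← le_div_iff₀' h6] at h5
        refine h5.trans (le_of_eq ?_)
        rw [div_pow, hcard W1 hW1]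
        norm_num
        field_simp
      refine (Finset.sum_le_sum h5).trans ?_
      rw [← Finset.mul_sum, mul_assoc (3 ^ (N - W1.card)) Λ _]
      refine mul_le_mul_of_nonneg_left ?_ (by positivity)
      exact mul_le_mul_of_nonneg_left h2 hΛ0
    refine (Finset.sum_le_sum h3).trans (le_of_eq ?_)
    rw [← Finset.sum_mul, hsum4]
    ring
  have hfin : (J.card : ℝ) * (2 ^ N * (B.card : ℝ)) ≤ 4 ^ N * Λ * (1 / 8) := by
    refine hmain.trans ?_
    have h3 : ∑ W1 ∈ X.powerset, ∑ W2 ∈ (X \ W1).powerset, (2 : ℝ) ^ ((X \ W1).card - W2.card) *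
        (∑ t ∈ Icc (M1 + 1) M, na W1 t + ∑ t ∈ Icc 1 M1, nb W1 W2 t) =
        ∑ W1 ∈ X.powerset, ∑ W2 ∈ (X \ W1).powerset,
          (2 : ℝ) ^ ((X \ W1).card - W2.card) * ∑ t ∈ Icc (M1 + 1) M, na W1 t +
        ∑ W1 ∈ X.powerset, ∑ W2 ∈ (X \ W1).powerset,
          (2 : ℝ) ^ ((X \ W1).card - W2.card) * ∑ t ∈ Icc 1 M1, nb W1 W2 t := by
      rw [← Finset.sum_add_distrib]
      refine Finset.sum_congr rfl fun W1 _ => ?_
      rw [← Finset.sum_add_distrib]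
      exact Finset.sum_congr rfl fun W2 _ => by rw [mul_add]
    rw [h3]
    linarith
  have h4N : (4 : ℝ) ^ N = 2 ^ N * 2 ^ N := by
    rw [← mul_pow]; norm_num
  have hlast : (J.card : ℝ) * 2 ^ N * (4 * (B.card : ℝ)) ≤ (J.card : ℝ) * 2 ^ N * 2 ^ N := by
    have h5 : 4 ^ N * Λ * (1 / 8) ≤ 4 ^ N * (2 * (J.card : ℝ)) * (1 / 8) := by gcongr
    rw [h4N] at h5 hfin
    nlinarith [hfin, h5]
  have hres : 4 * (B.card : ℝ) ≤ 2 ^ N := le_of_mul_le_mul_left hlast (by positivity)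
  exact_mod_cast hres

end Pool.Agent.H58.KP
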