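import Pool.Agent.H58.KP.Ball
import Pool.Agent.H58.KP.Mcard

set_option autoImplicit false

/-!
# The volume lemma

If `|M_i| ≤ W` for all `i`, then `m ^ a * |{σ | |dl L σ| ≤ m - a}| ≤ 6 * 11 ^ a * W` for every set `L` of cells.
-/

namespace Pool.Agent.H58.KP

open Finset Equiv
open Pool.Agent.H71.KInt
open scoped Nat

theorem volume {n k m W : ℕ} (hk : 1 ≤ k) (hn : n = k + m) (hm : 11 ≤ m)
    (hW : ∀ i, k + 2 * i ≤ n → (Mfam n k i).card ≤ W) (L : Finset (Fin n × Fin n)) (a : ℕ)
    (ha : a ≤ m) :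
    m ^ a * (univ.filter (fun σ : Perm (Fin n) => (dl L σ).card + a ≤ m)).card ≤
      6 * 11 ^ a * W := by
  classical
  obtain ⟨L', -, hL', hle⟩ := exists_match L
  have hsub : (univ.filter (fun σ : Perm (Fin n) => (dl L σ).card + a ≤ m)) ⊆
      univ.filter (fun σ : Perm (Fin n) => (dl L' σ).card ≤ m - a) := by
    intro σ hσ
    rw [mem_filter] at hσ ⊢
    refine ⟨mem_univ _, ?_⟩
    have := hle σ
    omega
  refine (Nat.mul_le_mul_left _ (card_le_card hsub)).trans ?_
  rcases ball_match L' hL' (m - a) (by omega) with h | ⟨y, d, h1, h2, h3⟩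
  · rw [filter_eq_empty_iff.2 (fun σ _ => by have := h σ; omega)]
    simp
  have hd : k + 2 * d ≤ n := by omega
  have hMd := card_Mfam_ge hd (by omega)
  have hWd := hW d hd
  have hMd' : (k + 2 * d).choose d * (n - k - d)! ≤ 3 * W := by omega
  have e1 : n - m + 2 * d = k + 2 * d := by omega
  have e2 : m - d = n - k - d := by omega
  rcases (by omega : y + 2 * d + a = m ∨ y + 2 * d + (a + 1) = m) with h4 | h4
  · have h5 := t_final (n := n) (by omega) h4
    rw [e1, e2] at h5
    calc m ^ a * _ ≤ m ^ a * (2 * ((n - y).choose d * (y + d)!)) := Nat.mul_le_mul_left _ h3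
      _ = 2 * (m ^ a * ((n - y).choose d * (y + d)!)) := by ring
      _ ≤ 2 * (11 ^ a * ((k + 2 * d).choose d * (n - k - d)!)) := by gcongr
      _ ≤ 2 * (11 ^ a * (3 * W)) := by gcongr
      _ = 6 * 11 ^ a * W := by ring
  · have h5 := t_final (n := n) (by omega) h4
    rw [e1, e2] at h5
    have h6 : m * (m ^ a * ((n - y).choose d * (y + d)!)) ≤ m * (11 ^ a * (3 * W)) := by
      calc m * (m ^ a * ((n - y).choose d * (y + d)!))
          = m ^ (a + 1) * ((n - y).choose d * (y + d)!) := by ring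
        _ ≤ 11 ^ (a + 1) * ((k + 2 * d).choose d * (n - k - d)!) := h5
        _ ≤ 11 ^ (a + 1) * (3 * W) := by gcongr
        _ = 11 * (11 ^ a * (3 * W)) := by ring
        _ ≤ m * (11 ^ a * (3 * W)) := Nat.mul_le_mul_right _ hm
    have h7 := Nat.le_of_mul_le_mul_left h6 (by omega)
    calc m ^ a * _ ≤ m ^ a * (2 * ((n - y).choose d * (y + d)!)) := Nat.mul_le_mul_left _ h3
      _ = 2 * (m ^ a * ((n - y).choose d * (y + d)!)) := by ring
      _ ≤ 2 * (11 ^ a * (3 * W)) := by gcongr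
      _ = 6 * 11 ^ a * W := by ring

end Pool.Agent.H58.KP
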